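import Mathlib

set_option autoImplicit false

/-! A linear algebra form of Bergman's diamond lemma. -/

namespace Pool.Agent.H2Z.Dia

open Submodule Module

universe u v w

theorem core {F : Type u} [Field F] {V : Type v} [AddCommGroup V] [Module F V] {W ρ : Type w}
    (b : Basis W F V) (val : W → ℕ) (lead : ρ → W) (p : ρ → V)
    (h2 : ∀ r, p r - b (lead r) ∈ span F (b '' {w | val w < val (lead r)}))
    (h3 : ∀ r r', lead r = lead r' → p r - p r' ∈ span F (p '' {s | val (lead s) < val (lead r)}))
    (x : V) (hx : x ∈ span F (Set.range p)) (h0 : ∀ r, b.repr x (lead r) = 0) : x = 0 := by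
  classical
  have hsec : ∀ w : Set.range lead, ∃ r, lead r = w := fun w => w.2
  choose sec hsec using hsec
  let P : Set.range lead → V := fun w => p (sec w)
  have h4 : ∀ N, ∀ r, val (lead r) = N → p r ∈ span F (Set.range P) := by
    intro N
    induction N using Nat.strong_induction_on with
    | _ N ih =>
      intro r hr
      have h5 := h3 r (sec ⟨lead r, r, rfl⟩) (hsec ⟨lead r, r, rfl⟩).symm
      have h6 : span F (p '' {s | val (lead s) < val (lead r)}) ≤ span F (Set.range P) := by
        rw [span_le]
        rintro _ ⟨s, hs, rfl⟩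
        exact ih _ (hr ▸ hs) s rfl
      have h7 : P ⟨lead r, r, rfl⟩ ∈ span F (Set.range P) := subset_span ⟨_, rfl⟩
      have := add_mem (h6 h5) h7
      simpa [P] using this
  have h5 : x ∈ span F (Set.range P) := by
    refine (span_le.2 ?_ : span F (Set.range p) ≤ span F (Set.range P)) hx
    rintro _ ⟨r, rfl⟩
    exact h4 _ r rfl
  obtain ⟨c, rfl⟩ := Finsupp.mem_span_range_iff_exists_finsupp.1 h5
  by_cases hc : c = 0
  · simp [hc]
  obtain ⟨w, hw, hmax⟩ := Finset.exists_max_image c.support (fun w => val w.1)
    (Finsupp.support_nonempty_iff.2 hc)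
  exfalso
  have key : ∀ w' ∈ c.support, b.repr (P w') w = if w' = w then 1 else 0 := by
    intro w' hw'
    have h6 := h2 (sec w')
    rw [hsec, Basis.mem_span_image] at h6
    have h7 : b.repr (p (sec w') - b w') w = 0 := by
      by_contra hne
      have := h6 (Finset.mem_coe.2 (Finsupp.mem_support_iff.2 hne))
      have h8 := hmax w' hw'
      simp only [Set.mem_ofPred_eq] at this
      omega
    rw [map_sub, Finsupp.sub_apply, sub_eq_zero, Basis.repr_self, Finsupp.single_apply] at h7
    simp only [P]
    rw [h7]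
    simp [Subtype.ext_iff]
  have h6 := h0 (sec w)
  rw [hsec, Finsupp.sum, map_sum, Finsupp.finsetSum_apply,
    Finset.sum_congr rfl (g := fun w' => if w' = w then c w' else 0)] at h6
  · rw [Finset.sum_ite_eq' c.support w] at h6
    simp only [hw, if_true] at h6
    exact Finsupp.mem_support_iff.1 hw h6
  · intro w' hw'
    rw [map_smul, Finsupp.smul_apply, key w' hw']
    split_ifs <;> simp

/-- span of the two-sided multiples of the relations whose leading word is below `N` -/
def low {F : Type u} [Field F] {T : Type v} [Ring T] [Algebra F T] {ι G : Type}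
    (b : List ι → T) (val : List ι → ℕ) (LM : G → List ι) (g : G → T) (N : ℕ) : Submodule F T :=
  span F {x | ∃ u a v, val (u ++ LM a ++ v) < N ∧ x = b u * g a * b v}

theorem words {F : Type u} [Field F] {T : Type v} [Ring T] [Algebra F T] {ι G : Type}
    (b : Basis (List ι) F T) (hb : ∀ u v, b (u ++ v) = b u * b v)
    (prec : List ι → List ι → Prop) (val : List ι → ℕ)
    (hcomp : ∀ m l u v, prec m l → val (u ++ m ++ v) < val (u ++ l ++ v))
    (LM : G → List ι) (g : G → T)
    (htail : ∀ a, g a - b (LM a) ∈ span F (b '' {m | prec m (LM a)}))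
    (hov : ∀ a a' u v u' v', u ++ LM a ++ v = u' ++ LM a' ++ v' → u.length ≤ u'.length →
      u'.length < u.length + (LM a).length →
      b u * g a * b v - b u' * g a' * b v' ∈ low (F := F) b val LM g (val (u ++ LM a ++ v)))
    (x : T) (hx : x ∈ span F {x | ∃ u a v, x = b u * g a * b v})
    (h0 : ∀ u a v, b.repr x (u ++ LM a ++ v) = 0) : x = 0 := by
  have hlow : ∀ N, span F ((fun r : List ι × G × List ι => b r.1 * g r.2.1 * b r.2.2) ''
      {s | val (s.1 ++ LM s.2.1 ++ s.2.2) < N}) = low (F := F) b val LM g N := by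
    intro N
    unfold low
    congr 1
    ext y
    constructor
    · rintro ⟨⟨u, a, v⟩, h, rfl⟩
      exact ⟨u, a, v, h, rfl⟩
    · rintro ⟨u, a, v, h, rfl⟩
      exact ⟨⟨u, a, v⟩, h, rfl⟩
  have half : ∀ a a' u v u' v', u ++ LM a ++ v = u' ++ LM a' ++ v' → u.length ≤ u'.length →
      b u * g a * b v - b u' * g a' * b v' ∈ low (F := F) b val LM g (val (u ++ LM a ++ v)) := by
    intro a a' u v u' v' he hl
    by_cases h : u'.length < u.length + (LM a).length
    · exact hov a a' u v u' v' he hl h
    have h1 : u ++ LM a <+: u' := by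
      refine List.prefix_of_prefix_length_le (l₃ := u ++ LM a ++ v) (List.prefix_append _ _) ?_
        (by simp; omega)
      rw [he, List.append_assoc]
      exact List.prefix_append _ _
    obtain ⟨m, rfl⟩ := h1
    have h2 : v = m ++ LM a' ++ v' := by
      simpa [List.append_assoc] using he
    subst h2
    have e : b u * g a * b (m ++ LM a' ++ v') - b (u ++ LM a ++ m) * g a' * b v' =
        b u * (g a - b (LM a)) * b m * g a' * b v' -
          b u * g a * b m * (g a' - b (LM a')) * b v' := by
      simp only [hb]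
      noncomm_ring
    rw [e]
    apply sub_mem
    · refine span_induction (p := fun t _ => b u * t * b m * g a' * b v' ∈
        low (F := F) b val LM g (val (u ++ LM a ++ (m ++ LM a' ++ v')))) ?_ ?_ ?_ ?_ (htail a)
      · rintro _ ⟨t, ht, rfl⟩
        refine subset_span ⟨u ++ t ++ m, a', v', ?_, by simp only [hb]⟩
        have := hcomp t (LM a) u (m ++ LM a' ++ v') ht
        simpa [List.append_assoc] using this
      · simp
      · intro s t _ _ hs ht
        simpa [mul_add, add_mul] using add_mem hs ht
      · intro c t _ ht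
        simpa using smul_mem _ c ht
    · refine span_induction (p := fun t _ => b u * g a * b m * t * b v' ∈
        low (F := F) b val LM g (val (u ++ LM a ++ (m ++ LM a' ++ v')))) ?_ ?_ ?_ ?_ (htail a')
      · rintro _ ⟨t, ht, rfl⟩
        refine subset_span ⟨u, a, m ++ t ++ v', ?_, by simp only [hb, mul_assoc]⟩
        have := hcomp t (LM a') (u ++ LM a ++ m) v' ht
        simpa [List.append_assoc] using this
      · simp
      · intro s t _ _ hs ht
        simpa [mul_add, add_mul] using add_mem hs ht
      · intro c t _ ht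
        simpa using smul_mem _ c ht
  refine core b val (fun r : List ι × G × List ι => r.1 ++ LM r.2.1 ++ r.2.2)
    (fun r => b r.1 * g r.2.1 * b r.2.2) ?_ ?_ x ?_ (fun r => h0 _ _ _)
  · rintro ⟨u, a, v⟩
    simp only
    have e : b u * g a * b v - b (u ++ LM a ++ v) = b u * (g a - b (LM a)) * b v := by
      simp only [hb]
      noncomm_ring
    rw [e]
    refine span_induction (p := fun t _ => b u * t * b v ∈
        span F (b '' {w | val w < val (u ++ LM a ++ v)})) ?_ ?_ ?_ ?_ (htail a)
    · rintro _ ⟨t, ht, rfl⟩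
      exact subset_span ⟨u ++ t ++ v, hcomp t (LM a) u v ht, by simp only [hb]⟩
    · simp
    · intro s t _ _ hs ht
      simpa [mul_add, add_mul] using add_mem hs ht
    · intro c t _ ht
      simpa using smul_mem _ c ht
  · rintro ⟨u, a, v⟩ ⟨u', a', v'⟩ he
    simp only at he ⊢
    rw [hlow]
    rcases le_total u.length u'.length with h | h
    · exact half a a' u v u' v' he h
    · have := neg_mem (half a' a u' v' u v he.symm h)
      rw [neg_sub, ← he] at this
      exact this
  · refine (span_le.2 ?_ : span F {x | ∃ u a v, x = b u * g a * b v} ≤ _) hx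
    rintro _ ⟨u, a, v, rfl⟩
    exact subset_span ⟨⟨u, a, v⟩, rfl⟩

/-- Passing to the quotient algebra. -/
theorem quotient {F : Type u} [Field F] {T : Type v} [Ring T] [Algebra F T] {ι G : Type}
    (b : Basis (List ι) F T) (hb : ∀ u v, b (u ++ v) = b u * b v) (hb1 : b [] = 1) (g : G → T) :
    ∃ (A : Type v) (_ : Ring A) (_ : Algebra F A) (φ : T →ₐ[F] A), (∀ a, φ (g a) = 0) ∧
      ∀ x, φ x = 0 → x ∈ span F {x | ∃ u a v, x = b u * g a * b v} := by
  set J := span F {x | ∃ u a v, x = b u * g a * b v} with hJ
  have hall : ∀ (P : T → Prop), (∀ u, P (b u)) → P 0 → (∀ s t, P s → P t → P (s + t)) →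
      (∀ (c : F) t, P t → P (c • t)) → ∀ t, P t := by
    intro P h1 h2 h3 h4 t
    have ht : t ∈ span F (Set.range b) := by rw [b.span_eq]; trivial
    refine span_induction (p := fun t _ => P t) ?_ h2 (fun s t _ _ => h3 s t)
      (fun c t _ => h4 c t) ht
    rintro _ ⟨u, rfl⟩
    exact h1 u
  have hl : ∀ t, ∀ x ∈ J, t * x ∈ J := by
    intro t x hx
    revert t
    refine hall _ ?_ (by simp) (fun s t hs ht => by simpa [add_mul] using add_mem hs ht)
      (fun c t ht => by simpa using smul_mem _ c ht)
    intro w
    refine span_induction (p := fun x _ => b w * x ∈ J) ?_ (by simp)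
      (fun s t _ _ hs ht => by simpa [mul_add] using add_mem hs ht)
      (fun c t _ ht => by simpa using smul_mem _ c ht) hx
    rintro _ ⟨u, a, v, rfl⟩
    exact subset_span ⟨w ++ u, a, v, by simp only [hb, mul_assoc]⟩
  have hr : ∀ t, ∀ x ∈ J, x * t ∈ J := by
    intro t x hx
    revert t
    refine hall _ ?_ (by simp) (fun s t hs ht => by simpa [mul_add] using add_mem hs ht)
      (fun c t ht => by simpa using smul_mem _ c ht)
    intro w
    refine span_induction (p := fun x _ => x * b w ∈ J) ?_ (by simp)
      (fun s t _ _ hs ht => by simpa [add_mul] using add_mem hs ht)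
      (fun c t _ ht => by simpa using smul_mem _ c ht) hx
    rintro _ ⟨u, a, v, rfl⟩
    exact subset_span ⟨u, a, v ++ w, by simp only [hb, mul_assoc]⟩
  let I : Ideal T :=
    { carrier := J
      add_mem' := fun h1 h2 => add_mem h1 h2
      zero_mem' := zero_mem _
      smul_mem' := fun t x hx => hl t x hx }
  have : I.IsTwoSided := ⟨fun t hx => hr t _ hx⟩
  refine ⟨T ⧸ I, inferInstance, inferInstance, Ideal.Quotient.mkₐ F I, fun a => ?_, fun x hx => ?_⟩
  · rw [Ideal.Quotient.mkₐ_eq_mk, Ideal.Quotient.eq_zero_iff_mem]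
    exact subset_span ⟨[], a, [], by simp [hb1]⟩
  · rw [Ideal.Quotient.mkₐ_eq_mk, Ideal.Quotient.eq_zero_iff_mem] at hx
    exact hx

theorem exists_free (F : Type u) [Field F] (ι : Type) :
    ∃ (T : Type u) (_ : Ring T) (_ : Algebra F T) (b : Basis (List ι) F T),
      (∀ u v, b (u ++ v) = b u * b v) ∧ b [] = 1 := by
  refine ⟨MonoidAlgebra F (FreeMonoid ι), inferInstance, inferInstance,
    (MonoidAlgebra.basis (FreeMonoid ι) F).reindex FreeMonoid.toList, fun u v => ?_, ?_⟩
  · simp [MonoidAlgebra.basis_apply, MonoidAlgebra.single_mul_single]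
  · simp [MonoidAlgebra.basis_apply, MonoidAlgebra.one_def]

end Pool.Agent.H2Z.Dia
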