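import Mathlib

set_option autoImplicit false

namespace Pool.Agent.H2Z.Men

open Filter Set

theorem rec_exists {W A : Type} [LinearOrder W] [WellFoundedLT W] [Nonempty A]
    (P : (α : W) → ((β : W) → β < α → A) → A → Prop)
    (h : ∀ (F : W → A) (α : W), (∀ β < α, P β (fun γ _ => F γ) (F β)) →
      ∃ a, P α (fun γ _ => F γ) a) :
    ∃ F : W → A, ∀ α, P α (fun γ _ => F γ) (F α) := by
  let F : W → A := (wellFounded_lt (α := W)).fix (fun α f => Classical.epsilon (P α f))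
  have hF : ∀ α, F α = Classical.epsilon (P α (fun γ _ => F γ)) := fun α =>
    WellFounded.fix_eq _ _ _
  refine ⟨F, fun α => ?_⟩
  induction α using WellFoundedLT.induction with
  | ind α ih =>
    rw [hF α]
    exact Classical.epsilon_spec (h F α ih)

theorem dominate {J : Type} [Countable J] (f : J → ℕ → ℕ) :
    ∃ g : ℕ → ℕ, StrictMono g ∧ ∀ j, ∀ᶠ n in atTop, f j n ≤ g n := by
  rcases isEmpty_or_nonempty J with hJ | hJ
  · exact ⟨id, strictMono_id, fun j => hJ.elim j⟩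
  obtain ⟨e, he⟩ := exists_surjective_nat J
  refine ⟨fun n => n + ∑ i ∈ Finset.range (n + 1), ∑ k ∈ Finset.range (n + 1), f (e i) k, ?_, ?_⟩
  · apply strictMono_nat_of_lt_succ
    intro n
    have : ∑ i ∈ Finset.range (n + 1), ∑ k ∈ Finset.range (n + 1), f (e i) k ≤
        ∑ i ∈ Finset.range (n + 1 + 1), ∑ k ∈ Finset.range (n + 1 + 1), f (e i) k := by
      refine le_trans (Finset.sum_le_sum fun i _ => ?_)
        (Finset.sum_le_sum_of_subset (Finset.range_subset_range.2 (Nat.le_succ _)))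
      exact Finset.sum_le_sum_of_subset (Finset.range_subset_range.2 (Nat.le_succ _))
    omega
  · intro j
    obtain ⟨i, rfl⟩ := he j
    filter_upwards [eventually_ge_atTop i] with n hn
    have h1 : f (e i) n ≤ ∑ k ∈ Finset.range (n + 1), f (e i) k :=
      Finset.single_le_sum (f := fun k => f (e i) k) (fun _ _ => Nat.zero_le _)
        (Finset.mem_range.2 (Nat.lt_succ_self n))
    have h2 : ∑ k ∈ Finset.range (n + 1), f (e i) k ≤
        ∑ i ∈ Finset.range (n + 1), ∑ k ∈ Finset.range (n + 1), f (e i) k :=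
      Finset.single_le_sum (f := fun i => ∑ k ∈ Finset.range (n + 1), f (e i) k)
        (fun _ _ => Nat.zero_le _) (Finset.mem_range.2 (by omega))
    omega

/-- combinatorial openness in the Baire space -/
def Op (A : Set (ℕ → ℕ)) : Prop := ∀ x ∈ A, ∃ l, ∀ x' : ℕ → ℕ, (∀ j < l, x' j = x j) → x' ∈ A

/-- a code for a sequence of countable families of sets -/
abbrev Code := ℕ → ℕ → Set (ℕ → ℕ)

/-- `g` catches `x` infinitely often if `x` is covered -/
def Good (g : ℕ → ℕ) (U : Code) (x : ℕ → ℕ) : Prop :=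
  (∀ n, ∃ v, x ∈ U n v) → ∃ᶠ n in atTop, ∃ v ≤ g n, x ∈ U n v

/-- the cone -/
def cone (m : ℕ) (s y : ℕ → ℕ) : Set (ℕ → ℕ) :=
  {x | StrictMono x ∧ (∀ k < m, x k = s k) ∧ ∀ k, m ≤ k → y k ≤ x k}

/-- derived code -/
def der (U : Code) (t : List ℕ) : Code :=
  fun n v => {y | ∃ x ∈ U n v, x ∈ cone t.length (fun k => t.getD k 0) y}

/-- iterated derived code -/
def ders (U : Code) : List (List ℕ) → Code
  | [] => U
  | t :: L => der (ders U L) t

/-- increase the tail -/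
def bump (s : ℕ → ℕ) (l : ℕ) (z : ℕ → ℕ) : ℕ → ℕ := fun k => if k < l then s k else s k + z k

theorem bump_mono {s z : ℕ → ℕ} (l : ℕ) (hs : StrictMono s) (hz : Monotone z) :
    StrictMono (bump s l z) := by
  apply strictMono_nat_of_lt_succ
  intro n
  have h1 := hs (Nat.lt_succ_self n)
  have h2 := hz (Nat.le_succ n)
  unfold bump
  simp only [Nat.succ_eq_add_one] at h1 h2
  split_ifs <;> omega

theorem bump_lt {s z : ℕ → ℕ} {l k : ℕ} (h : k < l) : bump s l z k = s k := by simp [bump, h]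

theorem bump_ge {s z : ℕ → ℕ} {l k : ℕ} (h : l ≤ k) : bump s l z k = s k + z k := by
  simp [bump, not_lt.2 h]

theorem le_bump (s z : ℕ → ℕ) (l k : ℕ) : s k ≤ bump s l z k := by
  unfold bump; split_ifs <;> omega

theorem der_op (U : Code) (hU : ∀ n v, Op (U n v)) (t : List ℕ) (n v : ℕ) : Op (der U t n v) := by
  rintro y ⟨x, hx, h1, h2, h3⟩
  obtain ⟨l, hl⟩ := hU n v x hx
  refine ⟨max l t.length, fun y' hy' => ?_⟩
  let z : ℕ → ℕ := fun k => ∑ i ∈ Finset.range (k + 1), y' i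
  have hz : Monotone z := fun a b hab =>
    Finset.sum_le_sum_of_subset (Finset.range_subset_range.2 (by omega))
  have hz2 : ∀ k, y' k ≤ z k := fun k =>
    Finset.single_le_sum (f := y') (fun _ _ => Nat.zero_le _)
      (Finset.mem_range.2 (Nat.lt_succ_self k))
  refine ⟨bump x (max l t.length) z, hl _ (fun j hj => bump_lt (by omega)), bump_mono _ h1 hz,
    fun k hk => ?_, fun k hk => ?_⟩
  · rw [bump_lt (by omega)]
    exact h2 k hk
  · by_cases h : k < max l t.length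
    · rw [bump_lt h, hy' k h]
      exact h3 k hk
    · rw [bump_ge (by omega)]
      have := hz2 k
      omega

theorem ders_op (U : Code) (hU : ∀ n v, Op (U n v)) (L : List (List ℕ)) :
    ∀ n v, Op (ders U L n v) := by
  induction L with
  | nil => exact hU
  | cons t L ih => exact der_op _ ih t

theorem cone_sub {m m' : ℕ} {s s' y y' : ℕ → ℕ} (h1 : s' ∈ cone m s y) (h2 : m ≤ m')
    (h3 : ∀ k, m' ≤ k → y k ≤ y' k) : cone m' s' y' ⊆ cone m s y := by
  rintro x ⟨a1, a2, a3⟩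
  refine ⟨a1, fun k hk => (a2 k (by omega)).trans (h1.2.1 k hk), fun k hk => ?_⟩
  by_cases h : k < m'
  · rw [a2 k h]; exact h1.2.2 k hk
  · exact (h3 k (by omega)).trans (a3 k (by omega))

/-- fusion along countably many requirements -/
theorem generic {J : Type} [Countable J] (Y : Set (ℕ → ℕ)) (y0 : ℕ → ℕ) (hy0 : y0 ∈ Y)
    (hm0 : StrictMono y0) (Q : J → (ℕ → ℕ) → Prop)
    (hQ : ∀ j m s y, y ∈ Y → s ∈ cone m s y → ∃ m' s' y', y' ∈ Y ∧ s' ∈ cone m' s' y' ∧ m < m' ∧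
      cone m' s' y' ⊆ cone m s y ∧ ∀ x ∈ cone m' s' y', Q j x) :
    ∃ x, StrictMono x ∧ ∀ j, Q j x := by
  rcases isEmpty_or_nonempty J with hJ | hJ
  · exact ⟨id, strictMono_id, fun j => hJ.elim j⟩
  obtain ⟨e, he⟩ := exists_surjective_nat J
  let C := {p : ℕ × (ℕ → ℕ) × (ℕ → ℕ) // p.2.2 ∈ Y ∧ p.2.1 ∈ cone p.1 p.2.1 p.2.2}
  have step : ∀ (j : J) (p : C), ∃ q : C, p.1.1 < q.1.1 ∧
      cone q.1.1 q.1.2.1 q.1.2.2 ⊆ cone p.1.1 p.1.2.1 p.1.2.2 ∧
      ∀ x ∈ cone q.1.1 q.1.2.1 q.1.2.2, Q j x := by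
    rintro j ⟨⟨m, s, y⟩, h1, h2⟩
    obtain ⟨m', s', y', a1, a2, a3, a4, a5⟩ := hQ j m s y h1 h2
    exact ⟨⟨⟨m', s', y'⟩, a1, a2⟩, a3, a4, a5⟩
  choose nx h1 h2 h3 using step
  let p : ℕ → C := fun n => Nat.rec ⟨⟨0, y0, y0⟩, hy0, hm0, fun _ _ => rfl, fun _ _ => le_rfl⟩
    (fun n q => nx (e n) q) n
  have hp : ∀ n, p (n + 1) = nx (e n) (p n) := fun n => rfl
  have hm : StrictMono (fun n => (p n).1.1) := strictMono_nat_of_lt_succ fun n => by
    rw [hp]; exact h1 _ _
  have hc : Antitone (fun n => cone (p n).1.1 (p n).1.2.1 (p n).1.2.2) :=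
    antitone_nat_of_succ_le fun n => by rw [hp]; exact h2 _ _
  let x : ℕ → ℕ := fun k => (p (k + 1)).1.2.1 k
  have hx : ∀ k l, k < l → x k = (p l).1.2.1 k := by
    intro k l hkl
    have h4 : (p l).1.2.1 ∈ cone (p (k + 1)).1.1 (p (k + 1)).1.2.1 (p (k + 1)).1.2.2 :=
      hc (show k + 1 ≤ l from hkl) (p l).2.2
    exact (h4.2.1 k (lt_of_lt_of_le (Nat.lt_succ_self k) (hm.le_apply))).symm
  have hxm : StrictMono x := strictMono_nat_of_lt_succ fun k => by
    rw [hx k (k + 2) (by omega), hx (k + 1) (k + 2) (by omega)]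
    exact (p (k + 2)).2.2.1 (Nat.lt_succ_self k)
  have hxc : ∀ n, x ∈ cone (p n).1.1 (p n).1.2.1 (p n).1.2.2 := by
    intro n
    have h4 : ∀ k, (p (n + k + 1)).1.2.1 ∈ cone (p n).1.1 (p n).1.2.1 (p n).1.2.2 := fun k =>
      hc (show n ≤ n + k + 1 by omega) (p (n + k + 1)).2.2
    refine ⟨hxm, fun k hk => ?_, fun k hk => ?_⟩
    · rw [hx k (n + k + 1) (by omega)]; exact (h4 k).2.1 k hk
    · rw [hx k (n + k + 1) (by omega)]; exact (h4 k).2.2 k hk
  refine ⟨x, hxm, fun j => ?_⟩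
  obtain ⟨n, rfl⟩ := he j
  apply h3 (e n) (p n)
  rw [← hp]
  exact hxc (n + 1)

theorem step {J K : Type} [Countable J] [Countable K] [Nonempty K] (g : J → ℕ → ℕ) (U : J → Code)
    (hU : ∀ j n v, Op (U j n v)) (y : K → ℕ → ℕ) (hy : ∀ k, StrictMono (y k))
    (hdir : ∀ k k', ∃ k'', (∀ᶠ n in atTop, y k n ≤ y k'' n) ∧ ∀ᶠ n in atTop, y k' n ≤ y k'' n)
    (hgood : ∀ j L k, Good (g j) (ders (U j) L) (y k)) (b : ℕ → ℕ) (hb : Monotone b) :
    ∃ x, StrictMono x ∧ (∀ k, ∀ᶠ n in atTop, y k n ≤ x n) ∧ (∃ᶠ n in atTop, b n ≤ x n) ∧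
      ∀ j L, Good (g j) (ders (U j) L) x := by
  obtain ⟨k0⟩ := ‹Nonempty K›
  let Q : K ⊕ ℕ ⊕ (J × List (List ℕ) × ℕ) → (ℕ → ℕ) → Prop := fun r x =>
    match r with
    | Sum.inl k => ∀ᶠ n in atTop, y k n ≤ x n
    | Sum.inr (Sum.inl N) => ∃ n, N ≤ n ∧ b n ≤ x n
    | Sum.inr (Sum.inr (j, L, N)) => (∀ n, ∃ v, x ∈ ders (U j) L n v) →
        ∃ n, N ≤ n ∧ ∃ v ≤ g j n, x ∈ ders (U j) L n v
  obtain ⟨x, hx, hQ⟩ := generic (range y) (y k0) ⟨k0, rfl⟩ (hy k0) Q (by
    rintro r m s _ ⟨k, rfl⟩ hs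
    rcases r with k1 | N | ⟨j, L, N⟩
    · obtain ⟨k2, h1, h2⟩ := hdir k k1
      obtain ⟨M, hM⟩ := eventually_atTop.1 (h1.and h2)
      have h3 : bump s (max M (m + 1)) (y k2) ∈ cone m s (y k) :=
        ⟨bump_mono _ hs.1 (hy k2).monotone, fun i hi => bump_lt (by omega),
          fun i hi => (hs.2.2 i hi).trans (le_bump _ _ _ _)⟩
      refine ⟨max M (m + 1), bump s (max M (m + 1)) (y k2), y k2, ⟨k2, rfl⟩,
        ⟨h3.1, fun _ _ => rfl, fun i hi => ?_⟩, by omega,
        cone_sub h3 (by omega) (fun i hi => (hM i (by omega)).1), fun x hx => ?_⟩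
      · rw [bump_ge hi]; omega
      · exact eventually_atTop.2 ⟨max M (m + 1), fun i hi =>
          (hM i (by omega)).2.trans (hx.2.2 i hi)⟩
    · have h3 : bump s (max m N) b ∈ cone m s (y k) :=
        ⟨bump_mono _ hs.1 hb, fun i hi => bump_lt (by omega),
          fun i hi => (hs.2.2 i hi).trans (le_bump _ _ _ _)⟩
      refine ⟨max m N + 1, bump s (max m N) b, y k, ⟨k, rfl⟩,
        ⟨h3.1, fun _ _ => rfl, fun i hi => h3.2.2 i (by omega)⟩, by omega,
        cone_sub h3 (by omega) (fun i _ => le_rfl), fun x hx => ⟨max m N, by omega, ?_⟩⟩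
      rw [hx.2.1 _ (Nat.lt_succ_self _), bump_ge le_rfl]
      omega
    · have hcone : cone ((List.range m).map s).length (fun i => ((List.range m).map s).getD i 0)
          (y k) = cone m s (y k) := by
        ext x
        simp only [cone, List.length_map, List.length_range, mem_ofPred_eq]
        refine and_congr_right fun _ => and_congr_left fun _ => forall₂_congr fun i hi => ?_
        simp [hi]
      by_cases hc : ∀ n, ∃ v, y k ∈ ders (U j) ((List.range m).map s :: L) n v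
      · obtain ⟨n, hn, v, hv, x0, h1, h2⟩ :=
          frequently_atTop.1 (hgood j ((List.range m).map s :: L) k hc) N
        rw [hcone] at h2
        obtain ⟨l, hl⟩ := ders_op _ (hU j) L n v x0 h1
        exact ⟨max l (m + 1), x0, y k, ⟨k, rfl⟩,
          ⟨h2.1, fun _ _ => rfl, fun i hi => h2.2.2 i (by omega)⟩, by omega,
          cone_sub h2 (by omega) (fun i _ => le_rfl),
          fun x hx _ => ⟨n, hn, v, hv, hl x fun i hi => hx.2.1 i (by omega)⟩⟩
      · refine ⟨m + 1, s, y k, ⟨k, rfl⟩, ⟨hs.1, fun _ _ => rfl, fun i hi => hs.2.2 i (by omega)⟩,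
          by omega, cone_sub hs (by omega) (fun i _ => le_rfl), fun x hx hcov => ?_⟩
        exfalso
        apply hc
        intro n
        obtain ⟨v, hv⟩ := hcov n
        refine ⟨v, x, hv, ?_⟩
        rw [hcone]
        exact cone_sub hs (Nat.le_succ m) (fun i _ => le_rfl) hx)
  refine ⟨x, hx, fun k => hQ (Sum.inl k), frequently_atTop.2 fun N => hQ (Sum.inr (Sum.inl N)),
    fun j L hc => frequently_atTop.2 fun N => hQ (Sum.inr (Sum.inr (j, L, N))) hc⟩

theorem exists_g {K : Type} [Countable K] (U : Code) (y : K → ℕ → ℕ) :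
    ∃ g : ℕ → ℕ, ∀ L k, Good g (ders U L) (y k) := by
  classical
  have h : ∀ p : List (List ℕ) × K, ∃ f : ℕ → ℕ, (∀ n, ∃ v, y p.2 ∈ ders U p.1 n v) →
      ∀ n, y p.2 ∈ ders U p.1 n (f n) := by
    intro p
    by_cases hc : ∀ n, ∃ v, y p.2 ∈ ders U p.1 n v
    · choose f hf using hc
      exact ⟨f, fun _ => hf⟩
    · exact ⟨id, fun h => absurd h hc⟩
  choose f hf using h
  obtain ⟨g, -, hg⟩ := dominate f
  refine ⟨g, fun L k hc => ((hg (L, k)).mono fun n hn => ⟨_, hn, hf (L, k) hc n⟩).frequently⟩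

theorem construction {W : Type} [LinearOrder W] [WellFoundedLT W]
    (hW : ∀ α : W, (Iio α).Countable) (U : W → Code) (hU : ∀ j n v, Op (U j n v))
    (b : W → ℕ → ℕ) (hb : ∀ α, Monotone (b α)) :
    ∃ x g : W → ℕ → ℕ, (∀ α, StrictMono (x α)) ∧
      (∀ α β, β < α → ∀ᶠ n in atTop, x β n ≤ x α n) ∧ (∀ α, ∃ᶠ n in atTop, b α n ≤ x α n) ∧
      ∀ α β, Good (g α) (U α) (x β) := by
  obtain ⟨F, hF⟩ := rec_exists (W := W) (A := (ℕ → ℕ) × (ℕ → ℕ)) (fun α f a =>
    StrictMono a.1 ∧ (∀ β (h : β < α), ∀ᶠ n in atTop, (f β h).1 n ≤ a.1 n) ∧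
    (∃ᶠ n in atTop, b α n ≤ a.1 n) ∧
    (∀ β (h : β < α) L, Good (f β h).2 (ders (U β) L) a.1) ∧
    (∀ L, Good a.2 (ders (U α) L) a.1) ∧
    (∀ β (h : β < α) L, Good a.2 (ders (U α) L) (f β h).1) ∧
    (∀ L, Good a.2 (ders (U α) L) id)) (by
    intro F α ih
    have : Countable (Iio α) := (hW α).to_subtype
    let y : Option (Iio α) → ℕ → ℕ := fun k => k.elim id (fun β => (F β).1)
    have hy : ∀ k, StrictMono (y k) := by
      rintro (_ | ⟨β, hβ⟩)
      · exact strictMono_id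
      · exact (ih β hβ).1
    obtain ⟨g, hg⟩ := exists_g (U α) y
    obtain ⟨x, h1, h2, h3, h4⟩ := step (J := Option (Iio α))
      (fun j => j.elim g (fun β => (F β).2)) (fun j => j.elim (U α) (fun β => U β))
      (by rintro (_ | β); exacts [hU α, hU β]) y hy (by
        have hle : ∀ k k' : Option (Iio α), (∀ᶠ n in atTop, y k n ≤ y k' n) ∨
            ∀ᶠ n in atTop, y k' n ≤ y k n := by
          rintro (_ | ⟨β, hβ⟩) k'
          · exact Or.inl (Eventually.of_forall fun n => (hy k').le_apply)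
          · rcases k' with _ | ⟨γ, hγ⟩
            · exact Or.inr (Eventually.of_forall fun n => (hy (some ⟨β, hβ⟩)).le_apply)
            · rcases lt_trichotomy β γ with h | rfl | h
              · exact Or.inl ((ih γ hγ).2.1 β h)
              · exact Or.inl (Eventually.of_forall fun n => le_rfl)
              · exact Or.inr ((ih β hβ).2.1 γ h)
        intro k k'
        rcases hle k k' with h | h
        · exact ⟨k', h, Eventually.of_forall fun n => le_rfl⟩
        · exact ⟨k, Eventually.of_forall fun n => le_rfl, h⟩) (by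
        rintro (_ | ⟨β, hβ⟩) L k
        · exact hg L k
        · rcases k with _ | ⟨γ, hγ⟩
          · exact (ih β hβ).2.2.2.2.2.2 L
          · rcases lt_trichotomy β γ with h | rfl | h
            · exact (ih γ hγ).2.2.2.1 β h L
            · exact (ih β hβ).2.2.2.2.1 L
            · exact (ih β hβ).2.2.2.2.2.1 γ h L) (b α) (hb α)
    exact ⟨(x, g), h1, fun β h => h2 (some ⟨β, h⟩), h3, fun β h L => h4 (some ⟨β, h⟩) L,
      fun L => h4 none L, fun β h L => hg L (some ⟨β, h⟩), fun L => hg L none⟩)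
  refine ⟨fun α => (F α).1, fun α => (F α).2, fun α => (hF α).1, fun α β h => (hF α).2.1 β h,
    fun α => (hF α).2.2.1, fun α β => ?_⟩
  rcases lt_trichotomy α β with h | rfl | h
  · exact (hF β).2.2.2.1 α h []
  · exact (hF α).2.2.2.2.1 []
  · exact (hF α).2.2.2.2.2.1 β h []

end Pool.Agent.H2Z.Men
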