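import Mathlib

set_option autoImplicit false

namespace Pool.Agent.H2Z.MenDefs

open Filter Cardinal

/-- `a ≤* b`: `a n ≤ b n` for all but finitely many `n`. -/
def LeStar (a b : ℕ → ℕ) : Prop := ∀ᶠ n in atTop, a n ≤ b n

/-- `a ≤^∞ b`: `a n ≤ b n` for infinitely many `n`. -/
def LeInf (a b : ℕ → ℕ) : Prop := ∃ᶠ n in atTop, a n ≤ b n

/-- Infinite subsets of `ℕ`, identified with their increasing enumerations, with the topology
inherited from the Baire space `ℕ → ℕ`. -/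
abbrev InfSet : Type := {a : ℕ → ℕ // StrictMono a}

/-- The unbounding number: least size of a `≤*`-unbounded family of infinite sets. -/
noncomputable def bNum : Cardinal.{0} :=
  sInf {c | ∃ B : Set InfSet, (¬ ∃ g : InfSet, ∀ a ∈ B, LeStar a.1 g.1) ∧ #B = c}

/-- cofinite-filter scales -/
def IsCFinScale (X : Set InfSet) : Prop :=
  bNum ≤ #X ∧ ∀ b : InfSet, ∃ c : InfSet, LeInf b.1 c.1 ∧
    #{x : InfSet | x ∈ X ∧ ¬ LeStar c.1 x.1} < bNum

/-- Menger spaces -/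
def IsMenger (Y : Type) [TopologicalSpace Y] : Prop :=
  ∀ U : ℕ → Set (Set Y), (∀ n, (∀ u ∈ U n, IsOpen u) ∧ ⋃₀ U n = Set.univ) →
    ∃ F : ℕ → Set (Set Y), (∀ n, (F n).Finite ∧ F n ⊆ U n) ∧
      ∀ y : Y, ∃ᶠ n in atTop, y ∈ ⋃₀ F n

end Pool.Agent.H2Z.MenDefs
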