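import Mathlib
import Pool.Agent.H2Z.MenA
import Pool.Agent.H2Z.MenDefs

set_option autoImplicit false

namespace Pool.Agent.H2Z.Men

open Filter Set Cardinal Pool.Agent.H2Z.MenDefs

theorem op_of_isOpen {V : Set (ℕ → ℕ)} (h : IsOpen V) : Op V := by
  intro x hx
  obtain ⟨I, u, h1, h2⟩ := isOpen_pi_iff.1 h x hx
  refine ⟨I.sup id + 1, fun x' hx' => h2 fun i hi => ?_⟩
  rw [hx' i (Nat.lt_succ_of_le (Finset.le_sup (f := id) hi))]
  exact (h1 i hi).2

/-- the open set coded by a set of finite sequences -/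
def dec (R : Set (List ℕ)) : Set (ℕ → ℕ) := {x | ∃ m, (List.range m).map x ∈ R}

theorem dec_op (R : Set (List ℕ)) : Op (dec R) := by
  rintro x ⟨m, hm⟩
  refine ⟨m, fun x' hx' => ⟨m, ?_⟩⟩
  rw [List.map_congr_left (g := x) (fun j hj => hx' j (List.mem_range.1 hj))]
  exact hm

theorem exists_dec {V : Set (ℕ → ℕ)} (h : Op V) : ∃ R, dec R = V := by
  refine ⟨{t | ∀ x : ℕ → ℕ, (List.range t.length).map x = t → x ∈ V}, ?_⟩
  ext x
  constructor
  · rintro ⟨m, hm⟩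
    exact hm x (by simp)
  · intro hx
    obtain ⟨l, hl⟩ := h x hx
    refine ⟨l, fun x' hx' => hl x' fun j hj => ?_⟩
    simp only [List.length_map, List.length_range] at hx'
    exact List.map_inj_left.1 hx' j (List.mem_range.2 hj)

theorem main (hCH : continuum.{0} = ℵ₁) : ∃ X : Set InfSet, IsCFinScale X ∧ IsMenger X := by
  let W := (ℵ₁ : Cardinal.{0}).ord.ToType
  have hW : ∀ α : W, (Iio α).Countable := by
    intro α
    have h := mk_Iio_lt α (by simp [W])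
    rw [mk_ord_toType] at h
    exact le_aleph0_iff_set_countable.1 (Order.lt_succ_iff.1 (h.trans_eq succ_aleph0.symm))
  obtain ⟨e⟩ : Nonempty (W ≃ ((ℕ → ℕ → Set (List ℕ)) × (ℕ → ℕ))) := by
    rw [← Cardinal.eq, mk_ord_toType, ← hCH]
    simp
  let b : W → ℕ → ℕ := fun α n => ∑ i ∈ Finset.range (n + 1), (e α).2 i
  obtain ⟨x, g, hx, hmono, hb, hgood⟩ := construction hW (fun α n v => dec ((e α).1 n v))
    (fun α n v => dec_op _) b (fun α m n h =>
      Finset.sum_le_sum_of_subset (Finset.range_subset_range.2 (by omega)))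
  have hb' : ∀ c : ℕ → ℕ, ∃ α, ∃ᶠ n in atTop, c n ≤ x α n := by
    intro c
    refine ⟨e.symm (fun _ _ => ∅, c), (hb _).mono fun n hn => le_trans ?_ hn⟩
    simp only [b, Equiv.apply_symm_apply]
    exact Finset.single_le_sum (f := c) (fun _ _ => Nat.zero_le _)
      (Finset.mem_range.2 (Nat.lt_succ_self n))
  let x' : W → InfSet := fun α => ⟨x α, hx α⟩
  have hunb : ¬ ∃ g : InfSet, ∀ a ∈ range x', LeStar a.1 g.1 := by
    rintro ⟨c, hc⟩
    obtain ⟨α, hα⟩ := hb' (fun n => c.1 n + 1)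
    obtain ⟨n, h1, h2⟩ := (hα.and_eventually (hc _ ⟨α, rfl⟩)).exists
    simp only [x'] at h2
    omega
  have hb0 : ℵ₀ < bNum := by
    obtain ⟨B, h1, h2⟩ : bNum ∈ {c | ∃ B : Set InfSet,
        (¬ ∃ g : InfSet, ∀ a ∈ B, LeStar a.1 g.1) ∧ #B = c} := csInf_mem ⟨_, range x', hunb, rfl⟩
    rw [← h2]
    by_contra h
    have : Countable B := (le_aleph0_iff_set_countable.1 (not_lt.1 h)).to_subtype
    obtain ⟨c, hc, hc'⟩ := dominate (fun a : B => a.1.1)
    exact h1 ⟨⟨c, hc⟩, fun a ha => hc' ⟨a, ha⟩⟩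
  refine ⟨range x', ⟨csInf_le' ⟨_, hunb, rfl⟩, fun c => ?_⟩, ?_⟩
  · obtain ⟨α, hα⟩ := hb' c.1
    refine ⟨x' α, hα, lt_of_le_of_lt ?_ hb0⟩
    rw [le_aleph0_iff_set_countable]
    refine ((hW α).image x').mono ?_
    rintro _ ⟨⟨β, rfl⟩, h⟩
    refine ⟨β, ?_, rfl⟩
    by_contra hlt
    rcases (not_lt.1 (show ¬ β < α from hlt)).eq_or_lt with rfl | h2
    · exact h (Eventually.of_forall fun n => le_rfl)
    · exact h (hmono _ _ h2)
  · intro U hU
    obtain ⟨α0, -⟩ := hb' id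
    have h1 : ∀ n, ∃ u : ℕ → Set (range x'), (∀ v, u v ∈ U n) ∧ ∀ y, ∃ v, y ∈ u v := by
      intro n
      have : SecondCountableTopology InfSet :=
        TopologicalSpace.Subtype.secondCountableTopology {a : ℕ → ℕ | StrictMono a}
      obtain ⟨T, hT1, hT2, hT3⟩ := TopologicalSpace.isOpen_sUnion_countable (U n) (hU n).1
      rw [(hU n).2] at hT3
      have hcov : ∀ y, ∃ t ∈ T, y ∈ t := fun y => by
        have : y ∈ ⋃₀ T := by rw [hT3]; trivial
        exact this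
      obtain ⟨t, ht, -⟩ := hcov ⟨x' α0, α0, rfl⟩
      obtain ⟨u, rfl⟩ := hT1.exists_eq_range ⟨t, ht⟩
      refine ⟨u, fun v => hT2 ⟨v, rfl⟩, fun y => ?_⟩
      obtain ⟨_, ⟨v, rfl⟩, h⟩ := hcov y
      exact ⟨v, h⟩
    choose u hu hcov using h1
    have h2 : ∀ n v, ∃ R : Set (List ℕ), ∀ y : range x', y ∈ u n v ↔ y.1.1 ∈ dec R := by
      intro n v
      obtain ⟨V, hV, h⟩ := isOpen_induced_iff.1 ((hU n).1 _ (hu n v))
      obtain ⟨V', hV', rfl⟩ := isOpen_induced_iff.1 hV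
      obtain ⟨R, hR⟩ := exists_dec (op_of_isOpen hV')
      exact ⟨R, fun y => by rw [← h, hR]; rfl⟩
    choose R hR using h2
    refine ⟨fun n => u n '' Iic (g (e.symm (R, id)) n),
      fun n => ⟨(finite_Iic _).image _, ?_⟩, ?_⟩
    · rintro _ ⟨v, -, rfl⟩
      exact hu n v
    · rintro ⟨_, β, rfl⟩
      have h3 := hgood (e.symm (R, id)) β
      simp only [Equiv.apply_symm_apply] at h3
      refine (h3 fun n => ?_).mono ?_
      · obtain ⟨v, hv⟩ := hcov n ⟨x' β, β, rfl⟩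
        exact ⟨v, (hR n v _).1 hv⟩
      · rintro n ⟨v, hv, h⟩
        exact ⟨u n v, ⟨v, hv, rfl⟩, (hR n v _).2 h⟩

end Pool.Agent.H2Z.Men
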