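import Mathlib
import Pool.Agent.H2Z.Diamond

set_option autoImplicit false

namespace Pool.Agent.H2Z.Poz

open Submodule Module Equiv

universe u v

/-- numerical value of a word: degree-lexicographic order with `0` the largest letter -/
def val (n : ℕ) : List (Fin (n + 1)) → ℕ
  | [] => 0
  | a :: l => (n + 1 - a) * (n + 2) ^ l.length + val n l

theorem val_append (n : ℕ) (u v : List (Fin (n + 1))) :
    val n (u ++ v) = val n u * (n + 2) ^ v.length + val n v := by
  induction u with
  | nil => simp [val]
  | cons a u ih =>
    simp only [List.cons_append, val, ih, List.length_append, pow_add]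
    ring

theorem val_lt (n : ℕ) (l : List (Fin (n + 1))) : val n l < (n + 2) ^ l.length := by
  induction l with
  | nil => simp [val]
  | cons a l ih =>
    simp only [val, List.length_cons, pow_succ]
    have h1 : n + 1 - a ≤ n + 1 := Nat.sub_le _ _
    have h2 := Nat.mul_le_mul_right ((n + 2) ^ l.length) h1
    nlinarith

theorem val_ge (n : ℕ) (a : Fin (n + 1)) (l : List (Fin (n + 1))) :
    (n + 2) ^ l.length ≤ val n (a :: l) := by
  simp only [val]
  have h1 : 1 ≤ n + 1 - a := by have := a.2; omega
  have h2 := Nat.mul_le_mul_right ((n + 2) ^ l.length) h1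
  omega

/-- comparison of words that is stable under multiplication -/
def prec (n : ℕ) (m l : List (Fin (n + 1))) : Prop := m.length ≤ l.length ∧ val n m < val n l

theorem prec_comp (n : ℕ) (m l u v : List (Fin (n + 1))) (h : prec n m l) :
    val n (u ++ m ++ v) < val n (u ++ l ++ v) := by
  simp only [val_append]
  have h1 : (n + 2) ^ m.length ≤ (n + 2) ^ l.length := Nat.pow_le_pow_right (by omega) h.1
  have h2 := Nat.mul_le_mul_left (val n u) h1
  have h3 : val n u * (n + 2) ^ m.length + val n m < val n u * (n + 2) ^ l.length + val n l := by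
    have := h.2
    omega
  have h4 : 0 < (n + 2) ^ v.length := by positivity
  have := Nat.mul_lt_mul_of_pos_right h3 h4
  omega

theorem prec_of_length (n : ℕ) (m l : List (Fin (n + 1))) (h : m.length < l.length) :
    prec n m l := by
  refine ⟨h.le, ?_⟩
  cases l with
  | nil => simp at h
  | cons a l =>
    have h1 := val_ge n a l
    have h2 := val_lt n m
    have h3 : (n + 2) ^ m.length ≤ (n + 2) ^ l.length :=
      Nat.pow_le_pow_right (by omega) (by simpa [Nat.lt_succ_iff] using h)
    omega

theorem prec_cons (n : ℕ) (a c : Fin (n + 1)) (m l : List (Fin (n + 1))) (h : a < c)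
    (hl : m.length = l.length) : prec n (c :: m) (a :: l) := by
  refine ⟨by simp [hl], ?_⟩
  simp only [val]
  have h1 := val_lt n m
  rw [hl] at h1 ⊢
  have h2 : (n + 1 - c) + 1 ≤ n + 1 - a := by
    have := c.2
    have : (a : ℕ) < c := h
    omega
  have h3 := Nat.mul_le_mul_right ((n + 2) ^ l.length) h2
  rw [add_mul] at h3
  omega

theorem prec_of_perm (n : ℕ) (l : List (Fin (n + 1))) (hl : l.Pairwise (· < ·)) :
    ∀ m : List (Fin (n + 1)), m.Perm l → m ≠ l → prec n m l := by
  induction l with
  | nil => intro m h1 h2; exact absurd h1.eq_nil h2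
  | cons a l ih =>
    intro m h1 h2
    cases m with
    | nil => exact absurd h1.symm.eq_nil (by simp)
    | cons c m =>
      rw [List.pairwise_cons] at hl
      have hlen : m.length = l.length := by simpa using h1.length_eq
      have hc : c ∈ a :: l := h1.subset (by simp)
      rcases List.mem_cons.1 hc with rfl | hc
      · have h3 := ih hl.2 m (List.Perm.cons_inv h1) (fun h => h2 (by rw [h]))
        refine ⟨by simp [hlen], ?_⟩
        simp only [val, hlen]
        have := h3.2
        omega
      · exact prec_cons n a c m l (hl.1 c hc) hlen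

/-- the permutation with first value `i` and the remaining values permuted by `τ` -/
def ext (n : ℕ) (p : Fin (n + 1) × Perm (Fin n)) : Perm (Fin (n + 1)) :=
  (Fin.cycleRange p.1).symm * Perm.decomposeFin.symm (0, p.2)

theorem ext_zero (n : ℕ) (p : Fin (n + 1) × Perm (Fin n)) : ext n p 0 = p.1 := by
  simp [ext]

theorem ext_succ (n : ℕ) (p : Fin (n + 1) × Perm (Fin n)) (k : Fin n) :
    ext n p k.succ = p.1.succAbove (p.2 k) := by
  simp [ext]

theorem ext_sign (n : ℕ) (p : Fin (n + 1) × Perm (Fin n)) :
    Perm.sign (ext n p) = (-1) ^ (p.1 : ℕ) * Perm.sign p.2 := by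
  simp [ext]

theorem ext_bij (n : ℕ) : Function.Bijective (ext n) := by
  rw [Fintype.bijective_iff_injective_and_card]
  refine ⟨?_, by simp [Fintype.card_perm, Nat.factorial_succ]⟩
  rintro ⟨i, σ⟩ ⟨j, τ⟩ h
  have h1 : i = j := by
    have := ext_zero n (i, σ)
    rw [h, ext_zero] at this
    exact this.symm
  subst h1
  have h2 : σ = τ := by
    ext k
    have := ext_succ n (i, σ) k
    rw [h, ext_succ] at this
    simp only at this
    rw [Fin.succAbove_right_injective this]
  rw [h2]

theorem ofFn_ext (n : ℕ) (p : Fin (n + 1) × Perm (Fin n)) :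
    List.ofFn (ext n p) = p.1 :: List.ofFn (fun k => p.1.succAbove (p.2 k)) := by
  rw [List.ofFn_succ, ext_zero]
  simp only [ext_succ]

theorem ofFn_ext_rot (n : ℕ) (p : Fin (n + 1) × Perm (Fin n)) :
    List.ofFn (ext n p * finRotate (n + 1)) =
      List.ofFn (fun k => p.1.succAbove (p.2 k)) ++ [p.1] := by
  rw [List.ofFn_succ']
  simp only [Perm.mul_apply, ext_zero, List.concat_eq_append, finRotate_apply,
    Fin.coeSucc_eq_succ, ext_succ, Fin.last_add_one]

section alg

variable {F : Type u} [Field F] {T : Type v} [Ring T] [Algebra F T] {n : ℕ}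

/-- alternating sum of all generators but one -/
def rho (b : List (Fin (n + 1)) → T) (i : Fin (n + 1)) : T :=
  ∑ σ : Perm (Fin n), ((Perm.sign σ : ℤˣ) : ℤ) • b (List.ofFn fun k => i.succAbove (σ k))

theorem key (b : List (Fin (n + 1)) → T) (hb : ∀ u v, b (u ++ v) = b u * b v) (hn : Odd n) :
    ∑ i : Fin (n + 1), ((-1 : ℤ) ^ (i : ℕ)) • (b [i] * rho b i + rho b i * b [i]) = 0 := by
  have h1 : ∑ σ : Perm (Fin (n + 1)), ((Perm.sign σ : ℤˣ) : ℤ) • b (List.ofFn σ) =
      ∑ i : Fin (n + 1), ((-1 : ℤ) ^ (i : ℕ)) • (b [i] * rho b i) := by
    rw [← (ext_bij n).sum_comp, Fintype.sum_prod_type]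
    apply Finset.sum_congr rfl
    intro i _
    rw [rho, Finset.mul_sum, Finset.smul_sum]
    apply Finset.sum_congr rfl
    intro τ _
    rw [ofFn_ext, ext_sign, mul_smul_comm, ← hb, smul_smul]
    simp
  have h2 : ∑ σ : Perm (Fin (n + 1)), ((Perm.sign σ : ℤˣ) : ℤ) •
      b (List.ofFn (σ * finRotate (n + 1) : Perm _)) =
      ∑ i : Fin (n + 1), ((-1 : ℤ) ^ (i : ℕ)) • (rho b i * b [i]) := by
    rw [← (ext_bij n).sum_comp, Fintype.sum_prod_type]
    apply Finset.sum_congr rfl
    intro i _
    rw [rho, Finset.sum_mul, Finset.smul_sum]
    apply Finset.sum_congr rfl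
    intro τ _
    rw [ofFn_ext_rot, ext_sign, smul_mul_assoc, ← hb, smul_smul]
    simp
  have h3 : ∑ σ : Perm (Fin (n + 1)), ((Perm.sign σ : ℤˣ) : ℤ) • b (List.ofFn σ) =
      - ∑ σ : Perm (Fin (n + 1)), ((Perm.sign σ : ℤˣ) : ℤ) •
      b (List.ofFn (σ * finRotate (n + 1) : Perm _)) := by
    rw [← Equiv.sum_comp (Equiv.mulRight (finRotate (n + 1))), ← Finset.sum_neg_distrib]
    apply Finset.sum_congr rfl
    intro σ _
    simp [sign_finRotate, hn.neg_one_pow]
  simp only [smul_add, Finset.sum_add_distrib]
  rw [← h1, ← h2, h3, neg_add_cancel]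

/-- leading words -/
def LM (n : ℕ) : Option (Fin (n + 1)) → List (Fin (n + 1))
  | some i => List.ofFn i.succAbove
  | none => [0, Fin.last n]

/-- the relations -/
def rel (b : List (Fin (n + 1)) → T) (c : F) : Option (Fin (n + 1)) → T
  | some i => rho b i - (c * (-1) ^ (i : ℕ)) • b [swap 0 (Fin.last n) i]
  | none => ∑ i, b [i, swap 0 (Fin.last n) i]

theorem tail (b : List (Fin (n + 1)) → T) (c : F) (hn : 3 ≤ n) (a : Option (Fin (n + 1))) :
    rel b c a - b (LM n a) ∈ span F (b '' {m | prec n m (LM n a)}) := by
  cases a with
  | none =>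
    simp only [rel, LM]
    rw [← Finset.add_sum_erase _ _ (Finset.mem_univ (0 : Fin (n + 1)))]
    simp only [swap_apply_left, add_sub_cancel_left]
    apply sum_mem
    intro i hi
    refine subset_span ⟨_, ?_, rfl⟩
    exact prec_cons n 0 i _ _ (Fin.pos_iff_ne_zero.2 (Finset.ne_of_mem_erase hi)) rfl
  | some i =>
    simp only [rel, LM, rho]
    rw [← Finset.add_sum_erase _ _ (Finset.mem_univ (1 : Perm (Fin n)))]
    simp only [Perm.sign_one, Units.val_one, one_smul, Perm.coe_one, id]
    rw [sub_right_comm, add_sub_cancel_left]
    apply sub_mem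
    · apply sum_mem
      intro σ hσ
      apply zsmul_mem
      refine subset_span ⟨_, ?_, rfl⟩
      apply prec_of_perm
      · exact List.pairwise_ofFn.2 (fun a c h => Fin.strictMono_succAbove i h)
      · exact Perm.ofFn_comp_perm σ i.succAbove
      · intro h
        apply Finset.ne_of_mem_erase hσ
        ext k
        have := congrFun (List.ofFn_injective h) k
        rw [Fin.succAbove_right_injective this]
        simp
    · apply smul_mem
      refine subset_span ⟨_, ?_, rfl⟩
      apply prec_of_length
      simp; omega

theorem classify (hn : 3 ≤ n) (a a' : Option (Fin (n + 1))) (u v u' v' : List (Fin (n + 1)))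
    (he : u ++ LM n a ++ v = u' ++ LM n a' ++ v') (h1 : u.length ≤ u'.length)
    (h2 : u'.length < u.length + (LM n a).length) :
    (a = a' ∧ u = u' ∧ v = v') ∨
      (a = some (Fin.last n) ∧ a' = some 0 ∧ u' = u ++ [0] ∧ v = Fin.last n :: v') := by
  have hget : ∀ (a : Option (Fin (n + 1))) (u v : List (Fin (n + 1))) (k : ℕ),
      k < (LM n a).length → (u ++ LM n a ++ v)[u.length + k]? = (LM n a)[k]? := by
    intro a u v k hk
    rw [List.append_assoc, List.getElem?_append_right (by omega), Nat.add_sub_cancel_left,
      List.getElem?_append_left hk]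
  obtain ⟨d, hd⟩ := Nat.exists_eq_add_of_le h1
  have hcmp : ∀ k, d + k < (LM n a).length → k < (LM n a').length →
      ((LM n a)[d + k]?).map Fin.val = ((LM n a')[k]?).map Fin.val := by
    intro k hk hk'
    rw [← hget a u v _ hk, ← hget a' u' v' _ hk', he, hd, add_assoc]
  have hS : ∀ (i : Fin (n + 1)) (k : ℕ), k < n →
      ((LM n (some i))[k]?).map Fin.val = some (if k < i then k else k + 1) := by
    intro i k hk
    simp only [LM, List.getElem?_ofFn, hk, dite_true, Option.map_some, Option.some.injEq]
    unfold Fin.succAbove
    simp only [Fin.lt_def, Fin.val_castSucc]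
    split_ifs <;> simp
  have hlS : ∀ i, (LM n (some i)).length = n := fun i => by simp [LM]
  have hlN : (LM n none).length = 2 := rfl
  have hN0 : ((LM n none)[0]?).map Fin.val = some 0 := rfl
  have hN1 : ((LM n none)[1]?).map Fin.val = some n := rfl
  have main : (d = 0 ∧ a = a') ∨ (d = 1 ∧ a = some (Fin.last n) ∧ a' = some 0) := by
    cases a with
    | none =>
      rw [hlN] at h2
      cases a' with
      | none =>
        left
        refine ⟨?_, rfl⟩
        by_contra h
        have h3 : d = 1 := by omega
        subst h3
        have := hcmp 0 (by rw [hlN]; omega) (by rw [hlN]; omega)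
        rw [hN0, hN1] at this
        simp at this
        omega
      | some j =>
        exfalso
        have h3 : d = 0 ∨ d = 1 := by omega
        rcases h3 with rfl | rfl
        · have := hcmp 1 (by rw [hlN]; omega) (by rw [hlS]; omega)
          rw [hS j 1 (by omega), zero_add, hN1] at this
          simp only [Option.some.injEq] at this
          split_ifs at this <;> omega
        · have := hcmp 0 (by rw [hlN]; omega) (by rw [hlS]; omega)
          rw [hS j 0 (by omega), add_zero, hN1] at this
          simp only [Option.some.injEq] at this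
          split_ifs at this <;> omega
    | some i =>
      rw [hlS] at h2
      cases a' with
      | none =>
        exfalso
        have e0 := hcmp 0 (by rw [hlS]; omega) (by rw [hlN]; omega)
        rw [hS i _ (by omega), hN0] at e0
        simp only [Option.some.injEq] at e0
        have h3 : d = 0 := by split_ifs at e0; omega
        subst h3
        have e1 := hcmp 1 (by rw [hlS]; omega) (by rw [hlN]; omega)
        rw [hS i _ (by omega), hN1] at e1
        simp only [Option.some.injEq] at e1
        split_ifs at e1 <;> omega
      | some j =>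
        have hc : ∀ k, d + k < n → (if d + k < i then d + k else d + k + 1) =
            (if k < j then k else k + 1) := by
          intro k hk
          have := hcmp k (by rw [hlS]; omega) (by rw [hlS]; omega)
          rw [hS i _ (by omega), hS j _ (by omega)] at this
          exact Option.some.inj this
        have hi := i.2
        have hj := j.2
        rcases Nat.eq_zero_or_pos d with rfl | hd0
        · left
          refine ⟨rfl, ?_⟩
          congr 1
          apply Fin.ext
          rcases lt_trichotomy (i : ℕ) j with h | h | h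
          · have := hc i (by omega)
            split_ifs at this <;> omega
          · exact h
          · have := hc j (by omega)
            split_ifs at this <;> omega
        · right
          have e0 := hc 0 (by omega)
          have h3 : d = 1 ∧ (j : ℕ) = 0 ∧ 1 < (i : ℕ) := by split_ifs at e0 <;> omega
          obtain ⟨rfl, h4, h5⟩ := h3
          refine ⟨rfl, ?_, ?_⟩
          · congr 1
            apply Fin.ext
            by_contra h
            simp only [Fin.val_last] at h
            have := hc (i - 1) (by omega)
            split_ifs at this <;> omega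
          · congr 1
            exact Fin.ext h4
  rcases main with ⟨rfl, rfl⟩ | ⟨rfl, rfl, rfl⟩
  · left
    rw [List.append_assoc, List.append_assoc] at he
    obtain ⟨h3, h4⟩ := List.append_inj he (by omega)
    exact ⟨rfl, h3, List.append_cancel_left h4⟩
  · right
    refine ⟨rfl, rfl, ?_⟩
    have e1 : LM n (some (Fin.last n)) ++ [Fin.last n] = 0 :: LM n (some 0) := by
      simp only [LM]
      have a1 := List.ofFn_succ (f := (id : Fin (n + 1) → Fin (n + 1)))
      have a2 := List.ofFn_succ' (f := (id : Fin (n + 1) → Fin (n + 1)))
      rw [a1] at a2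
      simpa using a2.symm
    obtain ⟨w, rfl⟩ : u <+: u' := by
      refine List.prefix_of_prefix_length_le (l₃ := u ++ LM n (some (Fin.last n)) ++ v) ?_ ?_ h1
      · rw [List.append_assoc]; exact List.prefix_append _ _
      · rw [he, List.append_assoc]; exact List.prefix_append _ _
    have hw : w.length = 1 := by simpa using hd
    obtain ⟨x, rfl⟩ := List.length_eq_one_iff.1 hw
    rw [List.append_assoc, List.append_assoc, List.append_assoc, List.append_cancel_left_eq] at he
    cases v with
    | nil =>
      have := congrArg List.length he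
      simp [hlS] at this
      omega
    | cons y v =>
      have e2 : (LM n (some (Fin.last n)) ++ [y]) ++ v = (x :: LM n (some 0)) ++ v' := by
        simpa using he
      obtain ⟨e3, rfl⟩ := List.append_inj e2 (by simp [hlS])
      have e4 : x = 0 := by
        have a1 := congrArg List.head? e3
        have a2 := congrArg List.head? e1
        obtain ⟨z, t, hz⟩ : ∃ z t, LM n (some (Fin.last n)) = z :: t := by
          apply List.exists_cons_of_length_pos
          rw [hlS]; omega
        rw [hz] at a1 a2
        simp at a1 a2
        rw [← a1, a2]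
      subst e4
      rw [← e1] at e3
      have e5 := List.append_cancel_left e3
      simp at e5
      simp [e5]

end alg

end Pool.Agent.H2Z.Poz
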