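import Mathlib
import Pool.Agent.H2Z.PozA

set_option autoImplicit false

namespace Pool.Agent.H2Z.Poz

open Submodule Module Equiv

universe u v

section alg

variable {F : Type u} [Field F] {T : Type v} [Ring T] [Algebra F T] {n : ℕ}

theorem key2 (b : List (Fin (n + 1)) → T) (hb : ∀ u v, b (u ++ v) = b u * b v) (hn : Odd n) (c : F) :
    rel b c (some (Fin.last n)) * b [Fin.last n] - b [0] * rel b c (some 0) =
      ∑ i ∈ Finset.univ.erase (0 : Fin (n + 1)), ((-1 : ℤ) ^ (i : ℕ)) • (b [i] * rel b c (some i)) +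
      ∑ i ∈ Finset.univ.erase (Fin.last n), ((-1 : ℤ) ^ (i : ℕ)) • (rel b c (some i) * b [i]) +
      (2 * c) • rel b c none := by
  have h1 := key b hb hn
  have h2 : ∑ i : Fin (n + 1), ((-1 : ℤ) ^ (i : ℕ)) • (b [i] * rel b c (some i)) +
      ∑ i : Fin (n + 1), ((-1 : ℤ) ^ (i : ℕ)) • (rel b c (some i) * b [i]) +
      (2 * c) • rel b c none = 0 := by
    have h3 : ∑ i, b [i, swap 0 (Fin.last n) i] = ∑ i, b [swap 0 (Fin.last n) i, i] := by
      rw [← Equiv.sum_comp (swap 0 (Fin.last n))]
      simp
    have h4 : (2 * c) • rel b c none =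
        ∑ i, (c • b [i, swap 0 (Fin.last n) i] + c • b [swap 0 (Fin.last n) i, i]) := by
      rw [Finset.sum_add_distrib, ← Finset.smul_sum, ← Finset.smul_sum, ← h3, two_mul, add_smul]
      rfl
    rw [h4, ← h1, ← Finset.sum_add_distrib, ← Finset.sum_add_distrib]
    apply Finset.sum_congr rfl
    intro i _
    have e1 : b [i, swap 0 (Fin.last n) i] = b [i] * b [swap 0 (Fin.last n) i] := hb [i] [_]
    have e2 : b [swap 0 (Fin.last n) i, i] = b [swap 0 (Fin.last n) i] * b [i] := hb [_] [i]
    simp only [rel, e1, e2, mul_sub, sub_mul, mul_smul_comm, smul_mul_assoc]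
    rcases neg_one_pow_eq_or ℤ (i : ℕ) with h | h
    · have h' : (-1 : F) ^ (i : ℕ) = 1 := by exact_mod_cast congrArg (Int.cast : ℤ → F) h
      rw [h, h']
      simp only [one_smul, mul_one]
      abel
    · have h' : (-1 : F) ^ (i : ℕ) = -1 := by exact_mod_cast congrArg (Int.cast : ℤ → F) h
      rw [h, h']
      simp only [neg_smul, one_smul, mul_neg, mul_one]
      abel
  rw [← Finset.add_sum_erase _ _ (Finset.mem_univ (0 : Fin (n + 1))),
    ← Finset.add_sum_erase _ (fun i : Fin (n + 1) => ((-1 : ℤ) ^ (i : ℕ)) • (rel b c (some i) * b [i]))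
      (Finset.mem_univ (Fin.last n))] at h2
  simp only [Fin.val_zero, pow_zero, one_smul, Fin.val_last, hn.neg_one_pow, neg_smul] at h2
  rw [← sub_eq_zero, ← neg_eq_zero, ← h2]
  abel

theorem full_eq (n : ℕ) : LM n (some (Fin.last n)) ++ [Fin.last n] =
    List.ofFn (id : Fin (n + 1) → Fin (n + 1)) := by
  rw [List.ofFn_succ']
  simp [LM]

theorem overlap (b : List (Fin (n + 1)) → T) (hb : ∀ u v, b (u ++ v) = b u * b v) (hn : Odd n)
    (hn3 : 3 ≤ n) (c : F) (u v : List (Fin (n + 1))) :
    b u * rel b c (some (Fin.last n)) * b (Fin.last n :: v) - b (u ++ [0]) * rel b c (some 0) * b v ∈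
      Dia.low (F := F) b (val n) (LM n) (rel b c)
        (val n (u ++ LM n (some (Fin.last n)) ++ Fin.last n :: v)) := by
  have e0 : u ++ LM n (some (Fin.last n)) ++ Fin.last n :: v =
      u ++ List.ofFn (id : Fin (n + 1) → Fin (n + 1)) ++ v := by
    rw [← full_eq]; simp
  have e1 : b u * rel b c (some (Fin.last n)) * b (Fin.last n :: v) -
      b (u ++ [0]) * rel b c (some 0) * b v =
      b u * (rel b c (some (Fin.last n)) * b [Fin.last n] - b [0] * rel b c (some 0)) * b v := by
    have : b (Fin.last n :: v) = b [Fin.last n] * b v := hb [_] v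
    rw [this, hb]
    noncomm_ring
  have hpw : (List.ofFn (id : Fin (n + 1) → Fin (n + 1))).Pairwise (· < ·) :=
    List.pairwise_ofFn.2 (fun a c h => h)
  have hp : ∀ i : Fin (n + 1), (i :: LM n (some i)).Perm
      (List.ofFn (id : Fin (n + 1) → Fin (n + 1))) := by
    intro i
    have h1 := ofFn_ext n (i, 1)
    have h2 := Perm.ofFn_comp_perm (ext n (i, 1)) (id : Fin (n + 1) → Fin (n + 1))
    simp only [Function.id_comp] at h2
    rw [h1] at h2
    simpa [LM] using h2
  rw [e0, e1, key2 b hb hn c, mul_add, mul_add, add_mul, add_mul, Finset.mul_sum, Finset.mul_sum,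
    Finset.sum_mul, Finset.sum_mul]
  refine add_mem (add_mem (sum_mem fun i hi => ?_) (sum_mem fun i hi => ?_)) ?_
  · rw [mul_smul_comm, smul_mul_assoc]
    apply zsmul_mem
    refine subset_span ⟨u ++ [i], some i, v, ?_, by rw [hb]; noncomm_ring⟩
    have := prec_comp n (i :: LM n (some i)) _ u v (prec_of_perm n _ hpw _ (hp i) (by
      intro h
      rw [List.ofFn_succ] at h
      exact Finset.ne_of_mem_erase hi (List.cons.inj h).1))
    simpa using this
  · rw [mul_smul_comm, smul_mul_assoc]
    apply zsmul_mem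
    refine subset_span ⟨u, some i, i :: v, ?_, by
      have : b (i :: v) = b [i] * b v := hb [_] v
      rw [this]; noncomm_ring⟩
    have := prec_comp n (LM n (some i) ++ [i]) _ u v (prec_of_perm n _ hpw _
      (List.perm_append_singleton _ _ |>.trans (hp i)) (by
      intro h
      rw [← full_eq] at h
      have h2 := List.append_inj_right' h rfl
      exact Finset.ne_of_mem_erase hi (List.cons.inj h2).1))
    simpa using this
  · rw [mul_smul_comm, smul_mul_assoc]
    apply smul_mem
    refine subset_span ⟨u, none, v, ?_, rfl⟩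
    apply prec_comp
    apply prec_of_length
    simp [LM]
    omega

end alg

theorem exists_algebra (F : Type u) [Field F] (n : ℕ) (hn3 : 3 ≤ n) (hn : Odd n) (c : F) :
    ∃ (A : Type u) (_ : Ring A) (_ : Algebra F A) (y : Fin (n + 1) → A), LinearIndependent F y ∧
      ∀ i : Fin (n + 1), ∑ σ : Perm (Fin n), ((Perm.sign σ : ℤˣ) : ℤ) •
        (List.ofFn fun k => y (i.succAbove (σ k))).prod =
          (c * (-1) ^ (i : ℕ)) • y (swap 0 (Fin.last n) i) := by
  obtain ⟨T, _, _, b, hb, hb1⟩ := Dia.exists_free F (Fin (n + 1))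
  obtain ⟨A, _, _, φ, h1, h2⟩ := Dia.quotient b hb hb1 (rel b c)
  refine ⟨A, inferInstance, inferInstance, fun i => φ (b [i]), ?_, fun i => ?_⟩
  · rw [Fintype.linearIndependent_iff]
    intro a ha
    have h3 : φ (∑ i, a i • b [i]) = 0 := by simpa using ha
    have h4 := Dia.words b hb (prec n) (val n) (prec_comp n) (LM n) (rel b c) (tail b c hn3) (by
      intro a a' u v u' v' he h1 h2
      rcases classify hn3 a a' u v u' v' he h1 h2 with ⟨rfl, rfl, rfl⟩ | ⟨rfl, rfl, rfl, rfl⟩
      · simp
      · exact overlap b hb hn hn3 c u v') _ (h2 _ h3) (by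
      intro u g v
      have hl : 2 ≤ (LM n g).length := by
        cases g with
        | none => simp [LM]
        | some i => simp [LM]; omega
      simp only [map_sum, map_smul, Basis.repr_self, Finsupp.coe_finsetSum, Finset.sum_apply,
        Finsupp.smul_apply, Finsupp.single_apply]
      apply Finset.sum_eq_zero
      intro i _
      rw [if_neg]
      · simp
      · intro h
        have := congrArg List.length h
        simp at this
        omega)
    intro i
    have h5 := congrArg (fun x => b.repr x [i]) h4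
    simpa [Finsupp.single_apply] using h5
  · have h3 := h1 (some i)
    have h4 : ∀ l : List (Fin (n + 1)), φ (b l) = (l.map fun a => φ (b [a])).prod := by
      intro l
      induction l with
      | nil => simp [hb1]
      | cons a l ih =>
        have : b (a :: l) = b [a] * b l := hb [_] l
        rw [this, map_mul, ih]
        simp
    simp only [rel, rho, map_sub, map_sum, map_zsmul, map_smul] at h3
    rw [sub_eq_zero] at h3
    rw [← h3]
    apply Finset.sum_congr rfl
    intro σ _
    rw [h4, List.map_ofFn]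
    rfl

end Pool.Agent.H2Z.Poz
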