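import Mathlib
import Pool.Agent.H2Z.PozB

set_option autoImplicit false

namespace Pool.Agent.H2Z.Poz

open Submodule Module Equiv

universe u v

/-- the bracket of the simple `n`-Lie algebra -/
noncomputable def br (F : Type u) [Field F] (n : ℕ) :
    (Fin (n + 1) → F) [⋀^Fin n]→ₗ[F] (Fin (n + 1) → F) :=
  AlternatingMap.pi fun i : Fin (n + 1) => ((-1 : F) ^ (n + i)) •
    (Matrix.detRowAlternating.compLinearMap (LinearMap.funLeft F F i.succAbove))

theorem br_apply (F : Type u) [Field F] (n : ℕ) (v : Fin n → Fin (n + 1) → F) (i : Fin (n + 1)) :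
    br F n v i = (-1 : F) ^ (n + i) * Matrix.det (Matrix.of fun k l => v k (i.succAbove l)) := rfl

theorem br_dot (F : Type u) [Field F] (n : ℕ) (v : Fin n → Fin (n + 1) → F) (w : Fin (n + 1) → F) :
    br F n v ⬝ᵥ w = (-1 : F) ^ n * Matrix.det (Matrix.of (Fin.cons w v : Fin (n + 1) → _)) := by
  rw [Matrix.det_succ_row_zero, Finset.mul_sum, dotProduct]
  apply Finset.sum_congr rfl
  intro i _
  rw [br_apply, pow_add]
  have : (Matrix.of (Fin.cons w v : Fin (n + 1) → _)).submatrix Fin.succ i.succAbove =
      Matrix.of fun k l => v k (i.succAbove l) := by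
    ext k l
    simp
  rw [this]
  simp only [Matrix.of_apply, Fin.cons_zero]
  ring

theorem det_cons (F : Type u) [Field F] (n : ℕ) (h : Fin (n + 1) → Fin (n + 1) → F)
    (i j : Fin (n + 1)) :
    Matrix.det (Matrix.of (Fin.cons (h j) (fun k => h (i.succAbove k)) : Fin (n + 1) → _)) =
      if j = i then (-1) ^ (i : ℕ) * Matrix.det (Matrix.of h) else 0 := by
  split_ifs with hji
  · subst hji
    have e : Matrix.of (Fin.cons (h j) (fun k => h (j.succAbove k)) : Fin (n + 1) → _) =
        (Matrix.of h).submatrix (ext n (j, 1)) id := by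
      ext k l
      refine Fin.cases ?_ (fun k => ?_) k
      · simp [ext_zero]
      · simp [ext_succ]
    rw [e, Matrix.det_permute, ext_sign]
    simp
  · obtain ⟨k, hk⟩ := Fin.exists_succAbove_eq hji
    apply Matrix.det_zero_of_row_eq (i := 0) (j := k.succ) (Fin.succ_ne_zero k).symm
    ext l
    simp [hk]

theorem br_basis (F : Type u) [Field F] (n : ℕ) (h : Fin (n + 1) → Fin (n + 1) → F)
    (π : Perm (Fin (n + 1))) (hh : ∀ i j, h (π i) ⬝ᵥ h j = if j = i then 1 else 0) :
    ∃ bs : Basis (Fin (n + 1)) F (Fin (n + 1) → F), ⇑bs = h ∧ ∀ i : Fin (n + 1),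
      br F n (fun k => h (i.succAbove k)) =
        (((-1) ^ n * Matrix.det (Matrix.of h)) * (-1) ^ (i : ℕ)) • h (π i) := by
  have hli : LinearIndependent F h := by
    rw [Fintype.linearIndependent_iff]
    intro a ha i
    have := congrArg (fun x => h (π i) ⬝ᵥ x) ha
    simpa [dotProduct_sum, hh] using this
  let bs := basisOfLinearIndependentOfCardEqFinrank hli (by simp)
  have hbs : ⇑bs = h := coe_basisOfLinearIndependentOfCardEqFinrank _ _
  refine ⟨bs, hbs, fun i => ?_⟩
  have hnd : ∀ x : Fin (n + 1) → F, (∀ j, x ⬝ᵥ h j = 0) → x = 0 := by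
    intro x hx
    have h1 : ∀ w, x ⬝ᵥ w = 0 := by
      intro w
      rw [← bs.sum_repr w, dotProduct_sum]
      apply Finset.sum_eq_zero
      intro j _
      rw [dotProduct_smul, hbs, hx, smul_zero]
    ext k
    simpa using h1 (Pi.single k 1)
  rw [← sub_eq_zero]
  apply hnd
  intro j
  rw [sub_dotProduct, br_dot, det_cons, smul_dotProduct, hh]
  split_ifs
  · simp only [smul_eq_mul]
    ring
  · simp

theorem br_single (F : Type u) [Field F] (n : ℕ) (i : Fin (n + 1)) :
    br F n (fun k => Pi.single (i.succAbove k) 1) =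
      (-1 : F) ^ (n + ((i : ℕ) + 1) + 1) • (Pi.single i 1 : Fin (n + 1) → F) := by
  obtain ⟨_, -, h⟩ := br_basis F n (fun i => Pi.single i 1) 1 (by
    intro i j
    simp [Pi.single_apply, eq_comm])
  rw [h i]
  have : Matrix.of (fun i : Fin (n + 1) => (Pi.single i 1 : Fin (n + 1) → F)) = 1 := by
    ext a c
    simp [Matrix.one_apply, Pi.single_apply, eq_comm]
  rw [this, Matrix.det_one]
  congr 1
  ring

theorem exists_hyp (F : Type u) [Field F] [IsAlgClosed F] [CharZero F] (n : ℕ) (hn : 1 ≤ n) :
    ∃ h : Fin (n + 1) → Fin (n + 1) → F, ∀ i j,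
      h (swap 0 (Fin.last n) i) ⬝ᵥ h j = if j = i then 1 else 0 := by
  obtain ⟨I, hI⟩ := IsAlgClosed.exists_pow_nat_eq (-1 : F) (n := 2) (by norm_num)
  have h0 : (0 : Fin (n + 1)) ≠ Fin.last n := by
    intro h
    have := congrArg Fin.val h
    simp at this
    omega
  refine ⟨fun i => if i = 0 then Pi.single 0 1 + I • Pi.single (Fin.last n) 1
    else if i = Fin.last n then (1 / 2 : F) • (Pi.single 0 1 - I • Pi.single (Fin.last n) 1)
    else Pi.single i 1, fun i j => ?_⟩
  have hI2 : I * I = -1 := by rw [← hI]; ring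
  by_cases hi0 : i = 0
  · subst hi0
    by_cases hj0 : j = 0
    · subst hj0
      simp [h0, h0.symm]
      linear_combination (-1 / 2 : F) * hI2
    · by_cases hjl : j = Fin.last n
      · subst hjl
        simp [h0, h0.symm]
        linear_combination (1 / 2 : F) * hI2
      · simp [h0.symm, hj0, hjl]
  · by_cases hil : i = Fin.last n
    · subst hil
      by_cases hj0 : j = 0
      · subst hj0
        simp [h0, h0.symm, hI2]
      · by_cases hjl : j = Fin.last n
        · subst hjl
          simp [h0, h0.symm, hI2]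
          norm_num
        · simp [hj0, hjl]
    · rw [swap_apply_of_ne_of_ne hi0 hil]
      by_cases hj0 : j = 0
      · subst hj0
        simp [hi0, hil, Ne.symm hi0]
      · by_cases hjl : j = Fin.last n
        · subst hjl
          simp [hi0, hil, h0.symm, Ne.symm hil]
        · simp [hi0, hil, hj0, hjl, Pi.single_apply, eq_comm]

theorem main (F : Type u) [Field F] [IsAlgClosed F] [CharZero F] (n : ℕ) (hn3 : 3 ≤ n)
    (hn : Odd n) :
    ∃ (A : Type u) (_ : Ring A) (_ : Algebra F A) (j : (Fin (n + 1) → F) →ₗ[F] A),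
      Function.Injective j ∧ ∀ v : Fin n → Fin (n + 1) → F, j (br F n v) =
        ∑ σ : Perm (Fin n), ((Perm.sign σ : ℤˣ) : ℤ) • (List.ofFn fun k => j (v (σ k))).prod := by
  obtain ⟨h, hh⟩ := exists_hyp F n (by omega)
  obtain ⟨bs, hbs, hbr⟩ := br_basis F n h _ hh
  obtain ⟨A, _, _, y, hy, hrel⟩ := exists_algebra F n hn3 hn ((-1) ^ n * Matrix.det (Matrix.of h))
  let j : (Fin (n + 1) → F) →ₗ[F] A := bs.constr F y
  have hj : ∀ i, j (h i) = y i := fun i => by rw [← hbs]; exact bs.constr_basis F y i
  refine ⟨A, inferInstance, inferInstance, j, bs.injective_constr_of_linearIndependent hy, ?_⟩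
  let alt : A [⋀^Fin n]→ₗ[F] A :=
    MultilinearMap.alternatization (MultilinearMap.mkPiAlgebraFin F n A)
  have halt : ∀ z : Fin n → A, alt z =
      ∑ σ : Perm (Fin n), ((Perm.sign σ : ℤˣ) : ℤ) • (List.ofFn fun k => z (σ k)).prod := by
    intro z
    simp only [alt, MultilinearMap.alternatization_apply]
    rfl
  have key : j.compAlternatingMap (br F n) = alt.compLinearMap j := by
    apply bs.ext_alternating
    intro v hv
    obtain ⟨i, hi⟩ : ∃ i, ∀ k, v k ≠ i := by
      by_contra hcon
      push Not at hcon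
      have := Fintype.card_le_of_surjective v hcon
      simp at this
    choose s hs using fun k => Fin.exists_succAbove_eq (hi k)
    have hsi : Function.Injective s := fun a c hac => hv (by rw [← hs a, ← hs c, hac])
    let σ : Perm (Fin n) := Equiv.ofBijective s (Finite.injective_iff_bijective.1 hsi)
    have e : (fun k => bs (v k)) = (fun k => h (i.succAbove k)) ∘ σ := by
      funext k
      rw [hbs, ← hs k]
      rfl
    rw [e, AlternatingMap.map_perm, AlternatingMap.map_perm]
    congr 1
    simp only [LinearMap.compAlternatingMap_apply, AlternatingMap.compLinearMap_apply, hbr, halt,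
      map_smul, hj]
    exact (hrel i).symm
  intro v
  have := DFunLike.congr_fun key v
  simpa only [LinearMap.compAlternatingMap_apply, AlternatingMap.compLinearMap_apply, halt]
    using this

end Pool.Agent.H2Z.Poz
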