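import Mathlib

set_option autoImplicit false

namespace Pool.Agent.H2Z.RE

open Finset

/-- prefixes followed by the letter `c` are at most as many as the occurrences of `c` -/
theorem pref_card {β : Type} [DecidableEq β] [BEq β] [LawfulBEq β] (c : β) (l : List β) (P : Finset (List β))
    (h : ∀ s ∈ P, s ++ [c] <+: l) : P.card ≤ l.count c := by
  have key : ∀ s t : List β, s ++ [c] <+: t → s.count c < t.count c := by
    intro s t hst
    have := hst.sublist.count_le c
    simp at this
    omega
  rw [← Finset.card_range (l.count c)]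
  apply Finset.card_le_card_of_injOn (fun s => s.count c)
  · intro s hs
    simp only [Finset.coe_range, Set.mem_Iio]
    exact key s l (h s hs)
  · intro s hs t ht hst
    have hs' := h s hs
    have ht' := h t ht
    have hs1 : s <+: l := (List.prefix_append s [c]).trans hs'
    have ht1 : t <+: l := (List.prefix_append t [c]).trans ht'
    simp only at hst
    rcases lt_trichotomy s.length t.length with hl | hl | hl
    · have : s ++ [c] <+: t := List.prefix_of_prefix_length_le hs' ht1 (by simp; omega)
      have := key s t this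
      omega
    · exact (List.prefix_of_prefix_length_le hs1 ht1 hl.le).eq_of_length hl
    · have : t ++ [c] <+: s := List.prefix_of_prefix_length_le ht' hs1 (by simp; omega)
      have := key t s this
      omega

theorem good_card {β : Type} [DecidableEq β] [BEq β] [LawfulBEq β] (c : β) (S : Finset (List β)) (R : ℕ)
    (h : ∀ s ∈ S, s.count c ≤ R) :
    S.card ≤ (R + 1) * (S.filter (fun s => ¬ ∃ t ∈ S, s ++ [c] <+: t)).card := by
  classical
  set G := S.filter (fun s => ¬ ∃ t ∈ S, s ++ [c] <+: t) with hG
  set T := S.filter (fun s => ∃ t ∈ S, s ++ [c] <+: t) with hT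
  have h1 : T.card + G.card = S.card := Finset.card_filter_add_card_filter_not _
  have h2 : T ⊆ G.biUnion (fun l => S.filter (fun s => s ++ [c] <+: l)) := by
    intro s hs
    rw [hT, Finset.mem_filter] at hs
    obtain ⟨hsS, t, ht, hst⟩ := hs
    obtain ⟨m, hm, hmax⟩ := Finset.exists_max_image (S.filter (fun t => s ++ [c] <+: t))
      List.length ⟨t, Finset.mem_filter.2 ⟨ht, hst⟩⟩
    rw [Finset.mem_filter] at hm
    rw [Finset.mem_biUnion]
    refine ⟨m, ?_, Finset.mem_filter.2 ⟨hsS, hm.2⟩⟩
    rw [hG, Finset.mem_filter]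
    refine ⟨hm.1, ?_⟩
    rintro ⟨u, hu, hmu⟩
    have h3 : s ++ [c] <+: u := hm.2.trans ((List.prefix_append m [c]).trans hmu)
    have h4 := hmax u (Finset.mem_filter.2 ⟨hu, h3⟩)
    have h5 := hmu.length_le
    simp at h5
    omega
  have h3 : T.card ≤ G.card * R := by
    refine (Finset.card_le_card h2).trans ?_
    apply Finset.card_biUnion_le_card_mul
    intro l hl
    refine (pref_card c l _ (fun s hs => (Finset.mem_filter.1 hs).2)).trans ?_
    exact h l (Finset.mem_filter.1 hl).1
  nlinarith

theorem monoid_count {β : Type} [DecidableEq β] [BEq β] [LawfulBEq β] (S X : Finset (List β)) (R : ℕ)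
    (h : ∀ s ∈ S, ∀ c, s.count c ≤ R) :
    S.card * X.card ≤ (R + 1) * (Finset.image₂ (· ++ ·) S X).card := by
  classical
  let good : List β → List β → Prop := fun s x => ¬ ∃ c y, x = c :: y ∧ ∃ t ∈ S, s ++ [c] <+: t
  let M : Finset (Σ _ : List β, List β) := X.sigma (fun x => S.filter (fun s => good s x))
  have h1 : M.card ≤ (Finset.image₂ (· ++ ·) S X).card := by
    apply Finset.card_le_card_of_injOn (fun p => p.2 ++ p.1)
    · intro p hp
      simp only [M, Finset.mem_coe, Finset.mem_sigma, Finset.mem_filter] at hp
      exact Finset.mem_coe.2 (Finset.mem_image₂_of_mem hp.2.1 hp.1)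
    · have aux : ∀ s x t y : List β, t ∈ S → good s x → s ++ x = t ++ y → ¬ s.length < t.length := by
        intro s x t y ht hg he hl
        apply hg
        have hst : s <+: t := List.prefix_of_prefix_length_le (List.prefix_append s x)
          (he ▸ List.prefix_append t y) hl.le
        obtain ⟨p, rfl⟩ := hst
        cases p with
        | nil => simp at hl
        | cons c p =>
          rw [List.append_assoc, List.append_cancel_left_eq] at he
          exact ⟨c, p ++ y, by simpa using he, _, ht, ⟨p, by simp⟩⟩
      rintro ⟨x, s⟩ hp ⟨y, t⟩ hq he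
      simp only [M, Finset.mem_coe, Finset.mem_sigma, Finset.mem_filter] at hp hq
      simp only at he
      have e1 := aux s x t y hq.2.1 hp.2.2 he
      have e2 := aux t y s x hp.2.1 hq.2.2 he.symm
      have e3 : s.length = t.length := by omega
      obtain ⟨rfl, rfl⟩ := List.append_inj he e3
      rfl
  have h2 : ∀ x ∈ X, S.card ≤ (R + 1) * (S.filter (fun s => good s x)).card := by
    intro x _
    cases x with
    | nil =>
      have : S.filter (fun s => good s []) = S := by
        apply Finset.filter_true_of_mem
        intro s _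
        rintro ⟨c, y, h, -⟩
        simp at h
      rw [this]
      nlinarith
    | cons c y =>
      refine (good_card c S R (fun s hs => h s hs c)).trans (le_of_eq ?_)
      congr 2
      apply Finset.filter_congr
      intro s _
      simp only [good]
      apply not_congr
      constructor
      · intro h
        exact ⟨c, y, rfl, h⟩
      · rintro ⟨c', y', h1, h2⟩
        obtain ⟨rfl, rfl⟩ := List.cons.inj h1
        exact h2
  have h3 : M.card = ∑ x ∈ X, (S.filter (fun s => good s x)).card := Finset.card_sigma _ _
  calc S.card * X.card = ∑ _x ∈ X, S.card := by simp [mul_comm]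
    _ ≤ ∑ x ∈ X, (R + 1) * (S.filter (fun s => good s x)).card := Finset.sum_le_sum h2
    _ = (R + 1) * M.card := by rw [h3, Finset.mul_sum]
    _ ≤ _ := Nat.mul_le_mul_left _ h1

theorem partition {A B : Type} (S : Finset A) (X : Finset B) (f : A → ℕ) (g : B → ℕ)
    (h : ∀ k, 2 * (S.filter (fun s => f s = k)).card ≤ S.card) :
    ∃ S' ⊆ S, ∃ X' ⊆ X, S.card ≤ 4 * S'.card ∧ X.card ≤ 2 * X'.card ∧
      ∀ s ∈ S', ∀ x ∈ X', f s ≠ g x := by
  classical
  have hex : ∃ t, S.card ≤ 4 * (S.filter (fun s => f s < t)).card := by
    refine ⟨S.sup f + 1, ?_⟩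
    rw [Finset.filter_true_of_mem]
    · omega
    · intro s hs
      exact Nat.lt_succ_of_le (Finset.le_sup (f := f) hs)
  let t := Nat.find hex
  have ht : S.card ≤ 4 * (S.filter (fun s => f s < t)).card := Nat.find_spec hex
  have ht2 : S.card ≤ 4 * (S.filter (fun s => ¬ f s < t)).card := by
    have e := Finset.card_filter_add_card_filter_not (s := S) (fun s => f s < t)
    rcases Nat.eq_zero_or_pos t with h0 | h0
    · have : (S.filter (fun s => f s < t)).card = 0 := by
        rw [h0]; simp
      omega
    · have hm := Nat.find_min hex (m := t - 1) (by omega)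
      have hsub : S.filter (fun s => f s < t) ⊆
          S.filter (fun s => f s < t - 1) ∪ S.filter (fun s => f s = t - 1) := by
        intro s hs
        simp only [Finset.mem_filter, Finset.mem_union] at hs ⊢
        by_cases hh : f s = t - 1
        · exact Or.inr ⟨hs.1, hh⟩
        · exact Or.inl ⟨hs.1, by omega⟩
      have h1 := (Finset.card_le_card hsub).trans (Finset.card_union_le _ _)
      have h2 := h (t - 1)
      omega
  have e := Finset.card_filter_add_card_filter_not (s := X) (fun x => g x < t)
  by_cases hc : X.card ≤ 2 * (X.filter (fun x => g x < t)).card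
  · refine ⟨_, Finset.filter_subset _ _, _, Finset.filter_subset _ _, ht2, hc, ?_⟩
    intro s hs x hx he
    rw [Finset.mem_filter] at hs hx
    exact hs.2 (he ▸ hx.2)
  · refine ⟨_, Finset.filter_subset _ _, X.filter (fun x => ¬ g x < t), Finset.filter_subset _ _,
      ht, by omega, ?_⟩
    intro s hs x hx he
    rw [Finset.mem_filter] at hs hx
    exact hx.2 (he ▸ hs.2)

open FreeGroup

/-- last letter of the reduced word -/
def lab (g : FreeGroup ℕ) : Option (ℕ × Bool) := g.toWord.getLast?

theorem no_cancel (s t : FreeGroup ℕ) (h : lab s ≠ lab t) :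
    (s * t⁻¹).toWord = s.toWord ++ t⁻¹.toWord := by
  rw [toWord_mul]
  apply IsReduced.reduce_eq
  unfold FreeGroup.IsReduced
  rw [List.isChain_append]
  refine ⟨isReduced_toWord, isReduced_toWord, ?_⟩
  intro x hx y hy hxy
  by_contra hne
  apply h
  rw [toWord_inv] at hy
  simp only [invRev, List.head?_reverse, List.getLast?_map, Option.mem_def,
    Option.map_eq_some_iff] at hy
  obtain ⟨z, hz, rfl⟩ := hy
  unfold lab
  rw [hz, Option.mem_def.1 hx]
  congr 1
  obtain ⟨a, b⟩ := x
  obtain ⟨a', b'⟩ := z
  simp only at hxy hne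
  subst hxy
  cases b <;> cases b' <;> simp_all

theorem norm_drop (g : FreeGroup ℕ) (c : ℕ × Bool) (h : lab g = some c) :
    norm (g * (mk [c])⁻¹) + 1 ≤ norm g := by
  unfold lab at h
  obtain ⟨l, hl⟩ : ∃ l, g.toWord = l ++ [c] := by
    rw [List.getLast?_eq_some_iff] at h
    exact h
  have h1 : g = mk l * mk [c] := by
    rw [mul_mk, ← hl, mk_toWord]
  have h2 : g * (mk [c])⁻¹ = mk l := by
    rw [h1]; group
  rw [h2]
  have h3 := norm_mk_le (L₁ := l)
  have h4 : norm g = l.length + 1 := by
    unfold FreeGroup.norm
    rw [hl]; simp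
  omega

theorem median (S : Finset (FreeGroup ℕ)) :
    ∃ v : FreeGroup ℕ, ∀ c, 2 * (S.filter (fun s => lab (s * v) = some c)).card ≤ S.card := by
  classical
  let Φ : FreeGroup ℕ → ℕ := fun v => ∑ s ∈ S, norm (s * v)
  obtain ⟨v, hv⟩ : ∃ v, ∀ u, Φ v ≤ Φ u :=
    ⟨Function.argmin Φ, fun u => Function.argmin_le Φ u⟩
  refine ⟨v, fun c => ?_⟩
  have h1 := hv (v * (mk [c])⁻¹)
  have h2 : ∀ s ∈ S, norm (s * (v * (mk [c])⁻¹)) + (if lab (s * v) = some c then 2 else 0)
      ≤ norm (s * v) + 1 := by
    intro s _
    rw [← mul_assoc]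
    split_ifs with hc
    · have := norm_drop _ _ hc
      omega
    · have h3 := norm_mul_le (s * v) (mk [c])⁻¹
      have h4 : norm (mk [c])⁻¹ ≤ 1 := by
        rw [norm_inv_eq]
        exact norm_mk_le
      omega
  have h3 := Finset.sum_le_sum h2
  rw [Finset.sum_add_distrib, Finset.sum_add_distrib, ← Finset.sum_filter] at h3
  simp only [Finset.sum_const, smul_eq_mul, mul_one] at h3
  simp only [Φ] at h1
  omega

/-- number of occurrences of the generator `i` (or its inverse) in the reduced word -/
def cnt (i : ℕ) (g : FreeGroup ℕ) : ℕ := (g.toWord.map Prod.fst).count i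

theorem cnt_mul (i : ℕ) (g h : FreeGroup ℕ) : cnt i (g * h) ≤ cnt i g + cnt i h := by
  unfold cnt
  have := ((toWord_mul_sublist g h).map Prod.fst).count_le i
  simpa using this

theorem cnt_inv (i : ℕ) (g : FreeGroup ℕ) : cnt i g⁻¹ = cnt i g := by
  unfold cnt
  rw [toWord_inv]
  simp [invRev, Function.comp_def, List.count_reverse]

theorem count_le_cnt (c : ℕ × Bool) (l : List (ℕ × Bool)) :
    l.count c ≤ (l.map Prod.fst).count c.1 := List.count_le_count_map

open scoped Pointwise in
theorem expansion (S X : Finset (FreeGroup ℕ)) (R : ℕ) (h : ∀ s ∈ S, ∀ i, cnt i s ≤ R) :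
    S.card * X.card ≤ 8 * (2 * R + 1) * (S * X).card := by
  classical
  by_cases hS : S.card ≤ 1
  · rcases S.eq_empty_or_nonempty with rfl | hne
    · simp
    · have h1 : X.card ≤ (S * X).card := Finset.card_le_card_mul_left hne
      have h2 : S.card * X.card ≤ 1 * X.card := Nat.mul_le_mul_right _ hS
      nlinarith
  push Not at hS
  obtain ⟨v, hv⟩ := median S
  have hv' : ∀ o, 2 * (S.filter (fun s => lab (s * v) = o)).card ≤ S.card := by
    intro o
    cases o with
    | some c => exact hv c
    | none =>
      have : (S.filter (fun s => lab (s * v) = none)).card ≤ 1 := by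
        rw [Finset.card_le_one]
        intro a ha b hb
        rw [Finset.mem_filter] at ha hb
        have ha' : a * v = 1 := by
          have := ha.2
          unfold lab at this
          rwa [List.getLast?_eq_none_iff, toWord_eq_nil_iff] at this
        have hb' : b * v = 1 := by
          have := hb.2
          unfold lab at this
          rwa [List.getLast?_eq_none_iff, toWord_eq_nil_iff] at this
        exact mul_right_cancel (ha'.trans hb'.symm)
      omega
  have hmult : ∀ s ∈ S, ∀ c, (s * v).toWord.count c ≤ 2 * R := by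
    intro s hs c
    obtain ⟨t, ht, hne⟩ : ∃ t ∈ S, lab (s * v) ≠ lab (t * v) := by
      by_contra hcon
      push Not at hcon
      have h1 := hv' (lab (s * v))
      rw [Finset.filter_true_of_mem (fun t ht => (hcon t ht).symm)] at h1
      omega
    have h1 := no_cancel _ _ hne
    have h2 : s * v * (t * v)⁻¹ = s * t⁻¹ := by group
    rw [h2] at h1
    have h3 := cnt_mul c.1 s t⁻¹
    rw [cnt_inv] at h3
    have h4 := h s hs c.1
    have h5 := h t ht c.1
    have h6 := count_le_cnt c (s * t⁻¹).toWord
    have h7 : (s * v).toWord.count c ≤ (s * t⁻¹).toWord.count c := by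
      rw [h1]; simp
    unfold cnt at h3 h4 h5
    omega
  obtain ⟨S', hS', X', hX', h1, h2, h3⟩ := partition S X
    (fun s => Encodable.encode (lab (s * v))) (fun x => Encodable.encode (lab (x⁻¹ * v))) (by
      intro k
      by_cases hk : ∃ o : Option (ℕ × Bool), Encodable.encode o = k
      · obtain ⟨o, rfl⟩ := hk
        simpa only [Encodable.encode_inj] using hv' o
      · rw [Finset.filter_false_of_mem (fun s _ hs => hk ⟨_, hs⟩)]
        simp)
  have h4 := monoid_count (S'.image (fun s => (s * v).toWord))
    (X'.image (fun x => (x⁻¹ * v)⁻¹.toWord)) (2 * R) (by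
      intro l hl c
      obtain ⟨s, hs, rfl⟩ := Finset.mem_image.1 hl
      exact hmult s (hS' hs) c)
  rw [Finset.card_image_of_injective, Finset.card_image_of_injective] at h4
  · have h5 : (Finset.image₂ (· ++ ·) (S'.image (fun s => (s * v).toWord))
        (X'.image (fun x => (x⁻¹ * v)⁻¹.toWord))).card ≤ (S * X).card := by
      refine le_trans (Finset.card_le_card ?_) (Finset.card_image_le (s := S * X) (f := toWord))
      intro l hl
      obtain ⟨a, ha, b, hb, rfl⟩ := Finset.mem_image₂.1 hl
      obtain ⟨s, hs, rfl⟩ := Finset.mem_image.1 ha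
      obtain ⟨x, hx, rfl⟩ := Finset.mem_image.1 hb
      have h6 := no_cancel (s * v) (x⁻¹ * v) (fun he => h3 s hs x hx (by rw [he]))
      have h7 : s * v * (x⁻¹ * v)⁻¹ = s * x := by group
      rw [h7] at h6
      exact Finset.mem_image.2 ⟨s * x, Finset.mul_mem_mul (hS' hs) (hX' hx), h6⟩
    calc S.card * X.card ≤ (4 * S'.card) * (2 * X'.card) := Nat.mul_le_mul h1 h2
      _ = 8 * (S'.card * X'.card) := by ring
      _ ≤ 8 * ((2 * R + 1) * (S * X).card) :=
          Nat.mul_le_mul_left _ (h4.trans (Nat.mul_le_mul_left _ h5))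
      _ = _ := by ring
  · intro a b hab
    have := toWord_injective hab
    simpa using this
  · intro a b hab
    have := toWord_injective hab
    simpa using this

end Pool.Agent.H2Z.RE
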