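import Mathlib
import Pool.Agent.H2Z.REa

set_option autoImplicit false

namespace Pool.Agent.H2Z.RE

open Finset FreeGroup
open scoped Pointwise

/-- weight of a generator -/
def wt (i : ℕ) : ℕ := Nat.log 2 i + 1

/-- the length function -/
def len (g : FreeGroup ℕ) : ℕ := (g.toWord.map Prod.fst).toFinset.sup (fun i => wt i * cnt i g)

theorem len_le_iff (g : FreeGroup ℕ) (N : ℕ) : len g ≤ N ↔ ∀ i, wt i * cnt i g ≤ N := by
  unfold len
  rw [Finset.sup_le_iff]
  constructor
  · intro h i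
    by_cases hi : i ∈ (g.toWord.map Prod.fst).toFinset
    · exact h i hi
    · rw [List.mem_toFinset] at hi
      have : cnt i g = 0 := List.count_eq_zero.2 hi
      simp [this]
  · intro h i _
    exact h i

theorem le_len (g : FreeGroup ℕ) (i : ℕ) : wt i * cnt i g ≤ len g := (len_le_iff g _).1 le_rfl i

theorem len_one : len 1 = 0 := by simp [len]

theorem len_inv (g : FreeGroup ℕ) : len g⁻¹ = len g := by
  apply le_antisymm
  · rw [len_le_iff]; intro i; rw [cnt_inv]; exact le_len g i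
  · rw [len_le_iff]; intro i; rw [← cnt_inv]; exact le_len g⁻¹ i

theorem len_mul (g h : FreeGroup ℕ) : len (g * h) ≤ len g + len h := by
  rw [len_le_iff]
  intro i
  have h1 := Nat.mul_le_mul_left (wt i) (cnt_mul i g h)
  have h2 := le_len g i
  have h3 := le_len h i
  rw [mul_add] at h1
  omega

theorem cnt_le_len (g : FreeGroup ℕ) (i : ℕ) : cnt i g ≤ len g := by
  have h1 := le_len g i
  have h2 : 1 ≤ wt i := by unfold wt; omega
  nlinarith

theorem len_finite (N : ℕ) : {g : FreeGroup ℕ | len g ≤ N}.Finite := by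
  have key : ∀ g : FreeGroup ℕ, len g ≤ N → ∀ c ∈ g.toWord, c.1 < 2 ^ N := by
    intro g hg c hc
    have h1 := (le_len g c.1).trans hg
    have h2 : 1 ≤ cnt c.1 g := List.count_pos_iff.2 (List.mem_map_of_mem hc)
    have h3 : wt c.1 ≤ N := by nlinarith
    unfold wt at h3
    exact (Nat.lt_pow_succ_log_self (by norm_num) c.1).trans_le
      (Nat.pow_le_pow_right (by norm_num) h3)
  have key2 : ∀ g : FreeGroup ℕ, len g ≤ N → g.toWord.length ≤ 2 ^ N * N := by
    intro g hg
    have h1 : (g.toWord.map Prod.fst).length = ∑ i ∈ (g.toWord.map Prod.fst).toFinset, cnt i g := by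
      unfold cnt
      rw [List.sum_toFinset_count_eq_length]
    rw [List.length_map] at h1
    rw [h1]
    have h2 : (g.toWord.map Prod.fst).toFinset ⊆ Finset.range (2 ^ N) := by
      intro i hi
      rw [List.mem_toFinset, List.mem_map] at hi
      obtain ⟨c, hc, rfl⟩ := hi
      exact Finset.mem_range.2 (key g hg c hc)
    calc _ ≤ ∑ i ∈ Finset.range (2 ^ N), cnt i g := Finset.sum_le_sum_of_subset h2
      _ ≤ ∑ _i ∈ Finset.range (2 ^ N), N :=
          Finset.sum_le_sum (fun i _ => (cnt_le_len g i).trans hg)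
      _ = _ := by simp
  have hfin := List.finite_length_le (Fin (2 ^ N) × Bool) (2 ^ N * N)
  refine (hfin.image (fun l => mk (l.map (fun c => ((c.1 : ℕ), c.2))))).subset ?_
  intro g hg
  refine ⟨g.toWord.pmap (fun c (h : c.1 < 2 ^ N) => ((⟨c.1, h⟩ : Fin (2 ^ N)), c.2)) (key g hg),
    ?_, ?_⟩
  · simpa using key2 g hg
  · simp only [List.map_pmap]
    conv_rhs => rw [← mk_toWord (x := g)]
    congr 1
    simp

/-- positive words -/
def emb (w : List ℕ) : FreeGroup ℕ := mk (w.map (fun a => (a, true)))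

theorem toWord_emb (w : List ℕ) : (emb w).toWord = w.map (fun a => (a, true)) := by
  unfold emb
  rw [toWord_mk]
  apply IsReduced.reduce_eq
  unfold FreeGroup.IsReduced
  rw [List.isChain_map]
  exact List.Pairwise.isChain (List.pairwise_of_forall (by simp))

theorem norm_emb (w : List ℕ) : norm (emb w) = w.length := by
  unfold FreeGroup.norm
  rw [toWord_emb]; simp

theorem emb_inj : Function.Injective emb := by
  intro a b h
  have := congrArg toWord h
  rw [toWord_emb, toWord_emb] at this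
  exact List.map_injective_iff.2 (fun x y hxy => (Prod.mk.inj hxy).1) this

theorem emb_append (a b : List ℕ) : emb (a ++ b) = emb a * emb b := by
  simp [emb, mul_mk]

theorem len_emb (w : List ℕ) (k : ℕ) (h1 : w.Nodup) (h2 : ∀ a ∈ w, a < 2 ^ (k + 1)) :
    len (emb w) ≤ k + 1 := by
  rw [len_le_iff]
  intro i
  have h3 : cnt i (emb w) = w.count i := by
    unfold cnt
    rw [toWord_emb]
    simp [Function.comp_def]
  rw [h3]
  by_cases hi : i ∈ w
  · have h4 : w.count i ≤ 1 := List.nodup_iff_count_le_one.1 h1 i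
    have h5 : wt i ≤ k + 1 := by
      unfold wt
      rcases Nat.eq_zero_or_pos i with rfl | h0
      · simp
      · have := (Nat.log_lt_iff_lt_pow (b := 2) (by norm_num) h0.ne').2 (h2 i hi)
        omega
    nlinarith
  · rw [List.count_eq_zero.2 hi]
    simp

/-- words of length `n` with distinct letters below `N` -/
noncomputable def Wd (N n : ℕ) : Finset (List ℕ) :=
  (Finset.univ : Finset (Fin n ↪ Fin N)).image (fun e => List.ofFn (fun i => (e i : ℕ)))

theorem Wd_card (N n : ℕ) : (Wd N n).card = N.descFactorial n := by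
  unfold Wd
  rw [Finset.card_image_of_injective]
  · simp
  · intro e f h
    have := List.ofFn_injective h
    ext i
    exact congrFun this i

theorem mem_Wd (N n : ℕ) (w : List ℕ) :
    w ∈ Wd N n ↔ w.length = n ∧ w.Nodup ∧ ∀ a ∈ w, a < N := by
  unfold Wd
  simp only [Finset.mem_image, Finset.mem_univ, true_and]
  constructor
  · rintro ⟨e, rfl⟩
    refine ⟨by simp, ?_, ?_⟩
    · rw [List.nodup_ofFn]
      intro i j h
      exact e.injective (Fin.ext h)
    · intro a ha
      rw [List.mem_ofFn] at ha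
      obtain ⟨i, rfl⟩ := ha
      exact (e i).2
  · rintro ⟨rfl, h1, h2⟩
    refine ⟨⟨fun i => ⟨w.get i, h2 _ (List.get_mem w i)⟩, ?_⟩, ?_⟩
    · intro i j h
      exact List.nodup_iff_injective_get.1 h1 (Fin.mk.inj h)
    · simp

theorem desc_lower (N m n : ℕ) (hn : n ≤ m) (h : 2 * m ^ 2 ≤ N) (hN : 0 < N) :
    (N : ℝ) ^ n ≤ 2 * N.descFactorial n := by
  have h1 : ((N + 1 - n : ℕ) : ℝ) ^ n ≤ N.descFactorial n := by
    exact_mod_cast Nat.pow_sub_le_descFactorial N n
  have hnN : n ≤ N := by nlinarith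
  have hN' : (0 : ℝ) < N := by exact_mod_cast hN
  have h2 : (N : ℝ) * (1 + (-(n / N : ℝ))) ≤ ((N + 1 - n : ℕ) : ℝ) := by
    rw [Nat.cast_sub (by omega)]
    push_cast
    field_simp
    linarith
  have hq : (n / N : ℝ) ≤ 1 := by
    rw [div_le_one hN']; exact_mod_cast hnN
  have h3 : 1 + (n : ℝ) * (-(n / N : ℝ)) ≤ (1 + (-(n / N : ℝ))) ^ n :=
    one_add_mul_le_pow (by linarith) n
  have h4 : (n : ℝ) * (n / N) ≤ 1 / 2 := by
    rw [← mul_div_assoc, div_le_iff₀ hN']
    have : (2 * n ^ 2 : ℝ) ≤ N := by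
      have : 2 * n ^ 2 ≤ N := le_trans (by gcongr) h
      exact_mod_cast this
    nlinarith
  have h5 : ((N : ℝ) * (1 + (-(n / N : ℝ)))) ^ n ≤ ((N + 1 - n : ℕ) : ℝ) ^ n :=
    pow_le_pow_left₀ (mul_nonneg hN'.le (by linarith)) h2 n
  rw [mul_pow] at h5
  have h6 : (0 : ℝ) < (N : ℝ) ^ n := by positivity
  nlinarith

theorem sum_sq_lower (m : ℕ) : ((m + 1 : ℝ)) ^ 3 ≤ 3 * ∑ n ∈ range (m + 1), ((n : ℝ) + 1) ^ 2 := by
  induction m with
  | zero => simp
  | succ m ih =>
    rw [Finset.sum_range_succ]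
    push_cast
    have : (0 : ℝ) ≤ m := Nat.cast_nonneg m
    nlinarith

open Classical in
theorem big_conv (N m : ℕ) (h : 2 * m ^ 2 ≤ N) (hN : 0 < N) :
    ∃ (A : Finset (FreeGroup ℕ)) (f : FreeGroup ℕ → ℂ),
      (∀ y ∈ A, ∃ w : List ℕ, y = emb w ∧ w.Nodup ∧ ∀ a ∈ w, a < N) ∧
      ∑ y ∈ A, ‖f y‖ ^ 2 ≤ (m + 1 : ℝ) ∧
      (m + 1 : ℝ) ^ 3 / 6 ≤
        ∑ x ∈ A * A, ‖∑ p ∈ (A ×ˢ A).filter (fun p => p.1 * p.2 = x), f p.1 * f p.2‖ ^ 2 := by
  set t : ℝ := (Real.sqrt N)⁻¹ with ht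
  have hN' : (0 : ℝ) < N := by exact_mod_cast hN
  have ht0 : 0 < t := by rw [ht]; positivity
  have ht2 : t ^ 2 = (N : ℝ)⁻¹ := by rw [ht, inv_pow, Real.sq_sqrt hN'.le]
  let W : Finset (List ℕ) := (range (m + 1)).biUnion (Wd N)
  have hW : ∀ w, w ∈ W ↔ w.length ≤ m ∧ w.Nodup ∧ ∀ a ∈ w, a < N := by
    intro w
    simp only [W, Finset.mem_biUnion, Finset.mem_range, mem_Wd]
    constructor
    · rintro ⟨n, hn, rfl, h2⟩
      exact ⟨by omega, h2⟩
    · rintro ⟨h1, h2⟩
      exact ⟨_, by omega, rfl, h2⟩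
  have hsum : ∀ φ : ℕ → ℝ, ∑ y ∈ W.image emb, φ (norm y) =
      ∑ n ∈ range (m + 1), (N.descFactorial n : ℝ) * φ n := by
    intro φ
    rw [Finset.sum_image (fun a _ b _ hab => emb_inj hab), Finset.sum_biUnion]
    · apply Finset.sum_congr rfl
      intro n _
      rw [Finset.sum_congr rfl (g := fun _ => φ n)]
      · simp [Wd_card]
      · intro w hw
        rw [norm_emb, ((mem_Wd _ _ _).1 hw).1]
    · intro a _ b _ hab
      rw [Function.onFun, Finset.disjoint_left]
      intro w h1 h2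
      exact hab (((mem_Wd _ _ _).1 h1).1.symm.trans ((mem_Wd _ _ _).1 h2).1)
  refine ⟨W.image emb, fun y => ((t ^ norm y : ℝ) : ℂ), ?_, ?_, ?_⟩
  · intro y hy
    obtain ⟨w, hw, rfl⟩ := Finset.mem_image.1 hy
    exact ⟨w, rfl, ((hW w).1 hw).2⟩
  · have e : ∀ y : FreeGroup ℕ, ‖((t ^ norm y : ℝ) : ℂ)‖ ^ 2 = ((N : ℝ) ^ norm y)⁻¹ := by
      intro y
      rw [Complex.norm_real, Real.norm_eq_abs, sq_abs, ← pow_mul, mul_comm, pow_mul, ht2, inv_pow]
    simp only [e]
    rw [hsum (fun n => ((N : ℝ) ^ n)⁻¹)]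
    calc _ ≤ ∑ _n ∈ range (m + 1), (1 : ℝ) := by
          apply Finset.sum_le_sum
          intro n _
          have : (N.descFactorial n : ℝ) ≤ (N : ℝ) ^ n := by
            exact_mod_cast Nat.descFactorial_le_pow N n
          rw [← div_eq_mul_inv, div_le_one (by positivity)]
          exact this
      _ = _ := by simp
  · set A := W.image emb with hA
    have hsub : A ⊆ A * A := by
      intro y hy
      have h1 : emb [] ∈ A := Finset.mem_image_of_mem _ ((hW []).2 (by simp))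
      have h2 : y = y * emb [] := by
        have : emb [] = 1 := rfl
        rw [this, mul_one]
      rw [h2]
      exact Finset.mul_mem_mul hy h1
    refine le_trans ?_ (Finset.sum_le_sum_of_subset_of_nonneg hsub (fun _ _ _ => by positivity))
    have key : ∀ x ∈ A, ((norm x : ℝ) + 1) ^ 2 * ((N : ℝ) ^ norm x)⁻¹ ≤
        ‖∑ p ∈ (A ×ˢ A).filter (fun p => p.1 * p.2 = x),
          ((t ^ norm p.1 : ℝ) : ℂ) * ((t ^ norm p.2 : ℝ) : ℂ)‖ ^ 2 := by
      intro x hx
      obtain ⟨w, hw, rfl⟩ := Finset.mem_image.1 hx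
      obtain ⟨hw1, hw2, hw3⟩ := (hW w).1 hw
      have e1 : ∑ p ∈ (A ×ˢ A).filter (fun p => p.1 * p.2 = emb w),
          ((t ^ norm p.1 : ℝ) : ℂ) * ((t ^ norm p.2 : ℝ) : ℂ) =
          ((∑ p ∈ (A ×ˢ A).filter (fun p => p.1 * p.2 = emb w),
            t ^ norm p.1 * t ^ norm p.2 : ℝ) : ℂ) := by
        push_cast
        rfl
      rw [e1, Complex.norm_real, Real.norm_eq_abs, sq_abs, norm_emb]
      have e2 : ((w.length : ℝ) + 1) * t ^ w.length ≤
          ∑ p ∈ (A ×ˢ A).filter (fun p => p.1 * p.2 = emb w), t ^ norm p.1 * t ^ norm p.2 := by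
        have hs : (range (w.length + 1)).image (fun i => (emb (w.take i), emb (w.drop i))) ⊆
            (A ×ˢ A).filter (fun p => p.1 * p.2 = emb w) := by
          intro p hp
          obtain ⟨i, _, rfl⟩ := Finset.mem_image.1 hp
          rw [Finset.mem_filter, Finset.mem_product]
          refine ⟨⟨Finset.mem_image_of_mem _ ((hW _).2 ⟨?_, ?_, ?_⟩),
            Finset.mem_image_of_mem _ ((hW _).2 ⟨?_, ?_, ?_⟩)⟩, ?_⟩
          · simp; omega
          · exact hw2.sublist (List.take_sublist i w)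
          · exact fun a ha => hw3 a (List.mem_of_mem_take ha)
          · simp; omega
          · exact hw2.sublist (List.drop_sublist i w)
          · exact fun a ha => hw3 a (List.mem_of_mem_drop ha)
          · simp only
            rw [← emb_append, List.take_append_drop]
        refine le_trans (le_of_eq ?_)
          (Finset.sum_le_sum_of_subset_of_nonneg hs (fun _ _ _ => by positivity))
        rw [Finset.sum_image]
        · rw [Finset.sum_congr rfl (g := fun _ => t ^ w.length)]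
          · simp
          · intro i hi
            rw [Finset.mem_range] at hi
            simp only [norm_emb]
            rw [← pow_add]
            congr 1
            simp; omega
        · intro i hi j hj hij
          simp only [Finset.coe_range, Set.mem_Iio] at hi hj
          have := congrArg List.length (emb_inj (Prod.mk.inj hij).1)
          simp at this
          omega
      have e3 : (((w.length : ℝ) + 1) * t ^ w.length) ^ 2 =
          ((w.length : ℝ) + 1) ^ 2 * ((N : ℝ) ^ w.length)⁻¹ := by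
        rw [mul_pow, ← pow_mul, mul_comm w.length 2, pow_mul, ht2, inv_pow]
      rw [← e3]
      exact pow_le_pow_left₀ (by positivity) e2 2
    refine le_trans ?_ (Finset.sum_le_sum key)
    rw [hA, hsum (fun n => ((n : ℝ) + 1) ^ 2 * ((N : ℝ) ^ n)⁻¹)]
    have h7 := sum_sq_lower m
    have h8 : ∑ n ∈ range (m + 1), ((n : ℝ) + 1) ^ 2 / 2 ≤
        ∑ n ∈ range (m + 1), (N.descFactorial n : ℝ) * (((n : ℝ) + 1) ^ 2 * ((N : ℝ) ^ n)⁻¹) := by
      apply Finset.sum_le_sum
      intro n hn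
      have h9 := desc_lower N m n (by simpa [Nat.lt_succ_iff] using hn) h hN
      have h10 : (0 : ℝ) < (N : ℝ) ^ n := by positivity
      have h11 : (1 / 2 : ℝ) ≤ (N.descFactorial n : ℝ) * ((N : ℝ) ^ n)⁻¹ := by
        rw [← div_eq_mul_inv, le_div_iff₀ h10]
        linarith
      have h12 : (0 : ℝ) ≤ ((n : ℝ) + 1) ^ 2 := by positivity
      nlinarith
    rw [← Finset.sum_div] at h8
    linarith

theorem exp_beats (K : ℝ) (d : ℕ) : ∃ j : ℕ, K * (2 + 2 * (j : ℝ)) ^ d < 2 ^ j + 1 := by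
  have h := tendsto_pow_const_div_const_pow_of_one_lt d (r := 2) (by norm_num)
  have hpos : (0 : ℝ) < (|K| * 4 ^ d + 1)⁻¹ := by positivity
  have h1 := (h.eventually (gt_mem_nhds hpos)).and (Filter.eventually_ge_atTop 1)
  obtain ⟨j, hj, hj1⟩ := h1.exists
  refine ⟨j, ?_⟩
  have hj1' : (1 : ℝ) ≤ j := by exact_mod_cast hj1
  have h2 : (2 + 2 * (j : ℝ)) ^ d ≤ 4 ^ d * (j : ℝ) ^ d := by
    rw [← mul_pow]
    exact pow_le_pow_left₀ (by positivity) (by linarith) d
  rw [div_lt_iff₀ (by positivity), inv_mul_eq_div, lt_div_iff₀ (by positivity)] at hj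
  have h3 : K * (2 + 2 * (j : ℝ)) ^ d ≤ |K| * (4 ^ d * (j : ℝ) ^ d) :=
    mul_le_mul (le_abs_self K) h2 (by positivity) (abs_nonneg K)
  have h4 : (0 : ℝ) ≤ (j : ℝ) ^ d := by positivity
  nlinarith

open Classical in
theorem not_RD (C : ℝ) (d : ℕ) : ∃ (r : ℝ) (A : Finset (FreeGroup ℕ)) (f : FreeGroup ℕ → ℂ),
    0 < r ∧ (∀ y ∈ A, (len y : ℝ) ≤ r) ∧
      (C * (1 + r) ^ d) * (∑ y ∈ A, ‖f y‖ ^ 2) * (∑ z ∈ A, ‖f z‖ ^ 2) <
      ∑ x ∈ A * A, ‖∑ p ∈ (A ×ˢ A).filter (fun p => p.1 * p.2 = x), f p.1 * f p.2‖ ^ 2 := by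
  obtain ⟨j, hj⟩ := exp_beats (6 * |C|) d
  obtain ⟨A, f, h1, h2, h3⟩ := big_conv (2 ^ (2 * j + 1)) (2 ^ j) (by
    rw [← pow_mul, pow_succ, mul_comm j 2, mul_comm]) (by positivity)
  refine ⟨2 * j + 1, A, f, by positivity, ?_, ?_⟩
  · intro y hy
    obtain ⟨w, rfl, hw1, hw2⟩ := h1 y hy
    exact_mod_cast len_emb w (2 * j) hw1 hw2
  · refine lt_of_lt_of_le ?_ h3
    push_cast at h2 ⊢
    set s := ∑ y ∈ A, ‖f y‖ ^ 2 with hs
    have hs0 : 0 ≤ s := Finset.sum_nonneg (fun _ _ => by positivity)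
    set M : ℝ := 2 ^ j + 1 with hM
    have hM0 : 0 < M := by positivity
    have e : (1 + (2 * (j : ℝ) + 1)) = 2 + 2 * j := by ring
    rw [e]
    set P := (2 + 2 * (j : ℝ)) ^ d with hP
    have hP0 : 0 ≤ P := by positivity
    have h4 : s * s ≤ M * M := mul_le_mul h2 h2 hs0 hM0.le
    have h5 : C * P * s * s ≤ |C| * P * (M * M) := by
      rw [mul_assoc]
      exact mul_le_mul (mul_le_mul_of_nonneg_right (le_abs_self C) hP0) h4 (by positivity)
        (by positivity)
    have h6 : |C| * P < M / 6 := by linarith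
    have h7 : |C| * P * (M * M) < M / 6 * (M * M) := mul_lt_mul_of_pos_right h6 (by positivity)
    calc _ ≤ _ := h5
      _ < _ := h7
      _ = _ := by ring

theorem RE_real (r : ℝ) (hr : 0 ≤ r) (S X : Finset (FreeGroup ℕ)) (h : ∀ s ∈ S, (len s : ℝ) ≤ r) :
    (S.card : ℝ) * (X.card : ℝ) ≤ 16 * (1 + r) * ((S * X).card : ℝ) := by
  have h1 := expansion S X ⌊r⌋₊ (fun s hs i => (cnt_le_len s i).trans (Nat.le_floor (h s hs)))
  have h2 : (S.card : ℝ) * (X.card : ℝ) ≤ 8 * (2 * (⌊r⌋₊ : ℝ) + 1) * ((S * X).card : ℝ) := by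
    exact_mod_cast h1
  have h3 := Nat.floor_le hr
  refine h2.trans (mul_le_mul_of_nonneg_right (by linarith) (Nat.cast_nonneg _))

end Pool.Agent.H2Z.RE
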