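import Mathlib
import Pool.Agent.H2Z.REb

set_option autoImplicit false

namespace Pool.Agent.H2Z.RE

open Finset FreeGroup
open scoped Pointwise

theorem poly_bound (P : Polynomial ℝ) : ∃ (C : ℝ) (d : ℕ), ∀ r : ℝ, 0 < r → P.eval r ≤ C * (1 + r) ^ d := by
  refine ⟨∑ i ∈ range (P.natDegree + 1), |P.coeff i|, P.natDegree, fun r hr => ?_⟩
  rw [Polynomial.eval_eq_sum_range, Finset.sum_mul]
  apply Finset.sum_le_sum
  intro i hi
  have h1 : r ^ i ≤ (1 + r) ^ P.natDegree :=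
    (pow_le_pow_left₀ hr.le (by linarith) i).trans
      (pow_le_pow_right₀ (by linarith) (by simpa [Nat.lt_succ_iff] using hi))
  exact mul_le_mul (le_abs_self _) h1 (by positivity) (abs_nonneg _)

open Classical in
theorem not_RD' (P : Polynomial ℝ) : ∃ (r : ℝ) (φ : FreeGroup ℕ →₀ ℂ) (ψ : FreeGroup ℕ →₀ ℂ),
    0 < r ∧ (∀ y ∈ φ.support, (len y : ℝ) ≤ r) ∧
      P.eval r * (∑' y, ‖φ y‖ ^ 2) * (∑' y, ‖ψ y‖ ^ 2) <
      ∑' x, ‖∑ h ∈ φ.support, φ h * ψ (h⁻¹ * x)‖ ^ 2 := by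
  obtain ⟨C, d, hP⟩ := poly_bound P
  obtain ⟨r, A, f, hr, hA, hlt⟩ := not_RD C d
  let φ : FreeGroup ℕ →₀ ℂ := Finsupp.onFinset A (fun y => if y ∈ A then f y else 0)
    (fun y hy => by by_contra h; simp [h] at hy)
  have hφ : ∀ y, φ y = if y ∈ A then f y else 0 := fun y => rfl
  have hsupp : φ.support ⊆ A := Finsupp.support_onFinset_subset
  have e1 : ∑' y, ‖φ y‖ ^ 2 = ∑ y ∈ A, ‖f y‖ ^ 2 := by
    rw [tsum_eq_sum (s := A) (fun y hy => by simp [hφ, hy])]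
    exact Finset.sum_congr rfl (fun y hy => by simp [hφ, hy])
  have e2 : ∀ x, ∑ h ∈ φ.support, φ h * φ (h⁻¹ * x) =
      ∑ p ∈ (A ×ˢ A).filter (fun p => p.1 * p.2 = x), f p.1 * f p.2 := by
    intro x
    rw [Finset.sum_subset hsupp (fun y _ hy => by simp [Finsupp.notMem_support_iff.1 hy]),
      Finset.sum_filter, Finset.sum_product]
    apply Finset.sum_congr rfl
    intro a ha
    simp only [hφ, ha, if_true]
    have : ∀ b, (a * b = x) ↔ (b = a⁻¹ * x) := fun b => by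
      rw [eq_inv_mul_iff_mul_eq]
    simp only [this]
    rw [Finset.sum_ite_eq']
    split_ifs <;> simp
  have e3 : ∑' x, ‖∑ h ∈ φ.support, φ h * φ (h⁻¹ * x)‖ ^ 2 =
      ∑ x ∈ A * A, ‖∑ p ∈ (A ×ˢ A).filter (fun p => p.1 * p.2 = x), f p.1 * f p.2‖ ^ 2 := by
    simp only [e2]
    apply tsum_eq_sum
    intro x hx
    rw [Finset.filter_false_of_mem]
    · simp
    · intro p hp he
      rw [Finset.mem_product] at hp
      exact hx (he ▸ Finset.mul_mem_mul hp.1 hp.2)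
  refine ⟨r, φ, φ, hr, fun y hy => hA y (hsupp hy), ?_⟩
  rw [e1, e3]
  refine lt_of_le_of_lt ?_ hlt
  have hs0 : 0 ≤ ∑ y ∈ A, ‖f y‖ ^ 2 := Finset.sum_nonneg (fun _ _ => by positivity)
  exact mul_le_mul_of_nonneg_right (mul_le_mul_of_nonneg_right (hP r hr) hs0) hs0

end Pool.Agent.H2Z.RE
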