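import Mathlib

set_option autoImplicit false

/-! An explicit nerve-type theorem for flag complexes: if every vertex `v` carries a nonempty set
`b v` of points of `Fin (m+1)`, the sets of a clique never cover all points, and for every proper
nonempty `R` the vertices with `b v ⊆ R` have a common neighbour among themselves, then the
geometric realization of the flag complex is homotopy equivalent to the sphere of `ℝ^m`. -/

namespace Pool.Agent.H2Z.WS

open Classical

/-- geometric realization of the flag complex of `adj` -/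
abbrev Fl (V : Type) [Fintype V] (adj : V → V → Prop) : Type :=
  {x : V → ℝ // (∀ v, 0 ≤ x v) ∧ (∑ v, x v) = 1 ∧ ∀ v w : V, x v ≠ 0 → x w ≠ 0 → adj v w}

/-- punctured cone over the boundary of the simplex -/
abbrev Bd (m : ℕ) : Type :=
  {y : Fin (m + 1) → ℝ // (∀ i, 0 ≤ y i) ∧ (∃ i, y i = 0) ∧ ∃ i, y i ≠ 0}

theorem bd_line {m : ℕ} (φ : C(Bd m, Bd m)) (h : ∀ y i, y.1 i = 0 → (φ y).1 i = 0) :
    φ.Homotopic (ContinuousMap.id _) := by
  refine ⟨⟨⟨fun p => ⟨fun i => (1 - (p.1 : ℝ)) * (φ p.2).1 i + (p.1 : ℝ) * p.2.1 i, ?_, ?_, ?_⟩,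
    ?_⟩, ?_, ?_⟩⟩
  · intro i
    have h1 := p.1.2.1
    have h2 := p.1.2.2
    have h3 := (φ p.2).2.1 i
    have h4 := p.2.2.1 i
    have : 0 ≤ 1 - (p.1 : ℝ) := by linarith
    positivity
  · obtain ⟨i, hi⟩ := p.2.2.2.1
    exact ⟨i, by simp only [h _ _ hi, hi]; ring⟩
  · obtain ⟨i, hi⟩ := (φ p.2).2.2.2
    refine ⟨i, ?_⟩
    have h1 := p.1.2.1
    have h2 := p.1.2.2
    have h3 : 0 < (φ p.2).1 i := lt_of_le_of_ne ((φ p.2).2.1 i) (Ne.symm hi)
    have h4 : 0 < p.2.1 i := lt_of_le_of_ne (p.2.2.1 i) (fun h0 => hi (h _ _ h0.symm))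
    rcases eq_or_lt_of_le h1 with h5 | h5
    · rw [← h5]; simpa using hi
    · have : 0 ≤ 1 - (p.1 : ℝ) := by linarith
      positivity
  · refine Continuous.subtype_mk ?_ _
    refine continuous_pi fun i => ?_
    have c1 : Continuous fun p : unitInterval × Bd m => (φ p.2).1 i :=
      (continuous_apply i).comp (continuous_subtype_val.comp (φ.continuous.comp continuous_snd))
    have c2 : Continuous fun p : unitInterval × Bd m => p.2.1 i :=
      (continuous_apply i).comp (continuous_subtype_val.comp continuous_snd)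
    have c3 : Continuous fun p : unitInterval × Bd m => (p.1 : ℝ) :=
      continuous_subtype_val.comp continuous_fst
    exact ((continuous_const.sub c3).mul c1).add (c3.mul c2)
  · intro y; apply Subtype.ext; funext i; simp
  · intro y; apply Subtype.ext; funext i; simp

/-- differences with the last coordinate -/
noncomputable def dif {m : ℕ} (y : Fin (m + 1) → ℝ) : EuclideanSpace ℝ (Fin m) :=
  WithLp.toLp 2 fun i => y i.castSucc - y (Fin.last m)

theorem dif_ne {m : ℕ} (y : Bd m) : dif y.1 ≠ 0 := by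
  intro h
  have h1 : ∀ i, y.1 i = y.1 (Fin.last m) := by
    intro i
    refine Fin.lastCases rfl (fun j => ?_) i
    have := congrArg (fun w : EuclideanSpace ℝ (Fin m) => w j) h
    simp only [dif, PiLp.zero_apply] at this
    linarith
  obtain ⟨i, hi⟩ := y.2.2.1
  obtain ⟨j, hj⟩ := y.2.2.2
  exact hj (by rw [h1 j, ← h1 i, hi])

theorem dif_cont {m : ℕ} : Continuous fun y : Bd m => dif y.1 := by
  unfold dif
  refine (PiLp.continuous_toLp 2 _).comp (continuous_pi fun i => ?_)
  exact ((continuous_apply _).comp continuous_subtype_val).sub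
    ((continuous_apply _).comp continuous_subtype_val)

/-- extension by zero -/
noncomputable def ex {m : ℕ} (w : EuclideanSpace ℝ (Fin m)) : Fin (m + 1) → ℝ :=
  fun i => Fin.lastCases 0 (fun j => w j) i

noncomputable def mn {m : ℕ} (y : Fin (m + 1) → ℝ) : ℝ :=
  Finset.univ.inf' Finset.univ_nonempty y

theorem mn_le {m : ℕ} (y : Fin (m + 1) → ℝ) (i : Fin (m + 1)) : mn y ≤ y i :=
  Finset.inf'_le _ (Finset.mem_univ i)

theorem mn_eq {m : ℕ} (y : Fin (m + 1) → ℝ) : ∃ i, mn y = y i := by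
  obtain ⟨i, -, hi⟩ := Finset.exists_mem_eq_inf' Finset.univ_nonempty y
  exact ⟨i, hi⟩

theorem ex_cont {m : ℕ} (i : Fin (m + 1)) :
    Continuous fun w : EuclideanSpace ℝ (Fin m) => ex w i := by
  refine Fin.lastCases ?_ (fun j => ?_) i
  · simp only [ex, Fin.lastCases_last]; exact continuous_const
  · simp only [ex, Fin.lastCases_castSucc]; fun_prop

noncomputable def toS (m : ℕ) : C(Bd m, Metric.sphere (0 : EuclideanSpace ℝ (Fin m)) 1) :=
  ⟨fun y => ⟨(‖dif y.1‖⁻¹ : ℝ) • dif y.1, by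
      rw [mem_sphere_zero_iff_norm, norm_smul, norm_inv, norm_norm,
        inv_mul_cancel₀ (norm_ne_zero_iff.2 (dif_ne y))]⟩,
    Continuous.subtype_mk
      ((dif_cont.norm.inv₀ fun y => norm_ne_zero_iff.2 (dif_ne y)).smul dif_cont) _⟩

noncomputable def ofS (m : ℕ) : C(Metric.sphere (0 : EuclideanSpace ℝ (Fin m)) 1, Bd m) :=
  ⟨fun w => ⟨fun i => ex w.1 i - mn (ex w.1), fun i => sub_nonneg.2 (mn_le _ i), by
      obtain ⟨i, hi⟩ := mn_eq (ex w.1)
      exact ⟨i, by simp only [hi, sub_self]⟩, by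
      by_contra hne
      push Not at hne
      have h0 : mn (ex w.1) = 0 := by
        have := hne (Fin.last m)
        simp only [ex, Fin.lastCases_last] at this
        linarith
      have h1 : w.1 = 0 := by
        ext j
        have := hne j.castSucc
        rw [h0] at this
        simpa [ex] using this
      have h2 := w.2
      rw [mem_sphere_zero_iff_norm, h1, norm_zero] at h2
      exact zero_ne_one h2⟩,
    Continuous.subtype_mk (continuous_pi fun i => by
      refine ((ex_cont i).comp continuous_subtype_val).sub ?_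
      unfold mn
      exact Continuous.finset_inf'_apply Finset.univ_nonempty
        fun j _ => (ex_cont j).comp continuous_subtype_val) _⟩

noncomputable def bdEquiv (m : ℕ) :
    ContinuousMap.HomotopyEquiv (Bd m) (Metric.sphere (0 : EuclideanSpace ℝ (Fin m)) 1) where
  toFun := toS m
  invFun := ofS m
  left_inv := by
    apply bd_line
    intro y i hi
    have key : ∀ j, ex ((‖dif y.1‖⁻¹ : ℝ) • dif y.1) j =
        ‖dif y.1‖⁻¹ * (y.1 j - y.1 (Fin.last m)) := by
      intro j
      refine Fin.lastCases ?_ (fun l => ?_) j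
      · simp [ex]
      · simp [ex, dif]
    change ex ((‖dif y.1‖⁻¹ : ℝ) • dif y.1) i - mn (ex ((‖dif y.1‖⁻¹ : ℝ) • dif y.1)) = 0
    obtain ⟨j, hj⟩ := mn_eq (ex ((‖dif y.1‖⁻¹ : ℝ) • dif y.1))
    have h1 := mn_le (ex ((‖dif y.1‖⁻¹ : ℝ) • dif y.1)) i
    have h2 : ex ((‖dif y.1‖⁻¹ : ℝ) • dif y.1) i ≤ ex ((‖dif y.1‖⁻¹ : ℝ) • dif y.1) j := by
      rw [key, key, hi]
      have := y.2.1 j
      exact mul_le_mul_of_nonneg_left (by linarith) (by positivity)
    linarith
  right_inv := by
    have : (toS m).comp (ofS m) = ContinuousMap.id _ := by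
      ext1 w
      apply Subtype.ext
      have h1 : dif (ofS m w).1 = w.1 := by
        ext j
        simp [dif, ofS, ex]
      change (‖dif (ofS m w).1‖⁻¹ : ℝ) • dif (ofS m w).1 = w.1
      have h2 := w.2
      rw [mem_sphere_zero_iff_norm] at h2
      rw [h1, h2]; simp
    rw [this]

section nerve

variable {V : Type} [Fintype V] {adj : V → V → Prop} {m : ℕ}

/-- normalisation of a nonnegative nonzero weight function supported on a clique -/
noncomputable def mkFl {T : Type} [TopologicalSpace T] (u : T → V → ℝ)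
    (hc : ∀ v, Continuous fun t => u t v) (h0 : ∀ t v, 0 ≤ u t v) (hne : ∀ t, ∃ v, u t v ≠ 0)
    (ha : ∀ t v w, u t v ≠ 0 → u t w ≠ 0 → adj v w) : C(T, Fl V adj) :=
  have hs : ∀ t, 0 < ∑ v, u t v := fun t => by
    obtain ⟨v, hv⟩ := hne t
    exact Finset.sum_pos' (fun w _ => h0 t w) ⟨v, Finset.mem_univ v, lt_of_le_of_ne (h0 t v) hv.symm⟩
  ⟨fun t => ⟨fun v => u t v / ∑ w, u t w, fun v => div_nonneg (h0 t v) (hs t).le, by
      rw [← Finset.sum_div, div_self (hs t).ne'], fun v w hv hw =>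
      ha t v w (fun h => hv (by simp [h])) (fun h => hw (by simp [h]))⟩,
    Continuous.subtype_mk (continuous_pi fun v =>
      (hc v).div (continuous_finsetSum _ fun w _ => hc w) fun t => (hs t).ne') _⟩

/-- proper nonempty subsets -/
abbrev PS (m : ℕ) : Type := {R : Finset (Fin (m + 1)) // R.Nonempty ∧ Rᶜ.Nonempty}

noncomputable def lam (s : ℝ) (y : Fin (m + 1) → ℝ) (R : PS m) : ℝ :=
  ∏ i ∈ R.1, ∏ j ∈ R.1ᶜ, max 0 (min s (y i) - y j)

theorem lam_nonneg (s : ℝ) (y : Fin (m + 1) → ℝ) (R : PS m) : 0 ≤ lam s y R :=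
  Finset.prod_nonneg fun _ _ => Finset.prod_nonneg fun _ _ => le_max_left _ _

theorem lam_ne (s : ℝ) (y : Fin (m + 1) → ℝ) (R : PS m) :
    lam s y R ≠ 0 ↔ ∀ i ∈ R.1, ∀ j, j ∉ R.1 → y j < s ∧ y j < y i := by
  unfold lam
  simp only [Finset.prod_ne_zero_iff, Finset.mem_compl]
  refine forall₂_congr fun i _ => forall₂_congr fun j _ => ?_
  rw [← lt_min_iff, ne_eq, max_eq_left_iff, not_le, sub_pos]

theorem lam_cont {T : Type} [TopologicalSpace T] (s : T → ℝ) (y : T → Fin (m + 1) → ℝ)
    (hs : Continuous s) (hy : ∀ i, Continuous fun t => y t i) (R : PS m) :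
    Continuous fun t => lam (s t) (y t) R := by
  unfold lam
  refine continuous_finsetProd _ fun i _ => continuous_finsetProd _ fun j _ => ?_
  exact continuous_const.max ((hs.min (hy i)).sub (hy j))

theorem lam_supp (s : ℝ) (hs : 0 < s) (y : Bd m) : ∃ R : PS m, lam s y.1 R ≠ 0 := by
  refine ⟨⟨Finset.univ.filter fun i => y.1 i ≠ 0, ?_, ?_⟩, ?_⟩
  · obtain ⟨i, hi⟩ := y.2.2.2
    exact ⟨i, by simpa using hi⟩
  · obtain ⟨i, hi⟩ := y.2.2.1
    exact ⟨i, by simpa using hi⟩
  · rw [lam_ne]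
    intro i hi j hj
    simp only [Finset.mem_filter, Finset.mem_univ, true_and, not_not] at hi hj
    rw [hj]
    exact ⟨hs, lt_of_le_of_ne (y.2.1 i) (Ne.symm hi)⟩

theorem lam_chain (s : ℝ) (y : Fin (m + 1) → ℝ) (R R' : PS m) (h : lam s y R ≠ 0)
    (h' : lam s y R' ≠ 0) : R.1 ⊆ R'.1 ∨ R'.1 ⊆ R.1 := by
  rw [lam_ne] at h h'
  by_contra hc
  rw [not_or, Finset.not_subset, Finset.not_subset] at hc
  obtain ⟨⟨i, hi, hi'⟩, ⟨j, hj, hj'⟩⟩ := hc
  have h1 := (h i hi j hj').2
  have h2 := (h' j hj i hi').2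
  linarith

noncomputable def wt (c : PS m → V) (s : ℝ) (y : Fin (m + 1) → ℝ) (v : V) : ℝ :=
  ∑ R, if c R = v then lam s y R else 0

omit [Fintype V] in
theorem wt_nonneg (c : PS m → V) (s : ℝ) (y : Fin (m + 1) → ℝ) (v : V) : 0 ≤ wt c s y v :=
  Finset.sum_nonneg fun R _ => by split_ifs; exacts [lam_nonneg _ _ _, le_rfl]

omit [Fintype V] in
theorem wt_ne (c : PS m → V) (s : ℝ) (y : Fin (m + 1) → ℝ) (v : V) :
    wt c s y v ≠ 0 ↔ ∃ R, c R = v ∧ lam s y R ≠ 0 := by
  unfold wt
  rw [ne_eq, Finset.sum_eq_zero_iff_of_nonneg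
    fun R _ => by split_ifs; exacts [lam_nonneg _ _ _, le_rfl]]
  simp only [Finset.mem_univ, ite_eq_right_iff, forall_const, not_forall, exists_prop, ne_eq]

omit [Fintype V] in
theorem wt_cont {T : Type} [TopologicalSpace T] (c : PS m → V) (s : T → ℝ)
    (y : T → Fin (m + 1) → ℝ) (hs : Continuous s) (hy : ∀ i, Continuous fun t => y t i) (v : V) :
    Continuous fun t => wt c (s t) (y t) v := by
  unfold wt
  refine continuous_finsetSum _ fun R _ => ?_
  split_ifs
  exacts [lam_cont s y hs hy R, continuous_const]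

noncomputable def fy (b : V → Fin (m + 1) → Prop) (x : V → ℝ) (i : Fin (m + 1)) : ℝ :=
  ∑ v, if b v i then x v else 0

theorem fy_ne (b : V → Fin (m + 1) → Prop) (x : V → ℝ) (hx : ∀ v, 0 ≤ x v) (i : Fin (m + 1)) :
    fy b x i ≠ 0 ↔ ∃ v, b v i ∧ x v ≠ 0 := by
  unfold fy
  rw [ne_eq, Finset.sum_eq_zero_iff_of_nonneg fun v _ => by split_ifs; exacts [hx v, le_rfl]]
  simp

theorem le_fy (b : V → Fin (m + 1) → Prop) (x : V → ℝ) (hx : ∀ v, 0 ≤ x v) (i : Fin (m + 1))
    (v : V) (h : b v i) : x v ≤ fy b x i := by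
  unfold fy
  have := Finset.single_le_sum (f := fun v => if b v i then x v else 0)
    (fun w _ => by split_ifs; exacts [hx w, le_rfl]) (Finset.mem_univ v)
  simpa [h] using this

theorem nerve (b : V → Fin (m + 1) → Prop) (h1 : ∀ v, ∃ i, b v i)
    (h2 : ∀ C : Set V, (∀ v ∈ C, ∀ w ∈ C, adj v w) → ∃ i, ∀ v ∈ C, ¬ b v i)
    (h3 : ∀ R : PS m, ∃ c, (∀ i, b c i → i ∈ R.1) ∧
      ∀ v, (∀ i, b v i → i ∈ R.1) → adj c v ∧ adj v c) :
    Nonempty (ContinuousMap.HomotopyEquiv (Fl V adj)
      (Metric.sphere (0 : EuclideanSpace ℝ (Fin m)) 1)) := by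
  choose c hc1 hc2 using h3
  have hcc : ∀ s y v w, wt c s y v ≠ 0 → wt c s y w ≠ 0 → adj v w := by
    intro s y v w hv hw
    obtain ⟨R, rfl, hR⟩ := (wt_ne _ _ _ _).1 hv
    obtain ⟨R', rfl, hR'⟩ := (wt_ne _ _ _ _).1 hw
    rcases lam_chain s y R R' hR hR' with h | h
    · exact (hc2 R' _ fun i hi => h (hc1 R i hi)).2
    · exact (hc2 R _ fun i hi => h (hc1 R' i hi)).1
  have fc : ∀ i, Continuous fun x : Fl V adj => fy b x.1 i := by
    intro i
    unfold fy
    refine continuous_finsetSum _ fun v _ => ?_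
    split_ifs
    exacts [(continuous_apply v).comp continuous_subtype_val, continuous_const]
  let f : C(Fl V adj, Bd m) := ⟨fun x => ⟨fy b x.1, fun i => Finset.sum_nonneg fun v _ => by
      split_ifs; exacts [x.2.1 v, le_rfl], by
      obtain ⟨i, hi⟩ := h2 {v | x.1 v ≠ 0} fun v hv w hw => x.2.2.2 v w hv hw
      refine ⟨i, ?_⟩
      by_contra hne
      obtain ⟨v, hv, hv'⟩ := (fy_ne b x.1 x.2.1 i).1 hne
      exact hi v hv' hv, by
      have : ∃ v, x.1 v ≠ 0 := by
        by_contra hne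
        push Not at hne
        have := x.2.2.1
        simp [hne] at this
      obtain ⟨v, hv⟩ := this
      obtain ⟨i, hi⟩ := h1 v
      exact ⟨i, (fy_ne b x.1 x.2.1 i).2 ⟨v, hi, hv⟩⟩⟩,
    Continuous.subtype_mk (continuous_pi fc) _⟩
  let h : C(Bd m, Fl V adj) := mkFl (fun y v => wt c 1 y.1 v)
    (fun v => wt_cont c (fun _ => 1) (fun y : Bd m => y.1) continuous_const
      (fun i => (continuous_apply i).comp continuous_subtype_val) v)
    (fun y v => wt_nonneg _ _ _ _)
    (fun y => by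
      obtain ⟨R, hR⟩ := lam_supp 1 one_pos y
      exact ⟨c R, (wt_ne _ _ _ _).2 ⟨R, rfl, hR⟩⟩)
    (fun y v w => hcc _ _ v w)
  have cs : Continuous fun p : unitInterval × Fl V adj => (p.1 : ℝ) :=
    continuous_subtype_val.comp continuous_fst
  have hmix : ∀ (s : ℝ) (x : Fl V adj) (v w : V), s < x.1 v → wt c s (fy b x.1) w ≠ 0 →
      adj w v ∧ adj v w := by
    intro s x v w hv hw
    obtain ⟨R, rfl, hR⟩ := (wt_ne _ _ _ _).1 hw
    refine hc2 R v fun j hj => ?_
    by_contra hjR
    obtain ⟨i, hi⟩ := R.2.1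
    have h4 := ((lam_ne _ _ _).1 hR i hi j hjR).1
    have h5 := le_fy b x.1 x.2.1 j v hj
    linarith
  have hsplit : ∀ (s : ℝ) (x : Fl V adj) (v : V),
      max 0 (x.1 v - s) + wt c s (fy b x.1) v ≠ 0 → s < x.1 v ∨ wt c s (fy b x.1) v ≠ 0 := by
    intro s x v hv
    by_contra hn
    push Not at hn
    apply hv
    rw [hn.2, max_eq_left (by linarith [hn.1]), add_zero]
  have hw0 : ∀ (x : Fl V adj) (v : V), wt c 0 (fy b x.1) v = 0 := by
    intro x v
    by_contra hne
    obtain ⟨R, -, hR⟩ := (wt_ne _ _ _ _).1 hne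
    obtain ⟨i, hi⟩ := R.2.1
    obtain ⟨j, hj⟩ := R.2.2
    have h4 := ((lam_ne _ _ _).1 hR i hi j (Finset.mem_compl.1 hj)).1
    exact absurd ((f x).2.1 j) (not_le.2 h4)
  let H : C(unitInterval × Fl V adj, Fl V adj) :=
    mkFl (fun p v => max 0 (p.2.1 v - p.1) + wt c p.1 (fy b p.2.1) v)
      (fun v => (continuous_const.max (((continuous_apply v).comp
          (continuous_subtype_val.comp continuous_snd)).sub cs)).add
        (wt_cont c (fun p : unitInterval × Fl V adj => (p.1 : ℝ)) (fun p => fy b p.2.1) cs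
          (fun i => (fc i).comp continuous_snd) v))
      (fun p v => add_nonneg (le_max_left _ _) (wt_nonneg _ _ _ _))
      (fun p => by
        rcases eq_or_lt_of_le p.1.2.1 with h0 | h0
        · have : ∃ v, p.2.1 v ≠ 0 := by
            by_contra hne
            push Not at hne
            have := p.2.2.2.1
            simp [hne] at this
          obtain ⟨v, hv⟩ := this
          refine ⟨v, ?_⟩
          rw [← h0, hw0, sub_zero, max_eq_right (p.2.2.1 v), add_zero]
          exact hv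
        · obtain ⟨R, hR⟩ := lam_supp _ h0 (f p.2)
          refine ⟨c R, ?_⟩
          have h4 : wt c p.1 (fy b p.2.1) (c R) ≠ 0 := (wt_ne _ _ _ _).2 ⟨R, rfl, hR⟩
          have h5 := lt_of_le_of_ne (wt_nonneg c p.1 (fy b p.2.1) (c R)) h4.symm
          have h6 := le_max_left 0 (p.2.1 (c R) - p.1)
          exact ne_of_gt (by linarith))
      (fun p v w hv hw => by
        have h0 := p.1.2.1
        rcases hsplit _ _ _ hv with hv | hv <;> rcases hsplit _ _ _ hw with hw | hw
        · exact p.2.2.2.2 v w (ne_of_gt (by linarith)) (ne_of_gt (by linarith))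
        · exact (hmix _ _ _ _ hv hw).2
        · exact (hmix _ _ _ _ hw hv).1
        · exact hcc _ _ _ _ hv hw)
  have e1 : ContinuousMap.HomotopyEquiv (Fl V adj) (Bd m) :=
    { toFun := f
      invFun := h
      left_inv := by
        refine ContinuousMap.Homotopic.symm ⟨⟨H, ?_, ?_⟩⟩
        · intro x
          apply Subtype.ext
          funext v
          change (max 0 (x.1 v - ((0 : unitInterval) : ℝ)) +
              wt c ((0 : unitInterval) : ℝ) (fy b x.1) v) /
            (∑ w, (max 0 (x.1 w - ((0 : unitInterval) : ℝ)) +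
              wt c ((0 : unitInterval) : ℝ) (fy b x.1) w)) = x.1 v
          simp only [Set.Icc.coe_zero, sub_zero, hw0, add_zero, max_eq_right (x.2.1 _), x.2.2.1,
            div_one]
        · intro x
          apply Subtype.ext
          funext v
          have hle : ∀ w, max 0 (x.1 w - 1) = 0 := by
            intro w
            have := Finset.single_le_sum (f := x.1) (fun u _ => x.2.1 u) (Finset.mem_univ w)
            rw [x.2.2.1] at this
            exact max_eq_left (by linarith)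
          change (max 0 (x.1 v - ((1 : unitInterval) : ℝ)) +
              wt c ((1 : unitInterval) : ℝ) (fy b x.1) v) /
            (∑ w, (max 0 (x.1 w - ((1 : unitInterval) : ℝ)) +
              wt c ((1 : unitInterval) : ℝ) (fy b x.1) w)) =
            wt c 1 (fy b x.1) v / ∑ w, wt c 1 (fy b x.1) w
          simp only [Set.Icc.coe_one, hle, zero_add]
      right_inv := by
        apply bd_line
        intro y i hi
        by_contra hne
        obtain ⟨v, hv, hv'⟩ := (fy_ne b (h y).1 (h y).2.1 i).1 hne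
        have h4 : wt c 1 y.1 v ≠ 0 := by
          intro h0
          apply hv'
          change wt c 1 y.1 v / _ = 0
          rw [h0, zero_div]
        obtain ⟨R, rfl, hR⟩ := (wt_ne _ _ _ _).1 h4
        obtain ⟨j, hj⟩ := R.2.2
        have h5 := ((lam_ne _ _ _).1 hR i (hc1 R i hv) j (Finset.mem_compl.1 hj)).2
        have h6 := y.2.1 j
        linarith }
  exact ⟨e1.trans (bdEquiv m)⟩

end nerve

end Pool.Agent.H2Z.WS
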