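import Mathlib

set_option autoImplicit false

/-! Weakly separated families: the islands and gaps of a pairwise weakly separated family never
exhaust the ground set. -/

namespace Pool.Agent.H2Z.WS

def Alt (I J : Finset ℕ) : Prop :=
  ∃ a b c d : ℕ, a < b ∧ b < c ∧ c < d ∧
    ((a ∈ I \ J ∧ b ∈ J \ I ∧ c ∈ I \ J ∧ d ∈ J \ I) ∨
     (a ∈ J \ I ∧ b ∈ I \ J ∧ c ∈ J \ I ∧ d ∈ I \ J))

theorem Alt.symm {I J : Finset ℕ} (h : Alt I J) : Alt J I := by
  obtain ⟨a, b, c, d, h1, h2, h3, h4⟩ := h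
  exact ⟨a, b, c, d, h1, h2, h3, h4.symm⟩

theorem alt_mk {I J : Finset ℕ} {a b c d : ℕ} (h1 : a < b) (h2 : b < c) (h3 : c < d)
    (a1 : a ∈ I) (a2 : a ∉ J) (b1 : b ∈ J) (b2 : b ∉ I) (c1 : c ∈ I) (c2 : c ∉ J)
    (d1 : d ∈ J) (d2 : d ∉ I) : Alt I J :=
  ⟨a, b, c, d, h1, h2, h3, Or.inl (by simp [*])⟩

def Isl (G : Finset ℕ) (q : ℕ) (J : Finset ℕ) (y : ℕ) : Prop :=
  y < q ∧ y ∈ J ∧ (∃ u ∈ G, u < y ∧ u ∉ J) ∧ ∃ v ∈ G, y < v ∧ v ≤ q ∧ v ∉ J

def Gap (q : ℕ) (J : Finset ℕ) (x : ℕ) : Prop :=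
  q < x ∧ x ∉ J ∧ (∃ u ∈ J, q ≤ u ∧ u < x) ∧ ∃ v ∈ J, x < v ∨ v = 0

def Bad (G : Finset ℕ) (q : ℕ) (J : Finset ℕ) (z : ℕ) : Prop := Isl G q J z ∨ Gap q J z

theorem two {I J : Finset ℕ} (hc : I.card = J.card) {a b c : ℕ} (hac : a ≠ c)
    (a1 : a ∈ I) (a2 : a ∉ J) (c1 : c ∈ I) (c2 : c ∉ J) (h : ∀ e ∈ J, e ∉ I → e = b) : False := by
  have h1 : (I \ J).card = (J \ I).card := by
    have := Finset.card_sdiff_add_card_inter I J
    have := Finset.card_sdiff_add_card_inter J I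
    rw [Finset.inter_comm J I] at this
    omega
  have h2 : (J \ I).card ≤ 1 := by
    rw [Finset.card_le_one]
    intro x hx y hy
    rw [Finset.mem_sdiff] at hx hy
    rw [h x hx.1 hx.2, h y hy.1 hy.2]
  have h3 : 1 < (I \ J).card :=
    Finset.one_lt_card.2 ⟨a, by simp [*], c, by simp [*], hac⟩
  omega

theorem alt_of_up {I J I' J' : Finset ℕ}
    (h1 : ∀ e ∈ I' \ J', ∃ e' ∈ I \ J, e ≤ e' ∧ ∀ b ∈ J' \ I', e < b → e' < b)
    (h2 : ∀ e ∈ J' \ I', ∃ e' ∈ J \ I, e ≤ e' ∧ ∀ b ∈ I' \ J', e < b → e' < b)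
    (h : Alt I' J') : Alt I J := by
  obtain ⟨a, b, c, d, hab, hbc, hcd, ⟨ha, hb, hc, hd⟩ | ⟨ha, hb, hc, hd⟩⟩ := h
  · obtain ⟨a', a1, a2, a3⟩ := h1 a ha
    obtain ⟨b', b1, b2, b3⟩ := h2 b hb
    obtain ⟨c', c1, c2, c3⟩ := h1 c hc
    obtain ⟨d', d1, d2, d3⟩ := h2 d hd
    exact ⟨a', b', c', d', (a3 b hb hab).trans_le b2, (b3 c hc hbc).trans_le c2,
      (c3 d hd hcd).trans_le d2, Or.inl ⟨a1, b1, c1, d1⟩⟩
  · obtain ⟨a', a1, a2, a3⟩ := h2 a ha
    obtain ⟨b', b1, b2, b3⟩ := h1 b hb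
    obtain ⟨c', c1, c2, c3⟩ := h2 c hc
    obtain ⟨d', d1, d2, d3⟩ := h1 d hd
    exact ⟨a', b', c', d', (a3 b hb hab).trans_le b2, (b3 c hc hbc).trans_le c2,
      (c3 d hd hcd).trans_le d2, Or.inr ⟨a1, b1, c1, d1⟩⟩

theorem alt_of_down {I J I' J' : Finset ℕ}
    (h1 : ∀ e ∈ I' \ J', ∃ e' ∈ I \ J, e' ≤ e ∧ ∀ b ∈ J' \ I', b < e → b < e')
    (h2 : ∀ e ∈ J' \ I', ∃ e' ∈ J \ I, e' ≤ e ∧ ∀ b ∈ I' \ J', b < e → b < e')
    (h : Alt I' J') : Alt I J := by
  obtain ⟨a, b, c, d, hab, hbc, hcd, ⟨ha, hb, hc, hd⟩ | ⟨ha, hb, hc, hd⟩⟩ := h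
  · obtain ⟨a', a1, a2, a3⟩ := h1 a ha
    obtain ⟨b', b1, b2, b3⟩ := h2 b hb
    obtain ⟨c', c1, c2, c3⟩ := h1 c hc
    obtain ⟨d', d1, d2, d3⟩ := h2 d hd
    exact ⟨a', b', c', d', a2.trans_lt (b3 a ha hab), b2.trans_lt (c3 b hb hbc),
      c2.trans_lt (d3 c hc hcd), Or.inl ⟨a1, b1, c1, d1⟩⟩
  · obtain ⟨a', a1, a2, a3⟩ := h2 a ha
    obtain ⟨b', b1, b2, b3⟩ := h1 b hb
    obtain ⟨c', c1, c2, c3⟩ := h2 c hc
    obtain ⟨d', d1, d2, d3⟩ := h1 d hd
    exact ⟨a', b', c', d', a2.trans_lt (b3 a ha hab), b2.trans_lt (c3 b hb hbc),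
      c2.trans_lt (d3 c hc hcd), Or.inr ⟨a1, b1, c1, d1⟩⟩

/-- deletion of `x`, the element being pushed down to the nearest hole -/
def RelA (G : Finset ℕ) (x : ℕ) (J J' : Finset ℕ) : Prop :=
  (x ∉ J ∧ J' = J) ∨
    (x ∈ J ∧ ∃ w ∈ G, w < x ∧ w ∉ J ∧ (∀ e ∈ G, w < e → e < x → e ∈ J) ∧
      J' = insert w (J.erase x))

theorem relA_half {G : Finset ℕ} {x : ℕ} {I J I' J' : Finset ℕ} (hJ : J ⊆ G)
    (rI : RelA G x I I') (rJ : RelA G x J J') :
    ∀ e ∈ I' \ J', ∃ e' ∈ I \ J, e ≤ e' ∧ ∀ b ∈ J' \ I', e < b → e' < b := by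
  intro e he
  rcases rI with ⟨i1, rfl⟩ | ⟨i1, wI, i2, i3, i4, i5, rfl⟩ <;>
    rcases rJ with ⟨j1, rfl⟩ | ⟨j1, wJ, j2, j3, j4, j5, rfl⟩
  · exact ⟨e, he, le_rfl, fun b _ h => h⟩
  · refine ⟨e, ?_, le_rfl, fun b _ h => h⟩
    grind
  · by_cases hw : e = wI
    · refine ⟨x, by grind, by omega, fun b hb h => ?_⟩
      have := hJ (Finset.mem_sdiff.1 hb).1
      grind
    · exact ⟨e, by grind, le_rfl, fun b _ h => h⟩
  · by_cases hw : e = wI
    · have hlt : wI < wJ := by grind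
      refine ⟨wJ, by grind, by omega, fun b hb h => ?_⟩
      have : b ∈ G := by
        rcases Finset.mem_insert.1 (Finset.mem_sdiff.1 hb).1 with h | h
        · rw [h]; exact j2
        · exact hJ (Finset.mem_of_mem_erase h)
      grind
    · exact ⟨e, by grind, le_rfl, fun b _ h => h⟩

/-- contraction of `y`, the nearest element above being removed instead when `y` is absent -/
def RelB (y : ℕ) (J J' : Finset ℕ) : Prop :=
  (y ∈ J ∧ J' = J.erase y) ∨
    (y ∉ J ∧ ∃ w ∈ J, y < w ∧ (∀ e ∈ J, y < e → w ≤ e) ∧ J' = J.erase w)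

theorem relB_half {y : ℕ} {I J I' J' : Finset ℕ}
    (rI : RelB y I I') (rJ : RelB y J J') :
    ∀ e ∈ I' \ J', ∃ e' ∈ I \ J, e' ≤ e ∧ ∀ b ∈ J' \ I', b < e → b < e' := by
  intro e he
  rcases rI with ⟨i1, rfl⟩ | ⟨i1, wI, i2, i3, i4, rfl⟩ <;>
    rcases rJ with ⟨j1, rfl⟩ | ⟨j1, wJ, j2, j3, j4, rfl⟩
  · exact ⟨e, by grind, le_rfl, fun b _ h => h⟩
  · by_cases hw : e = wJ
    · exact ⟨y, by grind, by omega, fun b hb h => by grind⟩
    · exact ⟨e, by grind, le_rfl, fun b _ h => h⟩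
  · exact ⟨e, by grind, le_rfl, fun b _ h => h⟩
  · by_cases hw : e = wJ
    · have hlt : wI < wJ := by grind
      exact ⟨wI, by grind, by omega, fun b hb h => by grind⟩
    · exact ⟨e, by grind, le_rfl, fun b _ h => h⟩

theorem cover (N : ℕ) : ∀ (G : Finset ℕ) (q : ℕ), G.card = N → 0 ∈ G → q ∈ G → 0 < q → 3 ≤ N →
    ∀ C : Set (Finset ℕ), (∀ J ∈ C, J ⊆ G ∧ J.card = (G.filter (· < q)).card) →
      (∀ I ∈ C, ∀ J ∈ C, ¬ Alt I J) → ∃ z ∈ G, z ≠ 0 ∧ z ≠ q ∧ ∀ J ∈ C, ¬ Bad G q J z := by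
  induction N with
  | zero => intro G q _ _ _ _ h; omega
  | succ N ih =>
  intro G q hG h0 hq hq0 h3 C hC hA
  by_contra hall
  push Not at hall
  have hcc : ∀ I ∈ C, ∀ J ∈ C, I.card = J.card := fun I hI J hJ => by
    rw [(hC I hI).2, (hC J hJ).2]
  have hex : ∃ z ∈ G, z ≠ 0 ∧ z ≠ q := by
    by_contra hne
    have : G ⊆ {0, q} := by intro z hz; grind
    have h1 := Finset.card_le_card this
    have h2 : ({0, q} : Finset ℕ).card ≤ 2 := Finset.card_le_two
    omega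
  by_cases hY : (G.filter fun y => 0 < y ∧ y < q).Nonempty
  swap
  · obtain ⟨z, z1, z2, z3⟩ := hex
    have hY' : ∀ y ∈ G, y < q → y = 0 := by
      intro y hy hyq
      by_contra hne
      exact hY ⟨y, Finset.mem_filter.2 ⟨hy, by omega, hyq⟩⟩
    obtain ⟨J, hJ, hb | hb⟩ := hall z z1 z2 z3
    · exact z2 (hY' z z1 hb.1)
    · obtain ⟨b1, b2, ⟨u, u1, u2, u3⟩, v, v1, v2⟩ := hb
      have h1 : (G.filter (· < q)).card ≤ 1 := by
        rw [Finset.card_le_one]
        intro a ha b hb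
        rw [Finset.mem_filter] at ha hb
        rw [hY' a ha.1 ha.2, hY' b hb.1 hb.2]
      have h2 : 1 < J.card := Finset.one_lt_card.2 ⟨u, u1, v, v1, by omega⟩
      have := (hC J hJ).2
      omega
  by_cases hX : (G.filter fun x => q < x).Nonempty
  swap
  · obtain ⟨z, z1, z2, z3⟩ := hex
    have hX' : ∀ x ∈ G, x ≤ q := by
      intro x hx
      by_contra hne
      exact hX ⟨x, Finset.mem_filter.2 ⟨hx, by omega⟩⟩
    obtain ⟨J, hJ, hb | hb⟩ := hall z z1 z2 z3
    · obtain ⟨b1, b2, ⟨u, u1, u2, u3⟩, v, v1, v2, v3, v4⟩ := hb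
      have h1 : G.filter (· < q) = G.erase q := by
        ext a
        have := hX' a
        grind
      have h2 : J ⊆ (G.erase u).erase v := by
        intro a ha
        have := (hC J hJ).1 ha
        grind
      have h4 := Finset.card_le_card h2
      rw [Finset.card_erase_of_mem (by grind), Finset.card_erase_of_mem u1] at h4
      have h5 := (hC J hJ).2
      rw [h1, Finset.card_erase_of_mem hq] at h5
      omega
    · have := hX' z z1
      have := hb.1
      omega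
  obtain ⟨y1, hy1, hy2⟩ := Finset.exists_max_image _ id hY
  obtain ⟨x1, hx1, hx2⟩ := Finset.exists_min_image _ id hX
  simp only [Finset.mem_filter, id] at hy1 hy2 hx1 hx2
  have h4 : 3 ≤ N := by
    have : ({0, y1, q, x1} : Finset ℕ) ⊆ G := by intro a ha; grind
    have h1 := Finset.card_le_card this
    rw [Finset.card_insert_of_notMem (by grind), Finset.card_insert_of_notMem (by grind),
      Finset.card_pair (by omega)] at h1
    omega
  have hdi : (¬ ∃ J ∈ C, y1 ∈ J ∧ q ∉ J ∧ x1 ∈ J) ∨ ¬ ∃ J ∈ C, y1 ∉ J ∧ q ∈ J ∧ x1 ∉ J := by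
    by_contra hne
    rw [not_or, not_not, not_not] at hne
    obtain ⟨⟨J, hJ, j1, j2, j3⟩, ⟨K, hK, k1, k2, k3⟩⟩ := hne
    refine two (hcc J hJ K hK) (a := y1) (c := x1) (b := q) (by omega) j1 k1 j3 k3 ?_
    intro e e1 e2
    by_contra hne
    have eG := (hC K hK).1 e1
    have : e < y1 ∨ x1 < e := by grind
    rcases this with h | h
    · exact hA K hK J hJ (alt_mk h hy1.2.2 hx1.2 e1 e2 j1 k1 k2 j2 j3 k3)
    · exact hA J hJ K hK (alt_mk hy1.2.2 hx1.2 h j1 k1 k2 j2 j3 k3 e1 e2)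
  rcases hdi with hdi | hdi
  · -- delete x1
    have hrel : ∀ J ∈ C, ∃ J', RelA G x1 J J' := by
      intro J hJ
      by_cases hx : x1 ∈ J
      swap
      · exact ⟨J, Or.inl ⟨hx, rfl⟩⟩
      have hne : (G.filter fun u => u < x1 ∧ u ∉ J).Nonempty := by
        by_contra hne
        have h1 : insert q (G.filter (· < q)) ⊆ J := by
          intro a ha
          by_contra haJ
          exact hne ⟨a, by grind⟩
        have h2 := Finset.card_le_card h1
        rw [Finset.card_insert_of_notMem (by simp), (hC J hJ).2] at h2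
        omega
      obtain ⟨w, w1, w2⟩ := Finset.exists_max_image _ id hne
      simp only [Finset.mem_filter, id] at w1 w2
      refine ⟨_, Or.inr ⟨hx, w, w1.1, w1.2.1, w1.2.2, ?_, rfl⟩⟩
      intro e e1 e2 e3
      by_contra e4
      have := w2 e ⟨e1, e3, e4⟩
      omega
    obtain ⟨z, z1, z2, z3, z4⟩ := ih (G.erase x1) q
      (by rw [Finset.card_erase_of_mem hx1.1]; omega) (by grind) (by grind) hq0 h4
      {J' | ∃ J ∈ C, RelA G x1 J J'}
      (by
        rintro J' ⟨J, hJ, hr⟩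
        have e1 : (G.erase x1).filter (· < q) = G.filter (· < q) := by ext a; grind
        have e2 := hC J hJ
        rw [e1]
        rcases hr with ⟨i1, rfl⟩ | ⟨i1, w, i2, i3, i4, i5, rfl⟩
        · exact ⟨fun a ha => by have := e2.1 ha; grind, e2.2⟩
        · refine ⟨fun a ha => ?_, ?_⟩
          · rcases Finset.mem_insert.1 ha with h | h
            · grind
            · have := e2.1 (Finset.mem_of_mem_erase h); grind
          · rw [Finset.card_insert_of_notMem (by grind), Finset.card_erase_of_mem i1, ← e2.2]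
            have := Finset.card_pos.2 ⟨x1, i1⟩
            omega)
      (by
        rintro I' ⟨I, hI, rI⟩ J' ⟨J, hJ, rJ⟩ h
        exact hA I hI J hJ (alt_of_up (relA_half (hC J hJ).1 rI rJ)
          (relA_half (hC I hI).1 rJ rI) h))
    rw [Finset.mem_erase] at z1
    obtain ⟨J, hJ, hb | hb⟩ := hall z z1.2 z2 z3
    · -- island
      have key : ∀ L ∈ C, Isl G q L z → x1 ∈ L ∧
          ∀ v ∈ G, z < v → v ≤ q → v ∉ L → ∀ v' ∈ G, z < v' → v' ≤ q → v' ∉ L → v = v' := by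
        intro L hL hi
        obtain ⟨L', rL⟩ := hrel L hL
        have hn : ¬ Isl (G.erase x1) q L' z := fun h => z4 L' ⟨L, hL, rL⟩ (Or.inl h)
        obtain ⟨b1, b2, ⟨u, u1, u2, u3⟩, v, v1, v2, v3, v4⟩ := hi
        rcases rL with ⟨i1, rfl⟩ | ⟨i1, w, i2, i3, i4, i5, rfl⟩
        · exact absurd ⟨b1, b2, ⟨u, by grind, u2, u3⟩, v, by grind, v2, v3, v4⟩ hn
        · refine ⟨i1, ?_⟩
          have hvw : v ≤ w := by grind
          have : ∀ v ∈ G, z < v → v ≤ q → v ∉ L → v = w := by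
            intro a a1 a2 a3 a4
            by_contra hne
            exact hn ⟨b1, by grind, ⟨u, by grind, u2, by grind⟩, a, by grind, a2, a3, by grind⟩
          intro a a1 a2 a3 a4 b b1 b2 b3 b4
          rw [this a a1 a2 a3 a4, this b b1 b2 b3 b4]
      have fin : ∀ t, ∀ L ∈ C, Isl G q L z → ∀ v ∈ G, z < v → v ≤ q → v ∉ L → q - v = t →
          False := by
        intro t
        induction t using Nat.strong_induction_on with
        | _ t iht =>
        intro L hL hi v v1 v2 v3 v4 v5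
        obtain ⟨k1, k2⟩ := key L hL hi
        have k3 : ∀ a ∈ G, z ≤ a → a ≤ q → a ≠ v → a ∈ L := by
          intro a a1 a2 a3 a4
          rcases eq_or_lt_of_le a2 with h | h
          · rw [← h]; exact hi.2.1
          · by_contra a5
            exact a4 (k2 a a1 h a3 a5 v v1 v2 v3 v4)
        rcases eq_or_lt_of_le v3 with h | h
        · have := hy2 z ⟨z1.2, by omega, hi.1⟩
          exact hdi ⟨L, hL, k3 y1 hy1.1 this (by omega) (by omega), h ▸ v4, k1⟩
        obtain ⟨M, hM, hb | hb⟩ := hall v v1 (by omega) (by omega)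
        swap
        · have := hb.1; omega
        obtain ⟨b1, b2, ⟨u, u1, u2, u3⟩, s, s1, s2, s3, s4⟩ := hb
        have s5 : s ∈ L := k3 s s1 (by omega) s3 (by omega)
        have k4 : ∀ e ∈ G, z ≤ e → e < v → e ∈ M := by
          intro e e1 e2 e3
          by_contra e4
          have e5 : e ∈ L := k3 e e1 e2 (by omega) (by omega)
          refine two (hcc L hL M hM) (a := e) (c := s) (b := v) (by omega) e5 e4 s5 s4 ?_
          intro f f1 f2
          by_contra f3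
          have fG := (hC M hM).1 f1
          have : f < z ∨ q < f := by
            by_contra hn
            exact f2 (k3 f fG (by omega) (by omega) f3)
          rcases this with h' | h'
          · exact hA M hM L hL (alt_mk (by omega) e3 s2 f1 f2 e5 e4 b2 v4 s5 s4)
          · exact hA L hL M hM (alt_mk e3 s2 (by omega) e5 e4 b2 v4 s5 s4 f1 f2)
        have u4 : u < z := by
          by_contra hn
          exact u3 (k4 u u1 (by omega) u2)
        exact iht (q - s) (by omega) M hM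
          ⟨hi.1, k4 z z1.2 le_rfl v2, ⟨u, u1, u4, u3⟩, s, s1, by omega, s3, s4⟩ s s1 (by omega)
          s3 s4 rfl
      obtain ⟨v, v1, v2, v3, v4⟩ := hb.2.2.2
      exact fin _ J hJ hb v v1 v2 v3 v4 rfl
    · obtain ⟨J', rJ⟩ := hrel J hJ
      refine z4 J' ⟨J, hJ, rJ⟩ (Or.inr ?_)
      rcases rJ with ⟨i1, rfl⟩ | ⟨i1, w, i2, i3, i4, i5, rfl⟩
      · exact hb
      obtain ⟨b1, b2, ⟨u, u1, u2, u3⟩, v, v1, v2⟩ := hb
      have := hx2 z ⟨z1.2, b1⟩
      refine ⟨b1, by grind, ?_, v, by grind, v2⟩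
      by_cases hu : u = x1
      · by_cases hw : w < q
        · exact ⟨q, by grind, le_rfl, b1⟩
        · exact ⟨w, by grind, by omega, by omega⟩
      · exact ⟨u, by grind, u2, u3⟩
  · -- contract y1
    have hrel : ∀ J ∈ C, ∃ J', RelB y1 J J' := by
      intro J hJ
      by_cases hy : y1 ∈ J
      · exact ⟨_, Or.inl ⟨hy, rfl⟩⟩
      have hne : (J.filter fun u => y1 < u).Nonempty := by
        by_contra hne
        have h1 : J ⊆ (G.filter (· < q)).erase y1 := by
          intro a ha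
          have aG := (hC J hJ).1 ha
          have : ¬ y1 < a := fun h => hne ⟨a, Finset.mem_filter.2 ⟨ha, h⟩⟩
          grind
        have h2 := Finset.card_le_card h1
        have h5 : y1 ∈ G.filter (· < q) := by grind
        rw [Finset.card_erase_of_mem h5, (hC J hJ).2] at h2
        have := Finset.card_pos.2 ⟨y1, h5⟩
        omega
      obtain ⟨w, w1, w2⟩ := Finset.exists_min_image _ id hne
      simp only [Finset.mem_filter, id] at w1 w2
      exact ⟨_, Or.inr ⟨hy, w, w1.1, w1.2, fun e e1 e2 => w2 e ⟨e1, e2⟩, rfl⟩⟩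
    have hge : ∀ a ∈ G, y1 < a → q ≤ a := by
      intro a a1 a2
      by_contra hn
      have := hy2 a ⟨a1, by omega, by omega⟩
      omega
    obtain ⟨z, z1, z2, z3, z4⟩ := ih (G.erase y1) q
      (by rw [Finset.card_erase_of_mem hy1.1]; omega) (by grind) (by grind) hq0 h4
      {J' | ∃ J ∈ C, RelB y1 J J'}
      (by
        rintro J' ⟨J, hJ, hr⟩
        have e1 : (G.erase y1).filter (· < q) = (G.filter (· < q)).erase y1 := by ext a; grind
        have e2 := hC J hJ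
        rw [e1, Finset.card_erase_of_mem (by grind), ← e2.2]
        rcases hr with ⟨i1, rfl⟩ | ⟨i1, w, i2, i3, i4, rfl⟩
        · exact ⟨fun a ha => by have := e2.1 (Finset.mem_of_mem_erase ha); grind,
            Finset.card_erase_of_mem i1⟩
        · exact ⟨fun a ha => by have := e2.1 (Finset.mem_of_mem_erase ha); grind,
            Finset.card_erase_of_mem i2⟩)
      (by
        rintro I' ⟨I, hI, rI⟩ J' ⟨J, hJ, rJ⟩ h
        exact hA I hI J hJ (alt_of_down (relB_half rI rJ) (relB_half rJ rI) h))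
    rw [Finset.mem_erase] at z1
    obtain ⟨J, hJ, hb | hb⟩ := hall z z1.2 z2 z3
    · obtain ⟨J', rJ⟩ := hrel J hJ
      refine z4 J' ⟨J, hJ, rJ⟩ (Or.inl ?_)
      obtain ⟨b1, b2, ⟨u, u1, u2, u3⟩, v, v1, v2, v3, v4⟩ := hb
      have := hy2 z ⟨z1.2, by omega, b1⟩
      rcases rJ with ⟨i1, rfl⟩ | ⟨i1, w, i2, i3, i4, rfl⟩
      · exact ⟨b1, by grind, ⟨u, by grind, u2, by grind⟩, v, by grind, v2, v3, by grind⟩
      · refine ⟨b1, by grind, ⟨u, by grind, u2, by grind⟩, ?_⟩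
        by_cases hv : v = y1
        · refine ⟨q, by grind, b1, le_rfl, fun h => ?_⟩
          rw [Finset.mem_erase] at h
          have h1 := i4 q h.2 hy1.2.2
          have h2 := hge w ((hC J hJ).1 i2) i3
          omega
        · exact ⟨v, by grind, v2, v3, by grind⟩
    · have key : ∀ L ∈ C, Gap q L z → y1 ∉ L ∧
          ∀ u ∈ L, q ≤ u → u < z → ∀ u' ∈ L, q ≤ u' → u' < z → u = u' := by
        intro L hL hi
        obtain ⟨L', rL⟩ := hrel L hL
        have hn : ¬ Gap q L' z := fun h => z4 L' ⟨L, hL, rL⟩ (Or.inr h)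
        obtain ⟨b1, b2, ⟨u, u1, u2, u3⟩, v, v1, v2⟩ := hi
        rcases rL with ⟨i1, rfl⟩ | ⟨i1, w, i2, i3, i4, rfl⟩
        · exact absurd ⟨b1, by grind, ⟨u, by grind, u2, u3⟩, v, by grind, v2⟩ hn
        · refine ⟨i1, ?_⟩
          have hvw : w ≤ u := i4 u u1 (by omega)
          have : ∀ a ∈ L, q ≤ a → a < z → a = w := by
            intro a a1 a2 a3
            by_contra hne
            exact hn ⟨b1, by grind, ⟨a, by grind, a2, a3⟩, v, by grind, v2⟩
          intro a a1 a2 a3 b b1 b2 b3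
          rw [this a a1 a2 a3, this b b1 b2 b3]
      have fin : ∀ u, ∀ L ∈ C, Gap q L z → u ∈ L → q ≤ u → u < z → False := by
        intro u
        induction u using Nat.strong_induction_on with
        | _ u iht =>
        intro L hL hi u1 u2 u3
        obtain ⟨k1, k2⟩ := key L hL hi
        have k3 : ∀ a, q ≤ a → a ≤ z → a ≠ u → a ∉ L := by
          intro a a2 a3 a4 a5
          rcases eq_or_lt_of_le a3 with h | h
          · rw [h] at a5; exact hi.2.1 a5
          · exact a4 (k2 a a5 a2 h u u1 u2 u3)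
        rcases eq_or_lt_of_le u2 with h | h
        · have := hx2 z ⟨z1.2, hi.1⟩
          exact hdi ⟨L, hL, k1, h ▸ u1, k3 x1 (by omega) this (by omega)⟩
        obtain ⟨M, hM, hb | hb⟩ := hall u ((hC L hL).1 u1) (by omega) (by omega)
        · have := hb.1; omega
        obtain ⟨b1, b2, ⟨s, s1, s2, s3⟩, v, v1, v2⟩ := hb
        have s5 : s ∉ L := k3 s s2 (by omega) (by omega)
        have k4 : ∀ e, u < e → e ≤ z → e ∉ M := by
          intro e e2 e3 e4
          have e5 : e ∉ L := k3 e (by omega) e3 (by omega)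
          refine two (hcc M hM L hL) (a := s) (c := e) (b := u) (by omega) s1 s5 e4 e5 ?_
          intro f f1 f2
          by_contra f3
          have : f < q ∨ z < f := by
            by_contra hn
            exact k3 f (by omega) (by omega) f3 f1
          rcases this with h' | h'
          · exact hA L hL M hM (alt_mk (by omega) s3 e2 f1 f2 s1 s5 u1 b2 e4 e5)
          · exact hA M hM L hL (alt_mk s3 e2 (by omega) s1 s5 u1 b2 e4 e5 f1 f2)
        have v3 : z < v ∨ v = 0 := by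
          by_contra hn
          exact k4 v (by omega) (by omega) v1
        exact iht s s3 M hM ⟨hi.1, k4 z u3 le_rfl, ⟨s, s1, s2, by omega⟩, v, v1, v3⟩ s1 s2
          (by omega)
      obtain ⟨u, u1, u2, u3⟩ := hb.2.2.1
      exact fin u J hJ hb u1 u2 u3

end Pool.Agent.H2Z.WS
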