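import Pool.Agent.H2Z.WSb

set_option autoImplicit false

/-! Cyclic intervals are the sets without islands and gaps; cone points of the fibres. -/

namespace Pool.Agent.H2Z.WS

theorem mem_cyc {n k i m : ℕ} (hi : i < n) (hk : k ≤ n) :
    m ∈ (Finset.range k).image (fun j => (i + j) % n) ↔
      m < n ∧ ((i ≤ m ∧ m < i + k) ∨ m + n < i + k) := by
  simp only [Finset.mem_image, Finset.mem_range]
  constructor
  · rintro ⟨j, hj, rfl⟩
    by_cases h : i + j < n
    · rw [Nat.mod_eq_of_lt h]; omega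
    · have : (i + j) % n = i + j - n := by
        rw [Nat.mod_eq_sub_mod (by omega), Nat.mod_eq_of_lt (by omega)]
      rw [this]; omega
  · rintro ⟨h1, h2 | h2⟩
    · exact ⟨m - i, by omega, by rw [Nat.add_sub_cancel' h2.1, Nat.mod_eq_of_lt h1]⟩
    · refine ⟨m + n - i, by omega, ?_⟩
      rw [Nat.add_sub_cancel' (by omega), Nat.add_mod_right, Nat.mod_eq_of_lt h1]

theorem cyc_not_bad {n k i z : ℕ} (hi : i < n) (hk : k ≤ n) (hz : z < n) :
    ¬ Bad (Finset.range n) k ((Finset.range k).image (fun j => (i + j) % n)) z := by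
  rintro (⟨b1, b2, ⟨u, u1, u2, u3⟩, v, v1, v2, v3, v4⟩ | ⟨b1, b2, ⟨u, u1, u2, u3⟩, v, v1, v2⟩)
  · rw [mem_cyc hi hk] at b2 u3 v4
    rw [Finset.mem_range] at u1 v1
    omega
  · rw [mem_cyc hi hk] at b2 u1 v1
    omega

theorem cyc_of_not_bad {n k : ℕ} (hk0 : 0 < k) (hk : k < n) {J : Finset ℕ}
    (hJ : J ⊆ Finset.range n) (hc : J.card = k)
    (hb : ∀ z, z < n → ¬ Bad (Finset.range n) k J z) :
    ∃ i, i < n ∧ J = (Finset.range k).image (fun j => (i + j) % n) := by
  have hlt : ∀ a ∈ J, a < n := fun a ha => Finset.mem_range.1 (hJ ha)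
  have hI : ∀ y u v, y < k → y ∈ J → u < y → u ∉ J → y < v → v ≤ k → v ∉ J → False :=
    fun y u v h1 h2 h3 h4 h5 h6 h7 => hb y (by omega) (Or.inl ⟨h1, h2,
      ⟨u, Finset.mem_range.2 (by omega), h3, h4⟩, v, Finset.mem_range.2 (by omega), h5, h6, h7⟩)
  have hG : ∀ x u v, x < n → k < x → x ∉ J → u ∈ J → k ≤ u → u < x → v ∈ J → (x < v ∨ v = 0) →
      False :=
    fun x u v h0 h1 h2 h3 h4 h5 h6 h7 => hb x h0 (Or.inr ⟨h1, h2, ⟨u, h3, h4, h5⟩, v, h6, h7⟩)
  by_cases h0 : 0 ∈ J
  · have hne : (Finset.range n \ J).Nonempty := by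
      rw [← Finset.card_pos, Finset.card_sdiff_of_subset hJ, Finset.card_range]; omega
    obtain ⟨a, a1, a2⟩ := Finset.exists_min_image _ id hne
    obtain ⟨b, b1, b2⟩ := Finset.exists_max_image _ id hne
    simp only [Finset.mem_sdiff, Finset.mem_range, id] at a1 a2 b1 b2
    have h1 : Finset.range n \ J = Finset.Icc a b := by
      ext m
      simp only [Finset.mem_sdiff, Finset.mem_range, Finset.mem_Icc]
      refine ⟨fun h => ⟨a2 m h, b2 m h⟩, fun h => ⟨by omega, fun hm => ?_⟩⟩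
      have ham : a ≠ m := fun e => a1.2 (e ▸ hm)
      have hbm : b ≠ m := fun e => b1.2 (e ▸ hm)
      by_cases hmk : m < k
      · by_cases hkJ : k ∈ J
        · by_cases hbk : b ≤ k
          · exact hI m a b hmk hm (by omega) a1.2 (by omega) hbk b1.2
          · exact hG b k 0 b1.1 (by omega) b1.2 hkJ le_rfl (by omega) h0 (Or.inr rfl)
        · exact hI m a k hmk hm (by omega) a1.2 hmk le_rfl hkJ
      · exact hG b m 0 b1.1 (by omega) b1.2 hm (by omega) (by omega) h0 (Or.inr rfl)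
    have h2 := congrArg Finset.card h1
    rw [Finset.card_sdiff_of_subset hJ, Finset.card_range, Nat.card_Icc, hc] at h2
    have h3 : ∀ m, m ∈ J ↔ m < n ∧ ¬ (a ≤ m ∧ m ≤ b) := by
      intro m
      have := Finset.ext_iff.1 h1 m
      simp only [Finset.mem_sdiff, Finset.mem_range, Finset.mem_Icc] at this
      have := hlt m
      tauto
    have ha0 : a ≠ 0 := fun e => a1.2 (e ▸ h0)
    by_cases hb : b + 1 < n
    · refine ⟨b + 1, hb, ?_⟩
      ext m
      rw [mem_cyc hb hk.le, h3]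
      omega
    · refine ⟨0, by omega, ?_⟩
      ext m
      rw [mem_cyc (by omega) hk.le, h3]
      omega
  · have hne : J.Nonempty := by rw [← Finset.card_pos]; omega
    obtain ⟨a, a1, a2⟩ := Finset.exists_min_image _ id hne
    obtain ⟨b, b1, b2⟩ := Finset.exists_max_image _ id hne
    simp only [id] at a2 b2
    have ha0 : a ≠ 0 := fun e => h0 (e ▸ a1)
    have hbn := hlt b b1
    have h1 : J = Finset.Icc a b := by
      ext m
      simp only [Finset.mem_Icc]
      refine ⟨fun h => ⟨a2 m h, b2 m h⟩, fun h => ?_⟩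
      by_contra hm
      have ham : a ≠ m := fun e => hm (e ▸ a1)
      have hbm : b ≠ m := fun e => hm (e ▸ b1)
      by_cases hmk : m ≤ k
      · exact hI a 0 m (by omega) a1 (by omega) h0 (by omega) hmk hm
      · by_cases hkJ : k ∈ J
        · exact hG m k b (by omega) (by omega) hm hkJ le_rfl (by omega) b1 (by omega)
        · by_cases hak : k ≤ a
          · exact hG m a b (by omega) (by omega) hm a1 hak (by omega) b1 (by omega)
          · exact hI a 0 k (by omega) a1 (by omega) h0 (by omega) le_rfl hkJ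
    have h2 := congrArg Finset.card h1
    rw [Nat.card_Icc, hc] at h2
    refine ⟨a, hlt a a1, ?_⟩
    ext m
    rw [mem_cyc (hlt a a1) hk.le, h1, Finset.mem_Icc]
    omega

theorem not_alt_cone {n k : ℕ} (hk : k < n) (D : ℕ → Prop) {J K : Finset ℕ}
    (hK : K ⊆ Finset.range n)
    (h1 : ∀ y, 0 < y → y < k → ¬ D y → y ∈ K) (h2 : ∀ x, k < x → ¬ D x → x ∉ K)
    (hb : ∀ z, z < n → D z → ¬ Bad (Finset.range n) k J z) : ¬ Alt K J := by
  have hI : ∀ y u v, y < k → y ∈ J → y ∉ K → u < y → u ∉ J → y < v → v ≤ k → v ∉ J → False := by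
    intro y u v a1 a2 a0 a3 a4 a5 a6 a7
    have : D y := by by_contra hn; exact a0 (h1 y (by omega) a1 hn)
    exact hb y (by omega) this (Or.inl ⟨a1, a2,
      ⟨u, Finset.mem_range.2 (by omega), a3, a4⟩, v, Finset.mem_range.2 (by omega), a5, a6, a7⟩)
  have hG : ∀ x u v, k < x → x ∉ J → x ∈ K → u ∈ J → k ≤ u → u < x → v ∈ J →
      (x < v ∨ v = 0) → False := by
    intro x u v a1 a2 a0 a3 a4 a5 a6 a7
    have : D x := by by_contra hn; exact h2 x a1 hn a0
    exact hb x (Finset.mem_range.1 (hK a0)) this (Or.inr ⟨a1, a2, ⟨u, a3, a4, a5⟩, v, a6, a7⟩)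
  rintro ⟨a, b, c, d, hab, hbc, hcd, ⟨ha, hb, hc, hd⟩ | ⟨ha, hb, hc, hd⟩⟩ <;>
    rw [Finset.mem_sdiff] at ha hb hc hd
  · by_cases c1 : c ≤ k
    · exact hI b a c (by omega) hb.1 hb.2 hab ha.2 hbc c1 hc.2
    by_cases c2 : k ≤ b
    · exact hG c b d (by omega) hc.2 hc.1 hb.1 c2 hbc hd.1 (Or.inl hcd)
    by_cases c3 : k ∈ J
    · exact hG c k d (by omega) hc.2 hc.1 c3 le_rfl (by omega) hd.1 (Or.inl hcd)
    · exact hI b a k (by omega) hb.1 hb.2 hab ha.2 (by omega) le_rfl c3
  · by_cases c1 : d ≤ k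
    · exact hI c b d (by omega) hc.1 hc.2 hbc hb.2 hcd c1 hd.2
    have h0 : 0 ∉ J := by
      intro h0
      by_cases c2 : k ≤ c
      · exact hG d c 0 (by omega) hd.2 hd.1 hc.1 c2 hcd h0 (Or.inr rfl)
      by_cases c3 : k ∈ J
      · exact hG d k 0 (by omega) hd.2 hd.1 c3 le_rfl (by omega) h0 (Or.inr rfl)
      · exact hI c b k (by omega) hc.1 hc.2 hbc hb.2 (by omega) le_rfl c3
    have ha0 : a ≠ 0 := fun e => h0 (e ▸ ha.1)
    by_cases c2 : b ≤ k
    · exact hI a 0 b (by omega) ha.1 ha.2 (by omega) h0 hab c2 hb.2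
    by_cases c3 : k ≤ a
    · exact hG b a c (by omega) hb.2 hb.1 ha.1 c3 hab hc.1 (Or.inl hbc)
    by_cases c4 : k ∈ J
    · exact hG b k c (by omega) hb.2 hb.1 c4 le_rfl (by omega) hc.1 (Or.inl hbc)
    · exact hI a 0 k (by omega) ha.1 ha.2 (by omega) h0 (by omega) le_rfl c4

theorem lower_set (F : Finset ℕ) (ω : ℕ → ℕ) (m : ℕ) (hm : m ≤ F.card) :
    ∃ M, M ⊆ F ∧ M.card = m ∧ ∀ x ∈ M, ∀ y ∈ F, ω y < ω x → y ∈ M := by
  induction m with
  | zero => exact ⟨∅, by simp, rfl, by simp⟩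
  | succ m ih =>
    obtain ⟨M, m1, m2, m3⟩ := ih (by omega)
    have hne : (F \ M).Nonempty := by
      rw [← Finset.card_pos, Finset.card_sdiff_of_subset m1]; omega
    obtain ⟨a, a1, a2⟩ := Finset.exists_min_image _ ω hne
    rw [Finset.mem_sdiff] at a1
    refine ⟨insert a M, Finset.insert_subset a1.1 m1, by rw [Finset.card_insert_of_notMem a1.2, m2],
      ?_⟩
    intro x hx y hy h
    rcases Finset.mem_insert.1 hx with rfl | hx
    · by_contra hn
      have := a2 y (Finset.mem_sdiff.2 ⟨hy, fun h' => hn (Finset.mem_insert_of_mem h')⟩)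
      omega
    · exact Finset.mem_insert_of_mem (m3 x hx y hy h)

theorem exists_cone {n k : ℕ} (hk : 2 ≤ k) (hn : k + 2 ≤ n) (D : ℕ → Prop)
    (hD1 : ∃ z, z < n ∧ z ≠ 0 ∧ z ≠ k ∧ D z) (hD2 : ∃ z, z < n ∧ z ≠ 0 ∧ z ≠ k ∧ ¬ D z) :
    ∃ K : Finset ℕ, K ⊆ Finset.range n ∧ K.card = k ∧
      (∀ y, 0 < y → y < k → ¬ D y → y ∈ K) ∧ (∀ x, k < x → ¬ D x → x ∉ K) ∧
      (∀ z, z < n → D z → ¬ Bad (Finset.range n) k K z) ∧
      ∃ r, r < n ∧ Bad (Finset.range n) k K r := by
  classical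
  obtain ⟨T, R, S, E, mT, mR, mS, mE, cTR, cE⟩ : ∃ T R S E : Finset ℕ,
      (∀ a, a ∈ T ↔ 0 < a ∧ a < k ∧ D a) ∧ (∀ a, a ∈ R ↔ 0 < a ∧ a < k ∧ ¬ D a) ∧
      (∀ a, a ∈ S ↔ k < a ∧ a < n ∧ D a) ∧
      (∀ a, a ∈ E ↔ a < n ∧ (a = 0 ∨ a = k ∨ D a)) ∧ T.card + R.card + 1 = k ∧
      E.card = T.card + S.card + 2 := by
    refine ⟨(Finset.Ioo 0 k).filter D, (Finset.Ioo 0 k).filter (fun y => ¬ D y),
      (Finset.Ioo k n).filter D,
      insert 0 (insert k ((Finset.Ioo 0 k).filter D ∪ (Finset.Ioo k n).filter D)),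
      by simp [and_assoc], by simp [and_assoc], by simp [and_assoc], ?_, ?_, ?_⟩
    · intro a
      simp only [Finset.mem_insert, Finset.mem_union, Finset.mem_filter, Finset.mem_Ioo]
      by_cases h : D a <;> simp only [h, and_true, and_false, or_true, or_false] <;> omega
    · have := Finset.card_filter_add_card_filter_not (s := Finset.Ioo 0 k) D
      rw [Nat.card_Ioo] at this
      omega
    · rw [Finset.card_insert_of_notMem (by simp; omega),
        Finset.card_insert_of_notMem (by simp),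
        Finset.card_union_of_disjoint (by
          rw [Finset.disjoint_left]
          intro a ha hb
          simp only [Finset.mem_filter, Finset.mem_Ioo] at ha hb
          omega)]
  have hcase : (∃ r ∈ R, S.Nonempty) ∨ ∃ r, k < r ∧ r < n ∧ ¬ D r ∧ T.Nonempty := by
    obtain ⟨z, z1, z2, z3, z4⟩ := hD1
    obtain ⟨r, r1, r2, r3, r4⟩ := hD2
    by_cases hS0 : S.Nonempty
    · by_cases hR0 : R.Nonempty
      · obtain ⟨a, ha⟩ := hR0
        exact Or.inl ⟨a, ha, hS0⟩
      · refine Or.inr ⟨r, ?_, r1, r4, ⟨1, ?_⟩⟩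
        · by_contra hn'
          exact hR0 ⟨r, (mR r).2 ⟨by omega, by omega, r4⟩⟩
        · by_contra hn'
          exact hR0 ⟨1, (mR 1).2 ⟨by omega, by omega, fun h =>
            hn' ((mT 1).2 ⟨by omega, by omega, h⟩)⟩⟩
    · refine Or.inr ⟨k + 1, by omega, by omega,
        fun h => hS0 ⟨k + 1, (mS _).2 ⟨by omega, by omega, h⟩⟩, ⟨z, (mT z).2 ⟨by omega, ?_, z4⟩⟩⟩
      by_contra hn'
      exact hS0 ⟨z, (mS z).2 ⟨by omega, z1, z4⟩⟩
  have main : ∀ r m, m + 1 < E.card → ∃ (ω : ℕ → ℕ) (p : ℕ) (M : Finset ℕ),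
      (∀ x, (r < x ∧ ω x = x) ∨ (x ≤ r ∧ ω x = x + n)) ∧ p ∈ E ∧ (∀ x ∈ E, ω p ≤ ω x) ∧
      M.card = m ∧ M ⊆ E ∧ p ∉ M ∧ (∃ e ∈ E, e ≠ p ∧ e ∉ M) ∧
      ∀ x ∈ M, ∀ y ∈ E, y ≠ p → ω y < ω x → y ∈ M := by
    intro r m hm
    let ω : ℕ → ℕ := fun x => if r < x then x else x + n
    obtain ⟨p, p1, p2⟩ := Finset.exists_min_image E ω (Finset.card_pos.1 (by omega))
    obtain ⟨M, m1, m2, m3⟩ := lower_set (E.erase p) ω m
      (by rw [Finset.card_erase_of_mem p1]; omega)
    refine ⟨ω, p, M, fun x => ?_, p1, p2, m2, m1.trans (Finset.erase_subset _ _),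
      fun h => (Finset.mem_erase.1 (m1 h)).1 rfl, ?_,
      fun x hx y hy hp h => m3 x hx y (Finset.mem_erase.2 ⟨hp, hy⟩) h⟩
    · simp only [ω]; split_ifs <;> omega
    · by_contra hne
      have : E.erase p ⊆ M := by
        intro a ha
        by_contra h
        exact hne ⟨a, (Finset.mem_erase.1 ha).2, (Finset.mem_erase.1 ha).1, h⟩
      have := Finset.card_le_card this
      rw [Finset.card_erase_of_mem p1] at this
      omega
  have E0 : 0 ∈ E := (mE 0).2 ⟨by omega, Or.inl rfl⟩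
  have Ek : k ∈ E := (mE k).2 ⟨by omega, Or.inr (Or.inl rfl)⟩
  have hRE : ∀ a, a ∈ R → a ∈ E → False := by
    intro a h1 h2
    rw [mR] at h1
    rw [mE] at h2
    rcases h2.2 with h | h | h
    · omega
    · omega
    · exact h1.2.2 h
  have hnR : ∀ a, a ≤ k → a ∉ R → a ∈ E := by
    intro a h1 h2
    rw [mR] at h2
    rw [mE]
    refine ⟨by omega, ?_⟩
    by_contra h
    exact h2 ⟨by omega, by omega, fun h' => h (Or.inr (Or.inr h'))⟩
  have hnD : ∀ a, a ≠ 0 → a ≠ k → ¬ D a → a ∉ E := by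
    intro a h1 h2 h3 h4
    rcases ((mE a).1 h4).2 with h | h | h
    exacts [h1 h, h2 h, h3 h]
  rcases hcase with ⟨r, hr, hS0⟩ | ⟨r, r1, r2, r3, hT0⟩
  · have cS := Finset.card_pos.2 hS0
    obtain ⟨ω, p, M, hω, p1, p2, m2, m1, pM, ⟨e', e1', e2', e3'⟩, m7⟩ :=
      main r (T.card + 1) (by omega)
    have hr' := (mR r).1 hr
    have p3 : r < p ∧ p ≤ k := by
      have := p2 k Ek
      have := hω p
      have := hω k
      omega
    obtain ⟨e, e1, e2⟩ : ∃ e ∈ M, e ∉ T := by
      by_contra hne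
      push Not at hne
      have := Finset.card_le_card (show M ⊆ T from hne)
      omega
    have e3 : e = 0 ∨ k ≤ e := by
      by_contra hne
      rcases ((mE e).1 (m1 e1)).2 with h | h | h
      · omega
      · omega
      · exact e2 ((mT e).2 ⟨by omega, by omega, h⟩)
    refine ⟨R ∪ M, ?_, ?_, ?_, ?_, ?_, r, by omega, Or.inl ⟨hr'.2.1, Finset.mem_union_left _ hr, ?_,
      p, Finset.mem_range.2 (by omega), p3.1, p3.2, ?_⟩⟩
    · intro a ha
      rw [Finset.mem_range]
      rcases Finset.mem_union.1 ha with h | h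
      · have := (mR a).1 h; omega
      · exact ((mE a).1 (m1 h)).1
    · rw [Finset.card_union_of_disjoint (by
        rw [Finset.disjoint_left]; exact fun a h1 h2 => hRE a h1 (m1 h2))]
      omega
    · exact fun y h1 h2 h3 => Finset.mem_union_left _ ((mR y).2 ⟨h1, h2, h3⟩)
    · intro x h1 h2 h3
      rcases Finset.mem_union.1 h3 with h | h
      · have := (mR x).1 h; omega
      · exact hnD x (by omega) (by omega) h2 (m1 h)
    · rintro z z1 z2 (⟨b1, b2, ⟨u, u1, u2, u3⟩, v, v1, v2, v3, v4⟩ |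
        ⟨b1, b2, ⟨u, u1, u2, u3⟩, v, v1, v2⟩)
      · rw [Finset.mem_union, not_or] at u3 v4
        have zM : z ∈ M := (Finset.mem_union.1 b2).resolve_left fun h => ((mR z).1 h).2.2 z2
        have uE : u ∈ E := hnR u (by omega) u3.1
        have vE : v ∈ E := hnR v v3 v4.1
        have := hω z
        have := hω p
        by_cases hz : r < z
        · have h1 := p2 z (m1 zM)
          have h3 : v ≠ e := fun h => v4.2 (h ▸ e1)
          have := hω v
          have := hω e
          exact v4.2 (m7 e e1 v vE (by omega) (by omega))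
        · have := hω u
          exact u3.2 (m7 z zM u uE (by omega) (by omega))
      · have zE : z ∈ E := (mE z).2 ⟨z1, Or.inr (Or.inr z2)⟩
        have vM : v ∈ M := (Finset.mem_union.1 v1).resolve_left fun h => by
          have := (mR v).1 h; omega
        have := hω v
        have := hω z
        exact b2 (Finset.mem_union_right _ (m7 v vM z zE (by omega) (by omega)))
    · by_cases he : e' < r
      · refine ⟨e', Finset.mem_range.2 (by omega), he, fun h => ?_⟩
        rcases Finset.mem_union.1 h with h | h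
        exacts [hRE e' h e1', e3' h]
      · refine ⟨0, Finset.mem_range.2 (by omega), hr'.1, fun h => ?_⟩
        have h0 : 0 ∈ M := (Finset.mem_union.1 h).resolve_left fun h => hRE 0 h E0
        have h1 : e' ≠ r := fun h => hRE r hr (h ▸ e1')
        have := hω 0
        have := hω e'
        have := ((mE e').1 e1').1
        exact e3' (m7 0 h0 e' e1' e2' (by omega))
    · intro h
      rcases Finset.mem_union.1 h with h | h
      exacts [hRE p h p1, pM h]
  · have cT := Finset.card_pos.2 hT0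
    obtain ⟨ω, p, M, hω, p1, p2, m2, m1, pM, ⟨e', e1', e2', e3'⟩, m7⟩ :=
      main r (S.card + 1) (by omega)
    have p3 : r < p ∨ p = 0 := by
      have := p2 0 E0
      have := hω p
      have := hω 0
      omega
    obtain ⟨e, e1, e2⟩ : ∃ e ∈ M, e ∉ S := by
      by_contra hne
      push Not at hne
      have := Finset.card_le_card (show M ⊆ S from hne)
      omega
    have e3 : e ≤ k := by
      by_contra hne
      rcases ((mE e).1 (m1 e1)).2 with h | h | h
      · omega
      · omega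
      · exact e2 ((mS e).2 ⟨by omega, ((mE e).1 (m1 e1)).1, h⟩)
    have mK : ∀ a, a ∈ R ∪ (E \ M) ↔ a ∈ R ∨ (a ∈ E ∧ a ∉ M) := by simp
    refine ⟨R ∪ (E \ M), ?_, ?_, ?_, ?_, ?_, r, r2, Or.inr ⟨r1, ?_, ?_, p,
      (mK p).2 (Or.inr ⟨p1, pM⟩), p3⟩⟩
    · intro a ha
      rw [Finset.mem_range]
      rcases (mK a).1 ha with h | h
      · have := (mR a).1 h; omega
      · exact ((mE a).1 h.1).1
    · rw [Finset.card_union_of_disjoint (by
        rw [Finset.disjoint_left]; exact fun a h1 h2 => hRE a h1 (Finset.mem_sdiff.1 h2).1),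
        Finset.card_sdiff_of_subset m1]
      omega
    · exact fun y h1 h2 h3 => Finset.mem_union_left _ ((mR y).2 ⟨h1, h2, h3⟩)
    · intro x h1 h2 h3
      rcases (mK x).1 h3 with h | h
      · have := (mR x).1 h; omega
      · exact hnD x (by omega) (by omega) h2 h.1
    · rintro z z1 z2 (⟨b1, b2, ⟨u, u1, u2, u3⟩, v, v1, v2, v3, v4⟩ |
        ⟨b1, b2, ⟨u, u1, u2, u3⟩, v, v1, v2⟩)
      · have zE := ((mK z).1 b2).resolve_left fun h => ((mR z).1 h).2.2 z2
        rw [mK, not_or, not_and, not_not] at v4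
        have vM : v ∈ M := v4.2 (hnR v v3 v4.1)
        have := hω v
        have := hω z
        exact zE.2 (m7 v vM z zE.1 (by omega) (by omega))
      · rw [mK, not_or, not_and, not_not] at b2
        have zM : z ∈ M := b2.2 ((mE z).2 ⟨z1, Or.inr (Or.inr z2)⟩)
        have uE := ((mK u).1 u1).resolve_left fun h => by have := (mR u).1 h; omega
        have vE := ((mK v).1 v1).resolve_left fun h => by have := (mR v).1 h; omega
        have := hω z
        have := hω p
        by_cases hz : r < z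
        · have h1 := p2 z (m1 zM)
          have h3 : v ≠ e := fun h => vE.2 (h ▸ e1)
          have h4 : z ≠ p := fun h => pM (h ▸ zM)
          have := hω v
          have := hω e
          have := ((mE v).1 vE.1).1
          exact vE.2 (m7 e e1 v vE.1 (by omega) (by omega))
        · have := hω u
          exact uE.2 (m7 z zM u uE.1 (by omega) (by omega))
    · intro h
      rcases (mK r).1 h with h | h
      · have := (mR r).1 h; omega
      · exact hnD r (by omega) (by omega) r3 h.1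
    · by_cases he : k ≤ e' ∧ e' < r
      · exact ⟨e', (mK e').2 (Or.inr ⟨e1', e3'⟩), he.1, he.2⟩
      · refine ⟨k, (mK k).2 (Or.inr ⟨Ek, fun h0 => ?_⟩), le_rfl, r1⟩
        have h1 : e' ≠ r := fun h => hnD r (by omega) (by omega) r3 (h ▸ e1')
        have := hω k
        have := hω e'
        have := ((mE e').1 e1').1
        exact e3' (m7 k h0 e' e1' e2' (by omega))

end Pool.Agent.H2Z.WS
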